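import Pool.Agent.H18.TF.Div2

/-!
# Semiampleness of effective divisors on families of complex tori, and pluricanonical forms
-/

set_option autoImplicit false

namespace H18.TF

open Matrix Set Filter Topology
open scoped Manifold ContDiff

universe u v w x

variable {n : ℕ} {B : Type u} [TopologicalSpace B] [ChartedSpace (Fin n → ℂ) B]
  {g : ℕ} {ι : Type v} {Y : TorusBundle n B g ι}

namespace TorusBundle.Divisor

variable {D : Y.Divisor}

theorem IsSection.trans {N : ℕ} {G : ι → B → (Fin g → ℂ) → ℂ} (hG : D.IsSection N G) {i j : ι} {p : B}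
    (hp : p ∈ Y.U i ∩ Y.U j) (l : Fin (2 * g) → ℤ) (v : Fin g → ℂ) :
    G i p (Y.A i j p *ᵥ v + Y.c i j p + Y.P i p *ᵥ ic l) = D.trans i j p l v ^ N * G j p v := by
  rw [hG.period i p hp.1, hG.change i j p hp, ← mul_assoc, ← mul_pow]
  rfl

theorem trans_ne_zero (D : Y.Divisor) (i j : ι) (p : B) (l : Fin (2 * g) → ℤ) (v : Fin g → ℂ) :
    D.trans i j p l v ≠ 0 := mul_ne_zero (ee_ne_zero _) (ee_ne_zero _)

/-- The lattice spans `ℂ^g` as a real vector space. -/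
theorem exists_real {p : B} {i : ι} (hp : p ∈ Y.U i) (v : Fin g → ℂ) :
    ∃ x : Fin (2 * g) → ℝ, (Y.P i p *ᵥ fun l => (x l : ℂ)) = v := by
  let L : (Fin (2 * g) → ℝ) →ₗ[ℝ] (Fin g → ℂ) :=
    { toFun := fun x => Y.P i p *ᵥ fun l => (x l : ℂ)
      map_add' := fun x y => by
        rw [← Matrix.mulVec_add]
        congr 1
        funext l
        simp
      map_smul' := fun c x => by
        show Y.P i p *ᵥ _ = c • (Y.P i p *ᵥ _)
        rw [← Matrix.mulVec_smul]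
        congr 1
        funext l
        simp }
  have hinj : Function.Injective L := by
    rw [← LinearMap.ker_eq_bot, LinearMap.ker_eq_bot']
    exact fun x hx => Y.lattice i p hp x hx
  have hdim : Module.finrank ℝ (Fin (2 * g) → ℝ) = Module.finrank ℝ (Fin g → ℂ) := by
    rw [Module.finrank_fin_fun, Module.finrank_pi_fintype]
    simp [Complex.finrank_real_complex, mul_comm]
  exact (LinearMap.injective_iff_surjective_of_finrank_eq_finrank hdim).1 hinj v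

/-- Near one fibre one power of `O(D)` is generated by its sections. -/
theorem exists_near (D : Y.Divisor) (p : B) : ∃ N, 1 ≤ N ∧ ∀ᶠ p' in 𝓝 p, ∀ i, p' ∈ Y.U i →
    ∀ v, ∃ G, D.IsSection N G ∧ G i p' v ≠ 0 := by
  obtain ⟨i, hi⟩ := Y.cover p
  have hi' : p ∈ Y.U i := hi
  set Q : Set (Fin (2 * g) → ℝ) := Set.Icc 0 1 with hQ
  have hQc : IsCompact Q := isCompact_Icc
  have h1 : ∃ N, 1 ≤ N ∧ ∀ᶠ p' in 𝓝 p, ∀ x ∈ Q,
      ∃ G, D.IsSection N G ∧ G i p' (Y.P i p' *ᵥ fun l => ((x l : ℝ) : ℂ)) ≠ 0 := by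
    refine hQc.induction_on (p := fun s => ∃ N, 1 ≤ N ∧ ∀ᶠ p' in 𝓝 p, ∀ x ∈ s,
      ∃ G, D.IsSection N G ∧ G i p' (Y.P i p' *ᵥ fun l => ((x l : ℝ) : ℂ)) ≠ 0) ?_ ?_ ?_ ?_
    · exact ⟨1, le_refl 1, Eventually.of_forall fun p' x hx => absurd hx (Set.notMem_empty x)⟩
    · rintro s t hst ⟨N, hN, h⟩
      exact ⟨N, hN, h.mono fun p' hp' x hx => hp' x (hst hx)⟩
    · rintro s t ⟨N, hN, h⟩ ⟨N', hN', h'⟩
      refine ⟨N * N', Nat.mul_pos hN hN', ?_⟩
      filter_upwards [h, h'] with p' hp hp'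
      rintro x (hx | hx)
      · obtain ⟨G, hG, hne⟩ := hp x hx
        exact ⟨_, hG.pow N', pow_ne_zero _ hne⟩
      · obtain ⟨G, hG, hne⟩ := hp' x hx
        refine ⟨fun i p v => G i p v ^ N, ?_, pow_ne_zero _ hne⟩
        have := hG.pow N
        rwa [mul_comm] at this
    · intro x _
      obtain ⟨N, hN, G, hG, hne⟩ := D.exists_isSection hi' (Y.P i p *ᵥ fun l => ((x l : ℝ) : ℂ))
      have hc : ContinuousAt (fun z : B × (Fin (2 * g) → ℝ) =>
          G i z.1 (Y.P i z.1 *ᵥ fun l => ((z.2 l : ℝ) : ℂ))) (p, x) := by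
        have h2 : ContinuousAt (fun z : B × (Fin g → ℂ) => G i z.1 z.2)
            (p, Y.P i p *ᵥ fun l => ((x l : ℝ) : ℂ)) := (hG.holo.at hi' _).continuousAt
        have h3 : ContinuousAt (fun z : B × (Fin (2 * g) → ℝ) =>
            (z.1, Y.P i z.1 *ᵥ fun l => ((z.2 l : ℝ) : ℂ))) (p, x) := by
          refine continuousAt_fst.prodMk (continuousAt_pi.2 fun a => ?_)
          simp only [Matrix.mulVec, dotProduct]
          refine tendsto_finsetSum _ fun l _ => ?_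
          have h4 : ContinuousAt (fun z : B × (Fin (2 * g) → ℝ) => Y.P i z.1 a l) (p, x) :=
            ContinuousAt.comp (f := fun z : B × (Fin (2 * g) → ℝ) => z.1)
              (g := fun q : B => Y.P i q a l)
              ((Y.holo_P i a l).mdifferentiableAt
                ((TorusBundle.isOpen_U i).mem_nhds hi')).continuousAt continuousAt_fst
          have h5 : ContinuousAt (fun z : B × (Fin (2 * g) → ℝ) => ((z.2 l : ℝ) : ℂ)) (p, x) := by
            fun_prop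
          exact h4.mul h5
        exact ContinuousAt.comp (f := fun z : B × (Fin (2 * g) → ℝ) =>
          (z.1, Y.P i z.1 *ᵥ fun l => ((z.2 l : ℝ) : ℂ)))
          (g := fun z : B × (Fin g → ℂ) => G i z.1 z.2) h2 h3
      have hev := hc.eventually_ne hne
      rw [nhds_prod_eq, eventually_prod_iff] at hev
      obtain ⟨pa, hpa, pb, hpb, hab⟩ := hev
      refine ⟨{x' | pb x'}, mem_nhdsWithin_of_mem_nhds hpb, N, hN, ?_⟩
      filter_upwards [hpa] with p' hp' x' hx'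
      exact ⟨G, hG, hab hp' hx'⟩
  obtain ⟨N, hN, h2⟩ := h1
  refine ⟨N, hN, ?_⟩
  filter_upwards [h2, (TorusBundle.isOpen_U i).mem_nhds hi'] with p' hp' hpi j hj v
  obtain ⟨y, hy⟩ := exists_real hpi (Y.A i j p' *ᵥ v + Y.c i j p')
  have hy2 : Y.P i p' *ᵥ (fun l => ((y l : ℝ) : ℂ)) =
      Y.P i p' *ᵥ (fun l => ((Int.fract (y l) : ℝ) : ℂ)) + Y.P i p' *ᵥ ic fun l => ⌊y l⌋ := by
    rw [← Matrix.mulVec_add]
    congr 1
    funext l
    simp only [ic, Pi.add_apply]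
    have := Int.fract_add_floor (y l)
    exact_mod_cast this.symm
  obtain ⟨G, hG, hne⟩ := hp' (fun l => Int.fract (y l))
    ⟨fun l => Int.fract_nonneg _, fun l => (Int.fract_lt_one _).le⟩
  refine ⟨G, hG, fun h0 => hne ?_⟩
  have h3 := hG.change i j p' ⟨hpi, hj⟩ v
  rw [h0, mul_zero, ← hy, hy2, hG.period i p' hpi] at h3
  exact (mul_eq_zero.1 h3).resolve_left (pow_ne_zero _ (ee_ne_zero _))

/-- Over a compact set of `B` one power of `O(D)` is generated by its sections. -/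
theorem exists_power (D : Y.Divisor) {Z : Set B} (hZ : IsCompact Z) : ∃ N, 1 ≤ N ∧
    ∀ p ∈ Z, ∀ i, p ∈ Y.U i → ∀ v, ∃ G, D.IsSection N G ∧ G i p v ≠ 0 := by
  refine hZ.induction_on (p := fun s => ∃ N, 1 ≤ N ∧
    ∀ p ∈ s, ∀ i, p ∈ Y.U i → ∀ v, ∃ G, D.IsSection N G ∧ G i p v ≠ 0) ?_ ?_ ?_ ?_
  · exact ⟨1, le_refl 1, fun p hp => absurd hp (Set.notMem_empty p)⟩
  · rintro s t hst ⟨N, hN, h⟩
    exact ⟨N, hN, fun p hp => h p (hst hp)⟩
  · rintro s t ⟨N, hN, h⟩ ⟨N', hN', h'⟩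
    refine ⟨N * N', Nat.mul_pos hN hN', ?_⟩
    rintro p (hp | hp) i hi v
    · obtain ⟨G, hG, hne⟩ := h p hp i hi v
      exact ⟨_, hG.pow N', pow_ne_zero _ hne⟩
    · obtain ⟨G, hG, hne⟩ := h' p hp i hi v
      refine ⟨fun i p v => G i p v ^ N, ?_, pow_ne_zero _ hne⟩
      have := hG.pow N
      rwa [mul_comm] at this
  · intro p _
    obtain ⟨N, hN, h⟩ := D.exists_near p
    exact ⟨_, mem_nhdsWithin_of_mem_nhds h, N, hN, fun p' hp' => hp'⟩

end TorusBundle.Divisor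

section total

variable {k : ℕ} {X : Type w} [TopologicalSpace X] [ChartedSpace (Fin k → ℂ) X] {κ : Type x}
  {h : TorusMap Y k X κ} {μ : ι → ι → B → ℂ} {D : Y.Divisor}

theorem holo_pull {G : ι → B → (Fin g → ℂ) → ℂ} (hG : Y.HoloTotal G) (h : TorusMap Y k X κ) (a : κ) :
    Holo (n := k) (h.W a) fun x => G (h.idx a) (h.π x) (h.v a x) := by
  intro x hx
  refine MDifferentiableAt.mdifferentiableWithinAt ?_
  have hv : MDifferentiableAt 𝓘(ℂ, Fin k → ℂ) 𝓘(ℂ, Fin g → ℂ) (fun x => h.v a x) x :=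
    mdifferentiableAt_pi' fun i => (h.holo a i).mdifferentiableAt ((h.isOpen a).mem_nhds hx)
  have hπ : MDifferentiableAt 𝓘(ℂ, Fin k → ℂ) 𝓘(ℂ, Fin n → ℂ) h.π x := h.holo_π x
  exact (hG.at (h.mem a x hx) (h.v a x)).comp x (f := fun x => (h.π x, h.v a x)) (hπ.prodMk hv)

/-- The product of sections of `K_X ^ m ⊗ h^* (M ⊗ O(D))^(-1)`, of `O(D) ^ N` and of `M ^ N'`. -/
theorem exists_canonical_div {m : ℕ} {τ : κ → OpenPartialHomeomorph X (Fin k → ℂ) → X → ℂ}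
    (hτ : h.IsAdjunction μ D m τ) {N N' : ℕ} {G : ι → B → (Fin g → ℂ) → ℂ}
    (hG : D.IsSection N G) {s : ι → B → ℂ} (hs : Y.IsSectionOf μ N' s) :
    ∃ F, IsCanonicalForm k X (m * N * N') F ∧ ∀ a, ∀ ψ ∈ atlas (Fin k → ℂ) X,
      ∀ x ∈ h.W a ∩ ψ.source, F ψ x = τ a ψ x ^ (N * N') *
        G (h.idx a) (h.π x) (h.v a x) ^ N' * s (h.idx a) (h.π x) ^ N := by
  classical
  choose a₀ ha₀ using h.cover
  have hind : ∀ a a', ∀ ψ ∈ atlas (Fin k → ℂ) X, ∀ x ∈ h.W a ∩ h.W a' ∩ ψ.source,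
      τ a ψ x ^ (N * N') * G (h.idx a) (h.π x) (h.v a x) ^ N' * s (h.idx a) (h.π x) ^ N =
      τ a' ψ x ^ (N * N') * G (h.idx a') (h.π x) (h.v a' x) ^ N' *
        s (h.idx a') (h.π x) ^ N := by
    intro a a' ψ hψ x hx
    have hU : h.π x ∈ Y.U (h.idx a) := h.mem a x hx.1.1
    have hU' : h.π x ∈ Y.U (h.idx a') := h.mem a' x hx.1.2
    obtain ⟨l, hl⟩ := h.compat a a' x hx.1
    have h1 := hτ.trans a a' ψ hψ x hx l hl
    have h2 := hG.trans (i := h.idx a) (j := h.idx a') ⟨hU, hU'⟩ l (h.v a' x)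
    have h3 := hs.eq (h.idx a) (h.idx a') (h.π x) ⟨hU, hU'⟩
    have h4 : G (h.idx a) (h.π x) (h.v a x) =
        D.trans (h.idx a) (h.idx a') (h.π x) l (h.v a' x) ^ N *
          G (h.idx a') (h.π x) (h.v a' x) := by
      rw [← h2, hl]
      rfl
    set E := D.trans (h.idx a) (h.idx a') (h.π x) l (h.v a' x) with hE
    set μ₀ := μ (h.idx a) (h.idx a') (h.π x) with hμ₀
    rw [h4, ← h3]
    calc τ a ψ x ^ (N * N') * (E ^ N * G (h.idx a') (h.π x) (h.v a' x)) ^ N' *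
          s (h.idx a) (h.π x) ^ N =
        (τ a ψ x * E) ^ (N * N') * G (h.idx a') (h.π x) (h.v a' x) ^ N' *
          s (h.idx a) (h.π x) ^ N := by ring
      _ = (μ₀ * τ a' ψ x) ^ (N * N') * G (h.idx a') (h.π x) (h.v a' x) ^ N' *
          s (h.idx a) (h.π x) ^ N := by rw [h1]
      _ = _ := by ring
  refine ⟨fun ψ x => τ (a₀ x) ψ x ^ (N * N') *
        G (h.idx (a₀ x)) (h.π x) (h.v (a₀ x) x) ^ N' * s (h.idx (a₀ x)) (h.π x) ^ N,
        ⟨?_, ?_⟩, ?_⟩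
  · intro ψ hψ x hx
    have hopen : IsOpen (h.W (a₀ x) ∩ ψ.source) := (h.isOpen _).inter ψ.open_source
    have hloc : (fun x' => τ (a₀ x') ψ x' ^ (N * N') *
        G (h.idx (a₀ x')) (h.π x') (h.v (a₀ x') x') ^ N' * s (h.idx (a₀ x')) (h.π x') ^ N)
        =ᶠ[𝓝 x] fun x' => τ (a₀ x) ψ x' ^ (N * N') *
        G (h.idx (a₀ x)) (h.π x') (h.v (a₀ x) x') ^ N' * s (h.idx (a₀ x)) (h.π x') ^ N := by
      filter_upwards [hopen.mem_nhds ⟨ha₀ x, hx⟩] with x' hx'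
      exact hind _ _ ψ hψ x' ⟨⟨ha₀ x', hx'.1⟩, hx'.2⟩
    have hmem : ∀ p ∈ h.W (a₀ x) ∩ ψ.source, h.π p ∈ (Y.chart (h.idx (a₀ x))).source :=
      fun p hp => h.mem _ p hp.1
    have h1 : Holo (n := k) (h.W (a₀ x) ∩ ψ.source) (τ (a₀ x) ψ) := hτ.holo _ ψ hψ
    have h2 : Holo (n := k) (h.W (a₀ x) ∩ ψ.source)
        fun x' => G (h.idx (a₀ x)) (h.π x') (h.v (a₀ x) x') :=
      (holo_pull hG.holo h (a₀ x)).mono Set.inter_subset_left
    have h3 : Holo (n := k) (h.W (a₀ x) ∩ ψ.source) fun p => s (h.idx (a₀ x)) (h.π p) :=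
      Holo.comp_π (hs.holo _) hmem
    have h4 := ((h1.pow (N * N')).mul (h2.pow N')).mul (h3.pow N)
    have h5 := h4.mdifferentiableAt (hopen.mem_nhds ⟨ha₀ x, hx⟩)
    exact (h5.congr_of_eventuallyEq hloc).mdifferentiableWithinAt
  · intro ψ hψ ψ' hψ' x hx
    have h1 := hτ.chart (a₀ x) ψ hψ ψ' hψ' x ⟨ha₀ x, hx⟩
    show _ * jac ψ ψ' x ^ (m * N * N') = _
    rw [← h1, mul_pow, ← pow_mul]
    ring
  · intro a ψ hψ x hx
    exact hind _ _ ψ hψ x ⟨⟨ha₀ x, hx.1⟩, hx.2⟩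

/-- If `O(D) ^ N` and `M ^ N'` are generated by their sections over `Z`, then so is
`K_X ^ (m N N')`, for `X` over `Z`. -/
theorem isGloballyGenerated_div {m : ℕ} {τ : κ → OpenPartialHomeomorph X (Fin k → ℂ) → X → ℂ}
    (hτ : h.IsAdjunction μ D m τ) {Z : Set B} (hZ : ∀ x, h.π x ∈ Z) {N N' : ℕ}
    (hN : ∀ p ∈ Z, ∀ i, p ∈ Y.U i → ∀ v, ∃ G, D.IsSection N G ∧ G i p v ≠ 0)
    (hN' : ∀ p ∈ Z, ∃ s, Y.IsSectionOf μ N' s ∧ ∀ i, p ∈ Y.U i → s i p ≠ 0) :
    IsGloballyGenerated k X (m * N * N') := by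
  intro x
  obtain ⟨a, ha⟩ := h.cover x
  obtain ⟨G, hG, hne⟩ := hN (h.π x) (hZ x) (h.idx a) (h.mem a x ha) (h.v a x)
  obtain ⟨s, hs, hnes⟩ := hN' (h.π x) (hZ x)
  obtain ⟨F, hF, hF2⟩ := exists_canonical_div hτ hG hs
  refine ⟨F, hF, ?_⟩
  have hmem : x ∈ h.W a ∩ (chartAt (Fin k → ℂ) x).source := ⟨ha, mem_chart_source _ _⟩
  rw [hF2 a _ (chart_mem_atlas _ _) x hmem]
  exact mul_ne_zero (mul_ne_zero (pow_ne_zero _ (hτ.ne_zero a _ (chart_mem_atlas _ _) x hmem))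
    (pow_ne_zero _ hne)) (pow_ne_zero _ (hnes _ (h.mem a x ha)))

/-- The product of sections of `λ ^ N` and `K_B ^ N'` is a section of the power of
`(K_B ⊗ λ) ^ m`. -/
theorem isSectionOf_canonical {N N' : ℕ} {s : ι → B → ℂ} (hs : Y.IsSection N s)
    {σ : OpenPartialHomeomorph B (Fin n → ℂ) → B → ℂ} (hσ : IsCanonicalForm n B N' σ) (m : ℕ) :
    Y.IsSectionOf (Y.canonical m) (N * N')
      fun i p => s i p ^ (m * N') * σ (Y.chart i) p ^ (m * N) where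
  holo i := by
    have h1 := (hs.holo i).pow (m * N')
    have h2 := (hσ.holo _ (Y.mem_atlas i)).pow (m * N)
    exact h1.mul h2
  eq i j p hp := by
    have h1 := hs.eq i j p hp
    have h2 := hσ.eq _ (Y.mem_atlas i) _ (Y.mem_atlas j) p hp
    rw [← h1, ← h2, TorusBundle.canonical]
    ring

end total

namespace TorusBundle

theorem IsSection.pow' {k : ℕ} {s : ι → B → ℂ} (hs : Y.IsSection k s) (j : ℕ) :
    Y.IsSection (j * k) (fun i p => s i p ^ j) := by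
  rw [mul_comm]; exact hs.pow j

/-- Over a compact subset `Z` of a connected base the line bundle `λ` of a family with a real
polarization is semiample. -/
theorem IsPolarization.exists_power_compact [PreconnectedSpace B]
    {Ω : ι → B → Matrix (Fin (2 * g)) (Fin (2 * g)) ℝ} (hΩ : Y.IsPolarization Ω) {Z : Set B}
    (hZ : IsCompact Z) :
    ∃ N, 1 ≤ N ∧ ∀ p ∈ Z, ∃ s, Y.IsSection N s ∧ ∀ i, p ∈ Y.U i → s i p ≠ 0 := by
  refine hZ.induction_on (p := fun t => ∃ N, 1 ≤ N ∧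
    ∀ p ∈ t, ∃ s, Y.IsSection N s ∧ ∀ i, p ∈ Y.U i → s i p ≠ 0) ?_ ?_ ?_ ?_
  · exact ⟨1, le_refl 1, fun p hp => absurd hp (Set.notMem_empty p)⟩
  · rintro s t hst ⟨N, hN, h⟩
    exact ⟨N, hN, fun p hp => h p (hst hp)⟩
  · rintro s t ⟨N, hN, h⟩ ⟨N', hN', h'⟩
    refine ⟨N * N', Nat.mul_pos hN hN', ?_⟩
    rintro p (hp | hp)
    · obtain ⟨f, hf, hne⟩ := h p hp
      exact ⟨_, hf.pow N', fun i hi => pow_ne_zero _ (hne i hi)⟩
    · obtain ⟨f, hf, hne⟩ := h' p hp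
      exact ⟨_, hf.pow' N, fun i hi => pow_ne_zero _ (hne i hi)⟩
  · intro p _
    obtain ⟨k, hk, s, hs, i, hi, hne⟩ := hΩ.exists_section p
    have hc : ContinuousAt (s i) p :=
      ((hs.holo i).mdifferentiableAt ((isOpen_U i).mem_nhds hi)).continuousAt
    refine ⟨{q | ∀ j, q ∈ Y.U j → s j q ≠ 0}, mem_nhdsWithin_of_mem_nhds ?_, k, hk,
      fun q hq => ⟨s, hs, hq⟩⟩
    filter_upwards [(isOpen_U (Y := Y) i).mem_nhds hi, hc.eventually_ne hne] with q hq hq' j hj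
    exact hs.ne_zero hq hj hq'

end TorusBundle

end H18.TF
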