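import Mathlib

/-!
# Smooth families of complex tori over complex manifolds

Let `B` be a complex manifold of dimension `n`. A smooth family `A → B` of complex tori of dimension
`g` is given over the open sets `U i` of a covering by chart domains by the periods
`P i p 1, ..., P i p (2 g) ∈ ℂ^g`, the columns of the matrix `P i p`, which are holomorphic functions
of `p ∈ U i` and form for each `p` a basis of the real vector space `ℂ^g`: the part of `A` over `U i`
is the quotient of `U i × ℂ^g` by the translations `(p, v) ↦ (p, v + P i p m)`, `m ∈ ℤ^(2g)`. (Every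
proper submersion of complex manifolds whose fibres are complex tori is of this form.)
-/

set_option autoImplicit false

namespace H18.TF

open Matrix Topology
open scoped Manifold ContDiff ComplexOrder

universe u v w x

section

variable {n : ℕ} {B : Type u} [TopologicalSpace B] [ChartedSpace (Fin n → ℂ) B]

/-- The function `f` is holomorphic on the open set `U` of the complex manifold `B`. -/
def Holo (U : Set B) (f : B → ℂ) : Prop := MDifferentiableOn 𝓘(ℂ, Fin n → ℂ) 𝓘(ℂ) f U

/-- The Jacobian determinant at the point `p` of `B` of the coordinates `φ` with respect to the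
coordinates `ψ`: `dφ_1 ∧ ... ∧ dφ_n = jac φ ψ p • dψ_1 ∧ ... ∧ dψ_n`. -/
noncomputable def jac (φ ψ : OpenPartialHomeomorph B (Fin n → ℂ)) (p : B) : ℂ :=
  LinearMap.det (fderiv ℂ (φ ∘ ψ.symm) (ψ p) : (Fin n → ℂ) →ₗ[ℂ] (Fin n → ℂ))

variable (n) (B)

/-- The functions `s φ`, for the charts `φ` in the atlas of the complex manifold `B` of dimension `n`,
define a global section of the `N`-th power of the canonical bundle `K_B`: the function `s φ` is
holomorphic on the domain of `φ`, and the `N`-canonical forms `s φ (dφ_1 ∧ ... ∧ dφ_n) ^ N` agree. -/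
structure IsCanonicalForm (N : ℕ) (s : OpenPartialHomeomorph B (Fin n → ℂ) → B → ℂ) : Prop where
  holo : ∀ φ ∈ atlas (Fin n → ℂ) B, Holo (n := n) φ.source (s φ)
  eq : ∀ φ ∈ atlas (Fin n → ℂ) B, ∀ φ' ∈ atlas (Fin n → ℂ) B, ∀ p ∈ φ.source ∩ φ'.source,
    s φ p * jac φ φ' p ^ N = s φ' p

/-- The `N`-th power of the canonical bundle `K_B` is globally generated: at each point there is a
global section which does not vanish. -/
def IsGloballyGenerated (N : ℕ) : Prop :=
  ∀ p : B, ∃ s, IsCanonicalForm n B N s ∧ s (chartAt (Fin n → ℂ) p) p ≠ 0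

/-- A smooth family `A → B` of complex tori of dimension `g` over the complex manifold `B` of
dimension `n`: the part over the domain `U i` of the chart `chart i` is the quotient of
`U i × ℂ^g` by the translations `(p, v) ↦ (p, v + P i p m)`, `m ∈ ℤ^(2g)`, and over `U i ∩ U j` the
point `(p, v)` of the `j`-th quotient is identified with the point `(p, A i j p v + c i j p)` of the
`i`-th quotient. The matrix `γ i j p` describes the change of the basis of the lattice. (There need
not be a global section of `A → B`.) -/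
structure TorusBundle (g : ℕ) (ι : Type v) where
  chart : ι → OpenPartialHomeomorph B (Fin n → ℂ)
  mem_atlas : ∀ i, chart i ∈ atlas (Fin n → ℂ) B
  cover : ∀ p : B, ∃ i, p ∈ (chart i).source
  P : ι → B → Matrix (Fin g) (Fin (2 * g)) ℂ
  A : ι → ι → B → Matrix (Fin g) (Fin g) ℂ
  c : ι → ι → B → Fin g → ℂ
  γ : ι → ι → B → Matrix (Fin (2 * g)) (Fin (2 * g)) ℤ
  holo_P : ∀ i a l, Holo (n := n) (chart i).source fun p => P i p a l
  holo_A : ∀ i j a b, Holo (n := n) ((chart i).source ∩ (chart j).source) fun p => A i j p a b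
  holo_c : ∀ i j a, Holo (n := n) ((chart i).source ∩ (chart j).source) fun p => c i j p a
  lattice : ∀ i, ∀ p ∈ (chart i).source, ∀ x : Fin (2 * g) → ℝ,
    (P i p *ᵥ fun l => (x l : ℂ)) = 0 → x = 0
  det_A : ∀ i j, ∀ p ∈ (chart i).source ∩ (chart j).source, (A i j p).det ≠ 0
  det_γ : ∀ i j, ∀ p ∈ (chart i).source ∩ (chart j).source, IsUnit (γ i j p).det
  A_mul_P : ∀ i j, ∀ p ∈ (chart i).source ∩ (chart j).source,
    A i j p * P j p = P i p * (γ i j p).map (Int.castRingHom ℂ)
  cocycle_A : ∀ i j k, ∀ p ∈ (chart i).source ∩ (chart j).source ∩ (chart k).source,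
    A i j p * A j k p = A i k p
  cocycle_c : ∀ i j k, ∀ p ∈ (chart i).source ∩ (chart j).source ∩ (chart k).source,
    ∃ m : Fin (2 * g) → ℤ,
      A i j p *ᵥ c j k p + c i j p = c i k p + P i p *ᵥ fun l => (m l : ℂ)

variable {n} {B}

namespace TorusBundle

variable {g : ℕ} {ι : Type v} (Y : TorusBundle n B g ι)

/-- The open set `U i` of the covering. -/
def U (i : ι) : Set B := (Y.chart i).source

/-- The real matrices `Ω i p` define a real polarization of the family of tori: a global flat section
of the second real cohomology of the fibres which on each fibre is the class of a Kähler form. It is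
given by the alternating form `Ω i p` on the lattice `ℤ^(2g)`, which is locally constant on `U i` and
compatible with the changes of the bases of the lattices, and which for each `p` is the imaginary part
of a positive definite Hermitian form `H` on `ℂ^g`. (If the total space of the family is a Kähler
manifold, then the class of the Kähler form is a real polarization. The form need not be rational, and
the fibres need not be algebraic.) -/
structure IsPolarization (Ω : ι → B → Matrix (Fin (2 * g)) (Fin (2 * g)) ℝ) : Prop where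
  flat : ∀ i, ∀ p ∈ Y.U i, ∀ᶠ p' in 𝓝 p, Ω i p' = Ω i p
  eq : ∀ i j, ∀ p ∈ Y.U i ∩ Y.U j,
    ((Y.γ i j p).map (Int.castRingHom ℝ))ᵀ * Ω i p * (Y.γ i j p).map (Int.castRingHom ℝ) = Ω j p
  pos : ∀ i, ∀ p ∈ Y.U i, ∃ H : Matrix (Fin g) (Fin g) ℂ, H.PosDef ∧
    ∀ x y : Fin (2 * g) → ℝ,
      (star (Y.P i p *ᵥ fun l => (x l : ℂ)) ⬝ᵥ
        (H *ᵥ (Y.P i p *ᵥ fun l => (y l : ℂ)))).im = x ⬝ᵥ (Ω i p *ᵥ y)

/-- The functions `s i` define a global section of the `N`-th power of the line bundle `λ = π_* K_{A/B}`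
on `B`: the relative canonical forms `s i (dv_1 ∧ ... ∧ dv_g) ^ N` on `U i × ℂ^g` agree. -/
structure IsSection (N : ℕ) (s : ι → B → ℂ) : Prop where
  holo : ∀ i, Holo (n := n) (Y.U i) (s i)
  eq : ∀ i j, ∀ p ∈ Y.U i ∩ Y.U j, s i p * (Y.A i j p).det ^ N = s j p

end TorusBundle

variable {g : ℕ} {ι : Type v}

/-- A holomorphic map `h : X → A` from a complex manifold `X` of dimension `k` to the total space of
the family `A → B` of complex tori: it is given by the composition `π : X → B` with the projection,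
by an open covering of `X` by sets `W a` with `π (W a) ⊆ U (idx a)`, and by holomorphic maps `v a`
from `W a` to `ℂ^g`. The map sends `p ∈ W a` to the point `(π p, v a p)` of the `idx a`-th quotient;
on `W a ∩ W a'` this is the same point of `A` for `a` and `a'`. -/
structure TorusMap (Y : TorusBundle n B g ι) (k : ℕ) (X : Type w) [TopologicalSpace X]
    [ChartedSpace (Fin k → ℂ) X] (κ : Type x) where
  π : X → B
  W : κ → Set X
  idx : κ → ι
  v : κ → X → Fin g → ℂ
  holo_π : MDifferentiable 𝓘(ℂ, Fin k → ℂ) 𝓘(ℂ, Fin n → ℂ) π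
  isOpen : ∀ a, IsOpen (W a)
  cover : ∀ p, ∃ a, p ∈ W a
  mem : ∀ a, ∀ p ∈ W a, π p ∈ Y.U (idx a)
  holo : ∀ a i, Holo (n := k) (W a) fun p => v a p i
  compat : ∀ a a', ∀ p ∈ W a ∩ W a', ∃ m : Fin (2 * g) → ℤ,
    v a p = Y.A (idx a) (idx a') (π p) *ᵥ v a' p + Y.c (idx a) (idx a') (π p) +
      Y.P (idx a) (π p) *ᵥ fun l => (m l : ℂ)

/-- The functions `τ a ψ` define an isomorphism of the line bundles `h^* K_A ^ m` and `K_X ^ m` on `X`:
it maps the section `h^* (dz_i ∧ dv) ^ m` on `W a`, where `z_i = chart i` are the coordinates of `B`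
for `i = idx a` and `v` are the coordinates of `ℂ^g`, to `τ a ψ (dψ_1 ∧ ... ∧ dψ_k) ^ m`, for all
charts `ψ` of `X`. (For instance, if `h` is a local isomorphism, as the identity map of `X = A`, then
for every `m` one may take for `τ a ψ` the `m`-th power of the Jacobian determinant of the coordinates
`(z_i, v)` with respect to `ψ`.) -/
structure TorusMap.IsIso {Y : TorusBundle n B g ι} {k : ℕ} {X : Type w} [TopologicalSpace X]
    [ChartedSpace (Fin k → ℂ) X] {κ : Type x} (h : TorusMap Y k X κ) (m : ℕ)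
    (τ : κ → OpenPartialHomeomorph X (Fin k → ℂ) → X → ℂ) : Prop where
  holo : ∀ a, ∀ ψ ∈ atlas (Fin k → ℂ) X, Holo (n := k) (h.W a ∩ ψ.source) (τ a ψ)
  ne_zero : ∀ a, ∀ ψ ∈ atlas (Fin k → ℂ) X, ∀ p ∈ h.W a ∩ ψ.source, τ a ψ p ≠ 0
  chart : ∀ a, ∀ ψ ∈ atlas (Fin k → ℂ) X, ∀ ψ' ∈ atlas (Fin k → ℂ) X,
    ∀ p ∈ h.W a ∩ (ψ.source ∩ ψ'.source), τ a ψ p * jac ψ ψ' p ^ m = τ a ψ' p
  trans : ∀ a a', ∀ ψ ∈ atlas (Fin k → ℂ) X, ∀ p ∈ h.W a ∩ h.W a' ∩ ψ.source,
    τ a ψ p = (jac (Y.chart (h.idx a)) (Y.chart (h.idx a')) (h.π p) *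
      (Y.A (h.idx a) (h.idx a') (h.π p)).det) ^ m * τ a' ψ p

end

end H18.TF
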