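import Pool.Agent.H18.TF.Twist2
import Pool.Agent.H18.TF.Defs

/-!
# Sections of the powers of the Hodge line bundle
-/

set_option autoImplicit false

namespace H18.TF

open Matrix Set Filter Topology
open scoped Manifold ContDiff ComplexOrder

universe u v w x

section transform

variable {g h : ℕ}

/-- The action of an integral matrix on the multivectors. -/
def act (γ : Matrix (Fin h) (Fin h) ℤ) (P : (Fin g → Fin h) → ℤ) : (Fin g → Fin h) → ℤ :=
  fun I => ∑ J : Fin g → Fin h, (∏ a, γ (I a) (J a)) * P J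

theorem act_minors (γ : Matrix (Fin h) (Fin h) ℤ) (m : Matrix (Fin h) (Fin g) ℤ) :
    act γ (minors m) = minors (γ * m) := by
  funext I
  rw [minors_mul]
  rfl

theorem rl_mul (γ : Matrix (Fin h) (Fin h) ℤ) (m : Matrix (Fin h) (Fin g) ℤ) :
    (γ * m).map (Int.castRingHom ℝ) = rl γ * m.map (Int.castRingHom ℝ) := Matrix.map_mul

theorem act_mem {Ω Ω' : Matrix (Fin h) (Fin h) ℝ} {γ : Matrix (Fin h) (Fin h) ℤ}
    (hγ : IsUnit γ.det) (hΩ : (rl γ)ᵀ * Ω * rl γ = Ω') {P : (Fin g → Fin h) → ℤ}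
    (hP : P ∈ lag g Ω') : act γ P ∈ lag g Ω := by
  obtain ⟨hP0, m, hm, rfl⟩ := hP
  refine ⟨?_, γ * m, ?_, act_minors γ m⟩
  · rw [act_minors]
    intro h0
    apply hP0
    have h1 : act γ⁻¹ (minors (γ * m)) = minors m := by
      rw [act_minors, ← Matrix.mul_assoc, Matrix.nonsing_inv_mul _ hγ, Matrix.one_mul]
    rw [← h1, h0]
    funext I
    simp [act]
  · rw [rl_mul, Matrix.transpose_mul, ← hm, ← hΩ]
    simp only [Matrix.mul_assoc]

theorem rl_inv {γ : Matrix (Fin h) (Fin h) ℤ} (hγ : IsUnit γ.det) : rl γ⁻¹ = (rl γ)⁻¹ := by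
  symm
  apply Matrix.inv_eq_left_inv
  rw [rl, rl, ← Matrix.map_mul, Matrix.nonsing_inv_mul _ hγ]
  simp

/-- The bijection of the isotropic multivectors given by a change of the basis. -/
noncomputable def lagEquiv {Ω Ω' : Matrix (Fin h) (Fin h) ℝ} {γ : Matrix (Fin h) (Fin h) ℤ}
    (hγ : IsUnit γ.det) (hΩ : (rl γ)ᵀ * Ω * rl γ = Ω') : lag g Ω' ≃ lag g Ω where
  toFun P := ⟨act γ P, act_mem hγ hΩ P.2⟩
  invFun P := ⟨act γ⁻¹ P, act_mem (Matrix.isUnit_nonsing_inv_det _ hγ) (by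
    rw [← hΩ, rl_inv hγ, Matrix.transpose_nonsing_inv]
    have hu := isUnit_rl hγ
    have hut : IsUnit (rl γ)ᵀ.det := by rwa [Matrix.det_transpose]
    calc ((rl γ)ᵀ)⁻¹ * ((rl γ)ᵀ * Ω * rl γ) * (rl γ)⁻¹ =
        (((rl γ)ᵀ)⁻¹ * (rl γ)ᵀ) * Ω * (rl γ * (rl γ)⁻¹) := by simp only [Matrix.mul_assoc]
      _ = Ω := by
        rw [Matrix.mul_nonsing_inv _ hu, Matrix.nonsing_inv_mul _ hut, Matrix.one_mul,
          Matrix.mul_one]) P.2⟩
  left_inv P := by
    obtain ⟨P, hP⟩ := P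
    obtain ⟨hP0, m, hm, rfl⟩ := hP
    apply Subtype.ext
    show act γ⁻¹ (act γ (minors m)) = minors m
    rw [act_minors, act_minors, ← Matrix.mul_assoc, Matrix.nonsing_inv_mul _ hγ, Matrix.one_mul]
  right_inv P := by
    obtain ⟨P, hP⟩ := P
    obtain ⟨hP0, m, hm, rfl⟩ := hP
    apply Subtype.ext
    show act γ (act γ⁻¹ (minors m)) = minors m
    rw [act_minors, act_minors, ← Matrix.mul_assoc, Matrix.mul_nonsing_inv _ hγ, Matrix.one_mul]

/-- The transformation law of the Eisenstein series. -/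
theorem eis_transform {Ω Ω' : Matrix (Fin h) (Fin h) ℝ} {γ : Matrix (Fin h) (Fin h) ℤ}
    (hγ : IsUnit γ.det) (hΩ : (rl γ)ᵀ * Ω * rl γ = Ω') {A : Matrix (Fin g) (Fin g) ℂ}
    (hA : A.det ≠ 0) {W W' : Fin g → Fin h → ℂ}
    (hW : A * Matrix.of W' = Matrix.of W * γ.map (Int.castRingHom ℂ)) (k : ℕ) :
    eis Ω k W * A.det ^ k = eis Ω' k W' := by
  have h1 : ∀ P : lag g Ω', pair W (lagEquiv hγ hΩ P : lag g Ω) = A.det * pair W' P := by
    intro P
    obtain ⟨P, hP⟩ := P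
    obtain ⟨hP0, m, hm, rfl⟩ := hP
    show pair W (act γ (minors m)) = A.det * pair W' (minors m)
    rw [act_minors, pair_minors, pair_minors]
    have h2 : (γ * m).map (Int.castRingHom ℂ) =
        γ.map (Int.castRingHom ℂ) * m.map (Int.castRingHom ℂ) := Matrix.map_mul
    rw [h2, ← Matrix.mul_assoc, ← hW, Matrix.mul_assoc, Matrix.det_mul]
  rw [eis, eis, ← (lagEquiv hγ hΩ).tsum_eq, ← tsum_mul_right]
  congr 1
  funext P
  rw [h1, mul_inv, mul_pow, mul_right_comm, ← mul_pow, inv_mul_cancel₀ hA, one_pow, one_mul]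

end transform

section manifold

variable {n : ℕ} {B : Type u} [TopologicalSpace B] [ChartedSpace (Fin n → ℂ) B]

theorem mdifferentiableAt_pi {ι : Type*} [Fintype ι] {F : Type*} [NormedAddCommGroup F]
    [NormedSpace ℂ F] {f : B → ι → F} {p : B}
    (hf : ∀ i, MDifferentiableAt 𝓘(ℂ, Fin n → ℂ) 𝓘(ℂ, F) (fun q => f q i) p) :
    MDifferentiableAt 𝓘(ℂ, Fin n → ℂ) 𝓘(ℂ, ι → F) f p := by
  rw [mdifferentiableAt_iff]
  refine ⟨continuousAt_pi.2 fun i => (hf i).continuousAt, ?_⟩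
  have h1 : ∀ i, DifferentiableWithinAt ℂ
      (writtenInExtChartAt 𝓘(ℂ, Fin n → ℂ) 𝓘(ℂ, F) p fun q => f q i)
      (Set.range 𝓘(ℂ, Fin n → ℂ)) (extChartAt 𝓘(ℂ, Fin n → ℂ) p p) :=
    fun i => ((mdifferentiableAt_iff _ _).1 (hf i)).2
  exact differentiableWithinAt_pi.2 h1

variable {g : ℕ} {ι : Type v} (Y : TorusBundle n B g ι)

namespace TorusBundle

variable {Y}

theorem IsPolarization.isPos {Ω : ι → B → Matrix (Fin (2 * g)) (Fin (2 * g)) ℝ}
    (hΩ : Y.IsPolarization Ω) {i : ι} {p : B} (hp : p ∈ Y.U i) : IsPos (Y.P i p) (Ω i p) :=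
  ⟨Y.lattice i p hp, hΩ.pos i p hp⟩

/-- By connectedness, all the forms of a real polarization are equivalent. -/
theorem IsPolarization.conj [PreconnectedSpace B]
    {Ω : ι → B → Matrix (Fin (2 * g)) (Fin (2 * g)) ℝ} (hΩ : Y.IsPolarization Ω) {i₀ : ι} {p₀ : B}
    (hp₀ : p₀ ∈ Y.U i₀) : ∀ i, ∀ p ∈ Y.U i, ∃ γ : Matrix (Fin (2 * g)) (Fin (2 * g)) ℤ,
      IsUnit γ.det ∧ Ω i p = (rl γ)ᵀ * Ω i₀ p₀ * rl γ := by
  set S : Set B := {p | ∃ i, p ∈ Y.U i ∧ ∃ γ : Matrix (Fin (2 * g)) (Fin (2 * g)) ℤ,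
      IsUnit γ.det ∧ Ω i p = (rl γ)ᵀ * Ω i₀ p₀ * rl γ} with hS
  have hany : ∀ p ∈ S, ∀ j, p ∈ Y.U j → ∃ γ : Matrix (Fin (2 * g)) (Fin (2 * g)) ℤ,
      IsUnit γ.det ∧ Ω j p = (rl γ)ᵀ * Ω i₀ p₀ * rl γ := by
    rintro p ⟨i, hi, γ, hγ, h1⟩ j hj
    refine ⟨γ * Y.γ i j p, ?_, ?_⟩
    · rw [Matrix.det_mul]
      exact hγ.mul (Y.det_γ i j p ⟨hi, hj⟩)
    · rw [← hΩ.eq i j p ⟨hi, hj⟩, h1]
      have h2 : rl (γ * Y.γ i j p) = rl γ * rl (Y.γ i j p) := Matrix.map_mul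
      rw [h2, Matrix.transpose_mul]
      show (rl (Y.γ i j p))ᵀ * ((rl γ)ᵀ * Ω i₀ p₀ * rl γ) * rl (Y.γ i j p) = _
      simp only [Matrix.mul_assoc]
  have hnear : ∀ i, ∀ p ∈ Y.U i, ∀ᶠ p' in 𝓝 p, p' ∈ Y.U i ∧ Ω i p' = Ω i p := fun i p hp =>
    Filter.Eventually.and ((Y.chart i).open_source.mem_nhds hp) (hΩ.flat i p hp)
  have hopen : IsOpen S := by
    rw [isOpen_iff_mem_nhds]
    rintro p ⟨i, hi, γ, hγ, h1⟩
    filter_upwards [hnear i p hi] with p' hp'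
    exact ⟨i, hp'.1, γ, hγ, hp'.2.trans h1⟩
  have hclosed : IsClosed S := by
    rw [← isOpen_compl_iff, isOpen_iff_mem_nhds]
    intro p hp
    obtain ⟨i, hi⟩ := Y.cover p
    filter_upwards [hnear i p hi] with p' hp' hmem
    obtain ⟨γ, hγ, h1⟩ := hany p' hmem i hp'.1
    exact hp ⟨i, hi, γ, hγ, hp'.2.symm.trans h1⟩
  have huniv : S = Set.univ :=
    IsClopen.eq_univ ⟨hclosed, hopen⟩ ⟨p₀, i₀, hp₀, 1, by simp, by simp [rl]⟩
  intro i p hp
  exact hany p (huniv ▸ Set.mem_univ p) i hp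

/-- For a suitable rational approximation and a suitable twist, the Eisenstein series are sections
of the powers of the line bundle `λ`, and for each point some of them does not vanish there. -/
theorem IsPolarization.exists_section [PreconnectedSpace B]
    {Ω : ι → B → Matrix (Fin (2 * g)) (Fin (2 * g)) ℝ} (hΩ : Y.IsPolarization Ω) (p : B) :
    ∃ k, 1 ≤ k ∧ ∃ s, Y.IsSection k s ∧ ∃ i, p ∈ Y.U i ∧ s i p ≠ 0 := by
  obtain ⟨i₀, hp⟩ := Y.cover p
  have hp₀ : p ∈ Y.U i₀ := hp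
  obtain ⟨φ, q, hg₀⟩ := exists_good (hΩ.isPos hp₀).isUnit
  have hgood : ∀ i, ∀ p' ∈ Y.U i, Good φ q (Ω i p') := by
    intro i p' hp'
    obtain ⟨γ, hγ, h1⟩ := hΩ.conj hp₀ i p' hp'
    rw [h1]
    exact hg₀.conj hγ
  set W : ι → B → Fin g → Fin (2 * g) → ℂ := fun i p => mulR (Y.P i p) (twist φ q (Ω i p)) with hW
  have hpos : ∀ i, ∀ p' ∈ Y.U i, IsPos (W i p') (rat φ (Ω i p')) := by
    intro i p' hp'
    have h1 := hΩ.isPos hp'
    have h2 := (hgood i p' hp').spec h1.skew h1.isUnit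
    exact h1.twist h2.1 h2.2
  have hne : (lag g (rat φ (Ω i₀ p))).Nonempty := by
    refine lag_nonempty (Ω := (Ω i₀ p).map φ) ?_
    have h1 := (hΩ.isPos hp₀).skew
    ext a b
    have h2 : Ω i₀ p b a = -Ω i₀ p a b := congrFun (congrFun h1 a) b
    simp only [Matrix.transpose_apply, Matrix.map_apply, Matrix.neg_apply]
    rw [h2, map_neg]
  obtain ⟨k, hk, hk0⟩ := exists_eis_ne_zero (hpos i₀ p hp₀) hne
    (Fintype.card (Fin g → Fin (2 * g)) + 1)
  refine ⟨k, by omega, fun i p' => eis (rat φ (Ω i p')) k (W i p'), ⟨?_, ?_⟩, i₀, hp₀, hk0⟩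
  · intro i p' hp'
    have h1 : ∀ᶠ p'' in 𝓝 p', Ω i p'' = Ω i p' := hΩ.flat i p' hp'
    have h2 : (fun p'' => eis (rat φ (Ω i p'')) k (W i p'')) =ᶠ[𝓝 p']
        fun p'' => eis (rat φ (Ω i p')) k (mulR (Y.P i p'') (twist φ q (Ω i p'))) := by
      filter_upwards [h1] with p'' hp''
      simp only [hW, hp'']
    have h3 : DifferentiableAt ℂ (eis (g := g) (rat φ (Ω i p')) k)
        (mulR (Y.P i p') (twist φ q (Ω i p'))) :=
      (eis_differentiableAt (hpos i p' hp') (by omega)).self_of_nhds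
    have h4 : MDifferentiableAt 𝓘(ℂ, Fin n → ℂ) 𝓘(ℂ, Fin g → Fin (2 * g) → ℂ)
        (fun p'' => mulR (Y.P i p'') (twist φ q (Ω i p'))) p' := by
      refine mdifferentiableAt_pi fun a => mdifferentiableAt_pi fun l => ?_
      have h5 : ∀ b, MDifferentiableAt 𝓘(ℂ, Fin n → ℂ) 𝓘(ℂ) (fun p'' => Y.P i p'' a b) p' :=
        fun b => (Y.holo_P i a b).mdifferentiableAt ((Y.chart i).open_source.mem_nhds hp')
      have h6 : (fun p'' => mulR (Y.P i p'') (twist φ q (Ω i p')) a l) =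
          fun p'' => ∑ b, Y.P i p'' a b * ((twist φ q (Ω i p') b l : ℝ) : ℂ) := by
        funext p''
        rfl
      rw [h6]
      have h8 : DifferentiableAt ℂ (fun z : Fin (2 * g) → ℂ =>
          ∑ b, z b * ((twist φ q (Ω i p') b l : ℝ) : ℂ)) (fun b => Y.P i p' a b) := by
        fun_prop
      have h9 := h8.mdifferentiableAt.comp (f := fun p'' b => Y.P i p'' a b) p'
        (mdifferentiableAt_pi h5)
      exact h9
    have h7 := h3.mdifferentiableAt.comp p' h4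
    exact (h7.congr_of_eventuallyEq h2).mdifferentiableWithinAt
  · intro i j p' hp'
    have h1 := hΩ.eq i j p' hp'
    have hdet := Y.det_γ i j p' hp'
    refine eis_transform (γ := Y.γ i j p') hdet ?_ (Y.det_A i j p' hp') ?_ k
    · rw [← rat_conj, ← h1]
      rfl
    · have h2 := twist_conj (φ := φ) (q := q) (Ω := Ω i p') hdet
      have h3 : (rl (Y.γ i j p'))ᵀ * Ω i p' * rl (Y.γ i j p') = Ω j p' := h1
      rw [h3] at h2
      have h4 : (rl (Y.γ i j p')).map (algebraMap ℝ ℂ) = (Y.γ i j p').map (Int.castRingHom ℂ) := by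
        ext a b
        simp [rl]
      have h5 : (Y.γ i j p').map (Int.castRingHom ℂ) * (twist φ q (Ω j p')).map (algebraMap ℝ ℂ) =
          (twist φ q (Ω i p')).map (algebraMap ℝ ℂ) * (Y.γ i j p').map (Int.castRingHom ℂ) := by
        rw [← h4, ← Matrix.map_mul, ← Matrix.map_mul, h2]
      show Y.A i j p' * (Y.P j p' * (twist φ q (Ω j p')).map (algebraMap ℝ ℂ)) =
        (Y.P i p' * (twist φ q (Ω i p')).map (algebraMap ℝ ℂ)) *
          (Y.γ i j p').map (Int.castRingHom ℂ)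
      rw [← Matrix.mul_assoc, Y.A_mul_P i j p' hp', Matrix.mul_assoc, h5, Matrix.mul_assoc]

end TorusBundle

end manifold

end H18.TF
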