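import Pool.Agent.H18.TF.Glob

/-!
# Global generation, and pluricanonical forms on manifolds over a family of tori
-/

set_option autoImplicit false

namespace H18.TF

open Matrix Set Filter Topology
open scoped Manifold ContDiff ComplexOrder

universe u v w x

variable {n : ℕ} {B : Type u} [TopologicalSpace B] [ChartedSpace (Fin n → ℂ) B]
  {g : ℕ} {ι : Type v} {Y : TorusBundle n B g ι}

namespace TorusBundle

theorem IsSection.pow {k : ℕ} {s : ι → B → ℂ} (hs : Y.IsSection k s) (j : ℕ) :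
    Y.IsSection (k * j) (fun i p => s i p ^ j) where
  holo i := by
    have := (hs.holo i).pow j
    exact this
  eq i j' p hp := by rw [pow_mul, ← mul_pow, hs.eq i j' p hp]

theorem IsSection.ne_zero {k : ℕ} {s : ι → B → ℂ} (hs : Y.IsSection k s) {i j : ι} {p : B}
    (hi : p ∈ Y.U i) (hj : p ∈ Y.U j) (h : s i p ≠ 0) : s j p ≠ 0 := by
  rw [← hs.eq i j p ⟨hi, hj⟩]
  exact mul_ne_zero h (pow_ne_zero _ (Y.det_A i j p ⟨hi, hj⟩))

theorem isOpen_U (i : ι) : IsOpen (Y.U i) := (Y.chart i).open_source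

/-- Over a compact base the line bundle `λ` of a family with a real polarization is semiample. -/
theorem IsPolarization.exists_power [CompactSpace B] [PreconnectedSpace B]
    {Ω : ι → B → Matrix (Fin (2 * g)) (Fin (2 * g)) ℝ} (hΩ : Y.IsPolarization Ω) :
    ∃ N, 1 ≤ N ∧ ∀ p, ∃ s, Y.IsSection N s ∧ ∀ i, p ∈ Y.U i → s i p ≠ 0 := by
  have h1 : ∀ p : B, ∃ k, 1 ≤ k ∧ ∃ s, Y.IsSection k s ∧ ∀ᶠ q in 𝓝 p, ∀ i, q ∈ Y.U i → s i q ≠ 0 := by
    intro p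
    obtain ⟨k, hk, s, hs, i, hi, hne⟩ := hΩ.exists_section p
    refine ⟨k, hk, s, hs, ?_⟩
    have hc : ContinuousAt (s i) p :=
      ((hs.holo i).mdifferentiableAt ((isOpen_U i).mem_nhds hi)).continuousAt
    filter_upwards [(isOpen_U (Y := Y) i).mem_nhds hi, hc.eventually_ne hne] with q hq hq' j hj
    exact hs.ne_zero hq hj hq'
  choose k hk s hs hev using h1
  obtain ⟨t, ht⟩ := CompactSpace.elim_nhds_subcover (fun p => {q | ∀ i, q ∈ Y.U i → s p i q ≠ 0}) hev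
  refine ⟨∏ p ∈ t, k p, Finset.one_le_prod' fun p _ => hk p, fun q => ?_⟩
  have hq : q ∈ ⋃ p ∈ t, {q | ∀ i, q ∈ Y.U i → s p i q ≠ 0} := by
    rw [ht]; trivial
  obtain ⟨p, hpt, hp⟩ := Set.mem_iUnion₂.1 hq
  obtain ⟨j, hj⟩ := Finset.dvd_prod_of_mem k hpt
  rw [hj]
  exact ⟨_, (hs p).pow j, fun i hi => pow_ne_zero _ (hp i hi)⟩

end TorusBundle

section total

variable {k : ℕ} {X : Type w} [TopologicalSpace X] [ChartedSpace (Fin k → ℂ) X] {κ : Type x}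
  {h : TorusMap Y k X κ}

theorem Holo.comp_π {U : Set B} {f : B → ℂ} (hf : Holo (n := n) U f) {V : Set X}
    (hV : ∀ p ∈ V, h.π p ∈ U) : Holo (n := k) V fun p => f (h.π p) := by
  have h1 : MDifferentiableOn 𝓘(ℂ, Fin k → ℂ) 𝓘(ℂ, Fin n → ℂ) h.π V :=
    h.holo_π.mdifferentiableOn
  exact MDifferentiableOn.comp hf h1 hV

/-- The product of sections of `K_X ^ m ⊗ h^* K_A ^ (-m)`, of `λ ^ N` and of `K_B ^ N'`. -/
theorem exists_canonical {m : ℕ} {τ : κ → OpenPartialHomeomorph X (Fin k → ℂ) → X → ℂ}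
    (hτ : h.IsIso m τ) {N N' : ℕ} {s : ι → B → ℂ} (hs : Y.IsSection N s)
    {σ : OpenPartialHomeomorph B (Fin n → ℂ) → B → ℂ} (hσ : IsCanonicalForm n B N' σ) :
    ∃ F, IsCanonicalForm k X (m * N * N') F ∧ ∀ a, ∀ ψ ∈ atlas (Fin k → ℂ) X,
      ∀ x ∈ h.W a ∩ ψ.source, F ψ x = τ a ψ x ^ (N * N') * s (h.idx a) (h.π x) ^ (m * N') *
        σ (Y.chart (h.idx a)) (h.π x) ^ (m * N) := by
  classical
  choose a₀ ha₀ using h.cover
  have hind : ∀ a a', ∀ ψ ∈ atlas (Fin k → ℂ) X, ∀ x ∈ h.W a ∩ h.W a' ∩ ψ.source,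
      τ a ψ x ^ (N * N') * s (h.idx a) (h.π x) ^ (m * N') *
        σ (Y.chart (h.idx a)) (h.π x) ^ (m * N) =
      τ a' ψ x ^ (N * N') * s (h.idx a') (h.π x) ^ (m * N') *
        σ (Y.chart (h.idx a')) (h.π x) ^ (m * N) := by
    intro a a' ψ hψ x hx
    have hU : h.π x ∈ Y.U (h.idx a) := h.mem a x hx.1.1
    have hU' : h.π x ∈ Y.U (h.idx a') := h.mem a' x hx.1.2
    have h1 := hτ.trans a a' ψ hψ x hx
    have h2 := hs.eq (h.idx a) (h.idx a') (h.π x) ⟨hU, hU'⟩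
    have h3 := hσ.eq _ (Y.mem_atlas (h.idx a)) _ (Y.mem_atlas (h.idx a')) (h.π x) ⟨hU, hU'⟩
    rw [h1, ← h2, ← h3, mul_pow, mul_pow, mul_pow, mul_pow, ← pow_mul, mul_pow, ← pow_mul,
      ← pow_mul, ← pow_mul]
    ring
  refine ⟨fun ψ x => τ (a₀ x) ψ x ^ (N * N') * s (h.idx (a₀ x)) (h.π x) ^ (m * N') *
        σ (Y.chart (h.idx (a₀ x))) (h.π x) ^ (m * N), ⟨?_, ?_⟩, ?_⟩
  · intro ψ hψ x hx
    have hopen : IsOpen (h.W (a₀ x) ∩ ψ.source) := (h.isOpen _).inter ψ.open_source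
    have hloc : (fun x' => τ (a₀ x') ψ x' ^ (N * N') * s (h.idx (a₀ x')) (h.π x') ^ (m * N') *
        σ (Y.chart (h.idx (a₀ x'))) (h.π x') ^ (m * N)) =ᶠ[𝓝 x]
        fun x' => τ (a₀ x) ψ x' ^ (N * N') * s (h.idx (a₀ x)) (h.π x') ^ (m * N') *
        σ (Y.chart (h.idx (a₀ x))) (h.π x') ^ (m * N) := by
      filter_upwards [hopen.mem_nhds ⟨ha₀ x, hx⟩] with x' hx'
      exact hind _ _ ψ hψ x' ⟨⟨ha₀ x', hx'.1⟩, hx'.2⟩
    have hmem : ∀ p ∈ h.W (a₀ x) ∩ ψ.source, h.π p ∈ (Y.chart (h.idx (a₀ x))).source :=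
      fun p hp => h.mem _ p hp.1
    have h1 : Holo (n := k) (h.W (a₀ x) ∩ ψ.source) (τ (a₀ x) ψ) := hτ.holo _ ψ hψ
    have h2 : Holo (n := k) (h.W (a₀ x) ∩ ψ.source) fun p => s (h.idx (a₀ x)) (h.π p) :=
      Holo.comp_π (hs.holo _) hmem
    have h3 : Holo (n := k) (h.W (a₀ x) ∩ ψ.source)
        fun p => σ (Y.chart (h.idx (a₀ x))) (h.π p) :=
      Holo.comp_π (hσ.holo _ (Y.mem_atlas _)) hmem
    have h4 := ((h1.pow (N * N')).mul (h2.pow (m * N'))).mul (h3.pow (m * N))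
    have h5 := h4.mdifferentiableAt (hopen.mem_nhds ⟨ha₀ x, hx⟩)
    exact (h5.congr_of_eventuallyEq hloc).mdifferentiableWithinAt
  · intro ψ hψ ψ' hψ' x hx
    have h1 := hτ.chart (a₀ x) ψ hψ ψ' hψ' x ⟨ha₀ x, hx⟩
    show _ * jac ψ ψ' x ^ (m * N * N') = _
    rw [← h1, mul_pow, ← pow_mul]
    ring
  · intro a ψ hψ x hx
    exact hind _ _ ψ hψ x ⟨⟨ha₀ x, hx.1⟩, hx.2⟩

/-- If `λ ^ N` and `K_B ^ N'` are globally generated and `K_X ^ m` is the inverse image of `K_A ^ m`,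
then `K_X ^ (m N N')` is globally generated. -/
theorem isGloballyGenerated {m : ℕ} {τ : κ → OpenPartialHomeomorph X (Fin k → ℂ) → X → ℂ}
    (hτ : h.IsIso m τ) {N N' : ℕ}
    (hN : ∀ p, ∃ s, Y.IsSection N s ∧ ∀ i, p ∈ Y.U i → s i p ≠ 0)
    (hN' : ∀ p, ∃ σ, IsCanonicalForm n B N' σ ∧ ∀ i, p ∈ Y.U i → σ (Y.chart i) p ≠ 0) :
    IsGloballyGenerated k X (m * N * N') := by
  intro x
  obtain ⟨a, ha⟩ := h.cover x
  obtain ⟨s, hs, hne⟩ := hN (h.π x)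
  obtain ⟨σ, hσ, hneσ⟩ := hN' (h.π x)
  obtain ⟨F, hF, hF2⟩ := exists_canonical hτ hs hσ
  refine ⟨F, hF, ?_⟩
  have hmem : x ∈ h.W a ∩ (chartAt (Fin k → ℂ) x).source := ⟨ha, mem_chart_source _ _⟩
  rw [hF2 a _ (chart_mem_atlas _ _) x hmem]
  exact mul_ne_zero (mul_ne_zero (pow_ne_zero _ (hτ.ne_zero a _ (chart_mem_atlas _ _) x hmem))
    (pow_ne_zero _ (hne _ (h.mem a x ha)))) (pow_ne_zero _ (hneσ _ (h.mem a x ha)))

end total

end H18.TF
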