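import Pool.Agent.H18.TF.Lagr

/-!
# Rational approximations of real polarizations
-/

set_option autoImplicit false

namespace H18.TF

open Matrix Set Filter Topology Module Polynomial
open scoped ComplexOrder

/-- Finitely many real numbers can be approximated by rational numbers through a `ℚ`-linear map. -/
theorem exists_rat_linear {ι : Type*} [Finite ι] (x : ι → ℝ) {ε : ℝ} (hε : 0 < ε) :
    ∃ φ : ℝ →ₗ[ℚ] ℚ, ∀ i, |(φ (x i) : ℝ) - x i| ≤ ε := by
  have := Fintype.ofFinite ι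
  set U := Submodule.span ℚ (Set.range x) with hU
  have : FiniteDimensional ℚ U := FiniteDimensional.span_of_finite ℚ (Set.finite_range x)
  set b := Module.finBasis ℚ U with hb
  have hx : ∀ i, x i ∈ U := fun i => Submodule.subset_span ⟨i, rfl⟩
  set C : ℝ := 1 + ∑ i, ∑ j, |((b.repr ⟨x i, hx i⟩ j : ℚ) : ℝ)| with hC
  have hC0 : 0 < C := by positivity
  have hr : ∀ j, ∃ r : ℚ, |(r : ℝ) - (b j : ℝ)| ≤ ε / C := by
    intro j
    obtain ⟨r, hr1, hr2⟩ := exists_rat_btwn (show (b j : ℝ) < (b j : ℝ) + ε / C by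
      have : 0 < ε / C := by positivity
      linarith)
    refine ⟨r, ?_⟩
    rw [abs_le]
    constructor <;> [skip; linarith]
    have : 0 < ε / C := by positivity
    linarith
  choose r hr using hr
  obtain ⟨φ, hφ⟩ := (b.constr ℚ r).exists_extend
  refine ⟨φ, fun i => ?_⟩
  have h1 : φ (x i) = ∑ j, b.repr ⟨x i, hx i⟩ j * r j := by
    have h2 : φ (x i) = b.constr ℚ r ⟨x i, hx i⟩ := by
      rw [← hφ]; rfl
    rw [h2, Basis.constr_apply_fintype]
    simp
  have h3 : x i = ∑ j, ((b.repr ⟨x i, hx i⟩ j : ℚ) : ℝ) * (b j : ℝ) := by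
    have h4 := b.sum_repr ⟨x i, hx i⟩
    have h5 := congrArg (Subtype.val) h4
    simp only at h5
    conv_lhs => rw [← h5]
    rw [AddSubmonoidClass.coe_finsetSum]
    refine Finset.sum_congr rfl fun j _ => ?_
    rw [SetLike.val_smul, Rat.smul_def]
  have h6 : (φ (x i) : ℝ) - x i = ∑ j, ((b.repr ⟨x i, hx i⟩ j : ℚ) : ℝ) * ((r j : ℝ) - b j) := by
    have h7 : (φ (x i) : ℝ) = ∑ j, ((b.repr ⟨x i, hx i⟩ j : ℚ) : ℝ) * (r j : ℝ) := by
      rw [h1]
      push_cast
      rfl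
    have h8 : (φ (x i) : ℝ) - x i = (∑ j, ((b.repr ⟨x i, hx i⟩ j : ℚ) : ℝ) * (r j : ℝ)) -
        ∑ j, ((b.repr ⟨x i, hx i⟩ j : ℚ) : ℝ) * (b j : ℝ) := by
      rw [← h3, h7]
    rw [h8, ← Finset.sum_sub_distrib]
    refine Finset.sum_congr rfl fun j _ => ?_
    ring
  rw [h6]
  calc _ ≤ ∑ j, |((b.repr ⟨x i, hx i⟩ j : ℚ) : ℝ) * ((r j : ℝ) - b j)| :=
        Finset.abs_sum_le_sum_abs _ _
    _ ≤ ∑ j, |((b.repr ⟨x i, hx i⟩ j : ℚ) : ℝ)| * (ε / C) := by
        refine Finset.sum_le_sum fun j _ => ?_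
        rw [abs_mul]
        exact mul_le_mul_of_nonneg_left (hr j) (abs_nonneg _)
    _ = (∑ j, |((b.repr ⟨x i, hx i⟩ j : ℚ) : ℝ)|) * (ε / C) := by rw [Finset.sum_mul]
    _ ≤ C * (ε / C) := by
        refine mul_le_mul_of_nonneg_right ?_ (by positivity)
        have h7 : ∑ j, |((b.repr ⟨x i, hx i⟩ j : ℚ) : ℝ)| ≤
            ∑ i, ∑ j, |((b.repr ⟨x i, hx i⟩ j : ℚ) : ℝ)| :=
          Finset.single_le_sum (f := fun i => ∑ j, |((b.repr ⟨x i, hx i⟩ j : ℚ) : ℝ)|)
            (fun i _ => Finset.sum_nonneg fun j _ => abs_nonneg _) (Finset.mem_univ i)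
        linarith
    _ = ε := by field_simp

section sqrt

/-- An element near the identity is the square of a polynomial in this element. -/
theorem exists_sqrt' {R : Type*} [NormedRing R] [NormedAlgebra ℝ R] [CompleteSpace R]
    [FiniteDimensional ℝ R] {X : R} (hX : ‖X‖ ≤ 1 / 4) :
    ∃ q : ℝ[X], aeval (1 + X) q * aeval (1 + X) q = 1 + X := by
  obtain ⟨y, hy0, hys⟩ : ∃ y : ℕ → R, y 0 = 0 ∧ ∀ n, y (n + 1) = (1 / 2 : ℝ) • (X - y n * y n) :=
    ⟨fun n => Nat.rec 0 (fun _ z => (1 / 2 : ℝ) • (X - z * z)) n, rfl, fun n => rfl⟩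
  have hbd : ∀ n, ‖y n‖ ≤ 1 / 4 := by
    intro n
    induction n with
    | zero => rw [hy0, norm_zero]; norm_num
    | succ n ih =>
      rw [hys, norm_smul, Real.norm_eq_abs, abs_of_pos (by norm_num : (0 : ℝ) < 1 / 2)]
      have h1 : ‖X - y n * y n‖ ≤ ‖X‖ + ‖y n‖ * ‖y n‖ :=
        (norm_sub_le _ _).trans (by linarith [norm_mul_le (y n) (y n)])
      have h2 : ‖y n‖ * ‖y n‖ ≤ 1 / 4 * (1 / 4) :=
        mul_le_mul ih ih (norm_nonneg _) (by norm_num)
      linarith
  have hdist : ∀ n, dist (y n) (y (n + 1)) ≤ 1 * (1 / 4 : ℝ) ^ n := by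
    intro n
    induction n with
    | zero =>
      rw [dist_eq_norm, hy0, zero_sub, norm_neg, zero_add]
      have := hbd 1
      simp only [pow_zero, mul_one]
      linarith
    | succ n ih =>
      rw [dist_eq_norm] at ih ⊢
      have h1 : y (n + 1) - y (n + 1 + 1) =
          (1 / 2 : ℝ) • (y (n + 1) * (y (n + 1) - y n) + (y (n + 1) - y n) * y n) := by
        rw [hys (n + 1)]
        have : y (n + 1) - (1 / 2 : ℝ) • (X - y (n + 1) * y (n + 1)) =
            (1 / 2 : ℝ) • (X - y n * y n) - (1 / 2 : ℝ) • (X - y (n + 1) * y (n + 1)) := by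
          rw [← hys n]
        rw [this, ← smul_sub]
        congr 1
        rw [mul_sub, sub_mul]
        abel
      rw [h1, norm_smul, Real.norm_eq_abs, abs_of_pos (by norm_num : (0 : ℝ) < 1 / 2)]
      have h2 : ‖y (n + 1) * (y (n + 1) - y n) + (y (n + 1) - y n) * y n‖ ≤
          1 / 4 * ‖y (n + 1) - y n‖ + ‖y (n + 1) - y n‖ * (1 / 4) := by
        refine (norm_add_le _ _).trans (add_le_add ?_ ?_)
        · exact (norm_mul_le _ _).trans (mul_le_mul_of_nonneg_right (hbd _) (norm_nonneg _))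
        · exact (norm_mul_le _ _).trans (mul_le_mul_of_nonneg_left (hbd _) (norm_nonneg _))
      rw [norm_sub_rev] at ih
      rw [pow_succ]
      linarith
  have hcauchy : CauchySeq y := cauchySeq_of_le_geometric (1 / 4) 1 (by norm_num) hdist
  obtain ⟨z, hz⟩ := cauchySeq_tendsto_of_complete hcauchy
  have hzeq : z = (1 / 2 : ℝ) • (X - z * z) := by
    have h1 : Tendsto (fun n => y (n + 1)) atTop (𝓝 z) := hz.comp (tendsto_add_atTop_nat 1)
    have h2 : Tendsto (fun n => (1 / 2 : ℝ) • (X - y n * y n)) atTop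
        (𝓝 ((1 / 2 : ℝ) • (X - z * z))) :=
      (tendsto_const_nhds.sub (hz.mul hz)).const_smul _
    have h3 : (fun n => y (n + 1)) = fun n => (1 / 2 : ℝ) • (X - y n * y n) := funext hys
    rw [h3] at h1
    exact tendsto_nhds_unique h1 h2
  set 𝒜 : Submodule ℝ R := LinearMap.range (aeval (1 + X) : ℝ[X] →ₐ[ℝ] R).toLinearMap with h𝒜
  have hymem : ∀ n, ∃ q : ℝ[X], aeval (1 + X) q = y n := by
    intro n
    induction n with
    | zero => exact ⟨0, by rw [hy0, map_zero]⟩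
    | succ n ih =>
      obtain ⟨q, hq⟩ := ih
      refine ⟨C (1 / 2 : ℝ) * (Polynomial.X - 1 - q * q), ?_⟩
      rw [map_mul, map_sub, map_sub, map_mul, aeval_X, map_one, hq, aeval_C, hys,
        ← Algebra.smul_def, add_sub_cancel_left]
  have hzmem : z ∈ 𝒜 := by
    have hclosed : IsClosed (𝒜 : Set R) := Submodule.closed_of_finiteDimensional 𝒜
    refine hclosed.mem_of_tendsto hz (Filter.Eventually.of_forall fun n => ?_)
    obtain ⟨q, hq⟩ := hymem n
    exact ⟨q, hq⟩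
  obtain ⟨q, hq⟩ := hzmem
  refine ⟨1 + q, ?_⟩
  have hq' : aeval (1 + X) q = z := hq
  rw [map_add, map_one, hq']
  have h2 : (2 : ℝ) • z = X - z * z := by
    have : (2 : ℝ) • z = (2 : ℝ) • ((1 / 2 : ℝ) • (X - z * z)) := by rw [← hzeq]
    rw [this, smul_smul]
    norm_num
  have h3 : (1 + z) * (1 + z) = 1 + ((2 : ℝ) • z + z * z) := by
    rw [two_smul, mul_add, add_mul, add_mul]
    simp only [one_mul, mul_one]
    abel
  rw [h3, h2, sub_add_cancel]

attribute [local instance] Matrix.linftyOpNormedRing Matrix.linftyOpNormedAlgebra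

/-- A matrix near the identity is the square of a polynomial in this matrix. -/
theorem exists_sqrt {h : ℕ} {A : Matrix (Fin h) (Fin h) ℝ}
    (hA : ∀ i j, |A i j - (1 : Matrix (Fin h) (Fin h) ℝ) i j| ≤ 1 / (4 * (h + 1))) :
    (∃ q : ℝ[X], aeval A q * aeval A q = A) ∧ IsUnit A.det := by
  have h1 : ‖A - 1‖ ≤ 1 / 4 := by
    rw [Matrix.linfty_opNorm_def]
    have h3 : ∀ i, (∑ j, ‖(A - 1) i j‖₊ : NNReal) ≤ ⟨1 / 4, by norm_num⟩ := by
      intro i
      rw [← NNReal.coe_le_coe]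
      push_cast
      calc (∑ j, ‖(A - 1) i j‖ : ℝ) ≤ ∑ _j : Fin h, (1 / (4 * (h + 1)) : ℝ) :=
            Finset.sum_le_sum fun j _ => hA i j
        _ = h * (1 / (4 * (h + 1))) := by simp
        _ ≤ 1 / 4 := by
            rw [mul_one_div, div_le_div_iff₀ (by positivity) (by norm_num)]
            linarith
    have h4 : (Finset.univ.sup fun i => ∑ j, ‖(A - 1) i j‖₊ : NNReal) ≤ ⟨1 / 4, by norm_num⟩ :=
      Finset.sup_le fun i _ => h3 i
    exact_mod_cast h4
  constructor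
  · obtain ⟨q, hq⟩ := exists_sqrt' h1
    rw [add_sub_cancel] at hq
    exact ⟨q, hq⟩
  · rw [← Matrix.isUnit_iff_isUnit_det]
    have h2 : IsUnit (1 - (1 - A)) := isUnit_one_sub_of_norm_lt_one (by
      rw [norm_sub_rev]
      linarith)
    rwa [sub_sub_cancel] at h2

end sqrt

end H18.TF
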