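import Pool.Agent.H18.TF.Theta2

/-!
# Effective divisors on families of complex tori
-/

set_option autoImplicit false

namespace H18.TF

open Matrix Set Filter Topology
open scoped Manifold ContDiff

universe u v w x

theorem isInt_of_ee {z : ℂ} (hz : ee z = 1) : IsInt z := by
  rw [ee, Complex.exp_eq_one_iff] at hz
  obtain ⟨k, hk⟩ := hz
  refine ⟨k, ?_⟩
  have h2 : (2 * Real.pi * Complex.I : ℂ) ≠ 0 := Complex.two_pi_I_ne_zero
  rw [mul_comm (k : ℂ)] at hk
  exact mul_left_cancel₀ h2 hk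

theorem ee_sub (z w : ℂ) : ee (z - w) = ee z / ee w := by
  rw [eq_div_iff (ee_ne_zero w), ← ee_add, sub_add_cancel]

theorem factor_of {g h : ℕ} {P : Matrix (Fin g) (Fin h) ℂ} {α : Matrix (Fin h) (Fin g) ℂ}
    {β : (Fin h → ℤ) → ℂ} {F : (Fin g → ℂ) → ℂ}
    (hF : ∀ m v, F (v + P *ᵥ ic m) = ee (bil α (ic m) v + β m) * F v) (h0 : ∃ v, F v ≠ 0) :
    Factor P α β := by
  obtain ⟨v, hv⟩ := h0
  refine ⟨fun m m' => isInt_of_ee ?_⟩
  have h1 := hF (m + m') v
  have h2 := hF m (v + P *ᵥ ic m')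
  rw [hF m' v] at h2
  rw [ic_add, Matrix.mulVec_add, add_comm (P *ᵥ ic m), ← add_assoc, h2, ← mul_assoc] at h1
  have h3 := mul_right_cancel₀ hv h1
  rw [← ee_add] at h3
  have h4 : β (m + m') - β m - β m' - bil α (ic m) (P *ᵥ ic m') =
      (bil α (ic m + ic m') v + β (m + m')) -
        (bil α (ic m) (v + P *ᵥ ic m') + β m + (bil α (ic m') v + β m')) := by
    rw [bil_add_left, bil_add_right]; ring
  rw [h4, ee_sub, ← h3, div_self (ee_ne_zero _)]

theorem change_of {g h : ℕ} {P P' : Matrix (Fin g) (Fin h) ℂ} {α α' : Matrix (Fin h) (Fin g) ℂ}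
    {β β' : (Fin h → ℤ) → ℂ} {A : Matrix (Fin g) (Fin g) ℂ} {c : Fin g → ℂ}
    {γ : Matrix (Fin h) (Fin h) ℤ} {S : Matrix (Fin g) (Fin g) ℂ} {r : Fin g → ℂ} {q : ℂ}
    {F F' : (Fin g → ℂ) → ℂ} (hS : Sᵀ = S)
    (hlat : A * P' = P * γ.map (Int.castRingHom ℂ))
    (hF : ∀ m v, F (v + P *ᵥ ic m) = ee (bil α (ic m) v + β m) * F v)
    (hF' : ∀ m v, F' (v + P' *ᵥ ic m) = ee (bil α' (ic m) v + β' m) * F' v)
    (hFF : ∀ v, F (A *ᵥ v + c) = ee (quad S r q v) * F' v) (h0 : ∃ v, F' v ≠ 0)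
    (hcont : Continuous F') :
    Change P P' α α' β β' A c γ S r q := by
  refine ⟨hlat, hS, fun m => ?_⟩
  set Dm : (Fin g → ℂ) → ℂ := fun v => quad S r q (v + P' *ᵥ ic m) + (bil α' (ic m) v + β' m) -
    (bil α (ic (γ *ᵥ m)) (A *ᵥ v + c) + β (γ *ᵥ m) + quad S r q v) with hDm
  have hPm : A *ᵥ (P' *ᵥ ic m) = P *ᵥ ic (γ *ᵥ m) := by
    rw [Matrix.mulVec_mulVec, hlat, ic_mulVec, Matrix.mulVec_mulVec]
  have hint : ∀ v, F' v ≠ 0 → IsInt (Dm v) := by
    intro v hv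
    refine isInt_of_ee ?_
    have h1 : F (A *ᵥ (v + P' *ᵥ ic m) + c) =
        ee (quad S r q (v + P' *ᵥ ic m)) * (ee (bil α' (ic m) v + β' m) * F' v) := by
      rw [hFF, hF']
    have h2 : A *ᵥ (v + P' *ᵥ ic m) + c = (A *ᵥ v + c) + P *ᵥ ic (γ *ᵥ m) := by
      rw [Matrix.mulVec_add, hPm]; abel
    rw [h2, hF, hFF, ← mul_assoc, ← mul_assoc] at h1
    have h3 := mul_right_cancel₀ hv h1
    rw [← ee_add, ← ee_add] at h3
    rw [hDm]
    simp only
    rw [ee_sub, ← h3, div_self (ee_ne_zero _)]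
  obtain ⟨v₀, hv₀⟩ := h0
  set Λ : (Fin g → ℂ) → ℂ := fun w => w ⬝ᵥ (S *ᵥ (P' *ᵥ ic m)) + bil α' (ic m) w -
    bil α (ic (γ *ᵥ m)) (A *ᵥ w) with hΛ
  have hadd : ∀ v w, Dm (v + w) = Dm v + Λ w := by
    intro v w
    have h1 : v + w + P' *ᵥ ic m = (v + w) + P' *ᵥ ic m := rfl
    simp only [hDm, hΛ]
    rw [quad_add hS (v := v + w), quad_add hS (v := v) (w := P' *ᵥ ic m)]
    simp only [add_dotProduct, Matrix.mulVec_add, bil_add_right]
    ring
  have hΛ0 : ∀ w, Λ w = 0 := by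
    intro w
    have hsm : ∀ t : ℝ, Λ ((t : ℂ) • w) = t * Λ w := by
      intro t
      simp only [hΛ, smul_dotProduct, bil_smul_right, Matrix.mulVec_smul, smul_eq_mul]
      ring
    have hc1 : Continuous fun t : ℝ => F' (v₀ + (t : ℂ) • w) := by fun_prop
    have hc2 : Continuous fun t : ℝ => ‖(t : ℂ) * Λ w‖ := by fun_prop
    have he1 : ∀ᶠ t : ℝ in 𝓝 0, F' (v₀ + (t : ℂ) • w) ≠ 0 := by
      apply hc1.continuousAt.eventually_ne
      simpa using hv₀
    have he2 : ∀ᶠ t : ℝ in 𝓝 0, ‖(t : ℂ) * Λ w‖ < 1 := by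
      apply hc2.continuousAt.eventually_lt continuousAt_const
      simp
    have he3 : ∀ᶠ t : ℝ in 𝓝[≠] 0, t ≠ 0 := eventually_mem_nhdsWithin
    obtain ⟨t, ⟨ht1, ht2⟩, ht0⟩ := (((he1.and he2).filter_mono nhdsWithin_le_nhds).and he3).exists
    obtain ⟨a, ha⟩ := hint v₀ hv₀
    obtain ⟨b, hb⟩ := hint _ ht1
    rw [hadd, hsm, ha] at hb
    have h5 : (t : ℂ) * Λ w = ((b - a : ℤ) : ℂ) := by push_cast; linear_combination hb
    rw [h5, Complex.norm_intCast] at ht2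
    have h6 : b - a = 0 := by
      have : |(b - a : ℤ)| < 1 := by exact_mod_cast ht2
      exact Int.abs_lt_one_iff.1 this
    rw [h6, Int.cast_zero] at h5
    rcases mul_eq_zero.1 h5 with h7 | h7
    · exact absurd (by exact_mod_cast h7) ht0
    · exact h7
  obtain ⟨z, hz⟩ := hint v₀ hv₀
  refine ⟨z, fun v => ?_⟩
  have h8 := hadd v₀ (v - v₀)
  rw [add_sub_cancel, hΛ0, add_zero, hz] at h8
  simp only [hDm] at h8
  linear_combination h8

/-- If the periods form a basis of the real vector space `ℂ ^ g`, then the rational points of the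
torus are dense: a nonzero theta function has at each point a translate by a rational point which
does not vanish. -/
theorem exists_translate {g : ℕ} {P : Matrix (Fin g) (Fin (2 * g)) ℂ}
    (hP : ∀ x : Fin (2 * g) → ℝ, (P *ᵥ fun l => (x l : ℂ)) = 0 → x = 0)
    {F : (Fin g → ℂ) → ℂ} (hF : Continuous F) (h0 : ∃ v, F v ≠ 0) (v : Fin g → ℂ) :
    ∃ d : ℕ, d ≠ 0 ∧ ∃ t : Fin (2 * g) → ℤ, F (v + P *ᵥ ((1 / d : ℂ) • ic t)) ≠ 0 := by
  obtain ⟨v₀, hv₀⟩ := h0
  let L : (Fin (2 * g) → ℝ) →ₗ[ℝ] (Fin g → ℂ) :=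
    { toFun := fun x => P *ᵥ fun l => (x l : ℂ)
      map_add' := fun x y => by
        rw [← Matrix.mulVec_add]
        congr 1
        funext l
        simp
      map_smul' := fun c x => by
        show P *ᵥ _ = c • (P *ᵥ _)
        rw [← Matrix.mulVec_smul]
        congr 1
        funext l
        simp }
  have hinj : Function.Injective L := by
    rw [← LinearMap.ker_eq_bot, LinearMap.ker_eq_bot']
    exact fun x hx => hP x hx
  have hdim : Module.finrank ℝ (Fin (2 * g) → ℝ) = Module.finrank ℝ (Fin g → ℂ) := by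
    rw [Module.finrank_fin_fun, Module.finrank_pi_fintype]
    simp [Complex.finrank_real_complex, mul_comm]
  have hsurj : Function.Surjective L :=
    (LinearMap.injective_iff_surjective_of_finrank_eq_finrank hdim).1 hinj
  obtain ⟨x, hx⟩ := hsurj (v₀ - v)
  have hcont : Continuous fun y : Fin (2 * g) → ℝ => F (v + P *ᵥ fun l => (y l : ℂ)) := by
    refine hF.comp (continuous_const.add ?_)
    exact Continuous.matrix_mulVec continuous_const
      (continuous_pi fun l => Complex.continuous_ofReal.comp (continuous_apply l))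
  have hx0 : F (v + P *ᵥ fun l => (x l : ℂ)) ≠ 0 := by
    have : (P *ᵥ fun l => (x l : ℂ)) = v₀ - v := hx
    rw [this, add_sub_cancel]
    exact hv₀
  have hev : ∀ᶠ y in 𝓝 x, F (v + P *ᵥ fun l => (y l : ℂ)) ≠ 0 :=
    hcont.continuousAt.eventually_ne hx0
  have hdense : DenseRange fun (z : Fin (2 * g) → ℚ) (l : Fin (2 * g)) => (z l : ℝ) := by
    have := DenseRange.piMap (fun _ : Fin (2 * g) => Rat.denseRange_cast (𝕜 := ℝ))
    exact this
  obtain ⟨z, hz⟩ := hdense.exists_mem_open isOpen_interior ⟨x, mem_interior_iff_mem_nhds.2 hev⟩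
  have hz' : F (v + P *ᵥ fun l => (((z l : ℚ) : ℝ) : ℂ)) ≠ 0 := interior_subset hz
  refine ⟨∏ l, (z l).den, Finset.prod_ne_zero_iff.2 fun l _ => (z l).den_nz,
    fun l => (z l).num * ∏ k ∈ Finset.univ.erase l, ((z k).den : ℤ), ?_⟩
  convert hz' using 4
  funext l
  have hden : ((z l).den : ℂ) ≠ 0 := by exact_mod_cast (z l).den_nz
  have hprod : (∏ k ∈ Finset.univ.erase l, ((z k).den : ℂ)) ≠ 0 :=
    Finset.prod_ne_zero_iff.2 fun k _ => by exact_mod_cast (z k).den_nz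
  have hsplit : (∏ k, ((z k).den : ℂ)) = (z l).den * ∏ k ∈ Finset.univ.erase l, ((z k).den : ℂ) :=
    (Finset.mul_prod_erase _ _ (Finset.mem_univ l)).symm
  simp only [Pi.smul_apply, ic, smul_eq_mul]
  push_cast
  rw [hsplit]
  have h9 : ((z l : ℚ) : ℂ) = (z l).num / (z l).den := by
    exact_mod_cast congrArg (fun q : ℚ => (q : ℂ)) (Rat.num_div_den (z l)).symm
  rw [h9]
  field_simp

end H18.TF
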