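import Pool.Agent.H18.TF.Div

/-!
# Effective divisors on the total space of a family of complex tori
-/

set_option autoImplicit false

namespace H18.TF

open Matrix Set Filter Topology
open scoped Manifold ContDiff

universe u v w x

variable {n : ℕ} {B : Type u} [TopologicalSpace B] [ChartedSpace (Fin n → ℂ) B]
  {g : ℕ} {ι : Type v}

section mdiff

variable {E : Type*} [NormedAddCommGroup E] [NormedSpace ℂ E] {H : Type*} [TopologicalSpace H]
  {I : ModelWithCorners ℂ E H} {M : Type*} [TopologicalSpace M] [ChartedSpace H M]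

theorem mdifferentiableAt_pi' {ι : Type*} [Fintype ι] {F : Type*} [NormedAddCommGroup F]
    [NormedSpace ℂ F] {f : M → ι → F} {p : M}
    (hf : ∀ i, MDifferentiableAt I 𝓘(ℂ, F) (fun q => f q i) p) :
    MDifferentiableAt I 𝓘(ℂ, ι → F) f p := by
  rw [mdifferentiableAt_iff]
  refine ⟨continuousAt_pi.2 fun i => (hf i).continuousAt, ?_⟩
  have h1 : ∀ i, DifferentiableWithinAt ℂ
      (writtenInExtChartAt I 𝓘(ℂ, F) p fun q => f q i)
      (Set.range I) (extChartAt I p p) :=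
    fun i => ((mdifferentiableAt_iff _ _).1 (hf i)).2
  exact differentiableWithinAt_pi.2 h1

end mdiff

section

variable {Y : TorusBundle n B g ι}

theorem TorusBundle.HoloTotal.at {F : ι → B → (Fin g → ℂ) → ℂ} (hF : Y.HoloTotal F) {i : ι} {p : B}
    (hp : p ∈ Y.U i) (v : Fin g → ℂ) :
    MDifferentiableAt (𝓘(ℂ, Fin n → ℂ).prod 𝓘(ℂ, Fin g → ℂ)) 𝓘(ℂ)
      (fun z : B × (Fin g → ℂ) => F i z.1 z.2) (p, v) := by
  refine (hF i).mdifferentiableAt ?_
  exact (TorusBundle.isOpen_U i).prod isOpen_univ |>.mem_nhds ⟨hp, Set.mem_univ v⟩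

theorem TorusBundle.HoloTotal.continuous {F : ι → B → (Fin g → ℂ) → ℂ} (hF : Y.HoloTotal F) {i : ι}
    {p : B} (hp : p ∈ Y.U i) : Continuous (F i p) := by
  rw [continuous_iff_continuousAt]
  intro v
  exact (hF.at hp v).continuousAt.comp (f := fun v : Fin g → ℂ => (p, v))
    (Continuous.prodMk_right p).continuousAt

namespace TorusBundle.Divisor

variable (D : Y.Divisor)

theorem factor {i : ι} {p : B} (hp : p ∈ Y.U i) : Factor (Y.P i p) (D.α i p) (D.β i p) :=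
  factor_of (D.period i p hp) (D.exists_ne_zero i p hp)

theorem chg {i j : ι} {p : B} (hp : p ∈ Y.U i ∩ Y.U j) :
    Change (Y.P i p) (Y.P j p) (D.α i p) (D.α j p) (D.β i p) (D.β j p) (Y.A i j p) (Y.c i j p)
      (Y.γ i j p) (D.S i j p) (D.r i j p) (D.q i j p) :=
  change_of (D.symm i j p hp) (Y.A_mul_P i j p hp) (D.period i p hp.1) (D.period j p hp.2)
    (D.change i j p hp) (D.exists_ne_zero j p hp.2) (D.holo_F.continuous hp.2)

/-- The normalized translate as a function of the data. -/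
noncomputable def expo (x : Fin (2 * g) → ℂ)
    (z : ((Fin g → Fin (2 * g) → ℂ) × (Fin (2 * g) → Fin g → ℂ)) × ((Fin (2 * g) → ℂ) × (Fin g → ℂ))) :
    ℂ :=
  ee (-(1 / 2) * (∑ l, x l * ∑ a, z.1.2 l a * ∑ k, z.1.1 a k * x k) -
    (1 / 2) * (∑ l, x l * (2 * z.2.1 l - ∑ a, z.1.2 l a * z.1.1 a l)) -
    ∑ l, x l * ∑ a, z.1.2 l a * z.2.2 a)

theorem expo_differentiable (x : Fin (2 * g) → ℂ) : Differentiable ℂ (expo (g := g) x) := by
  unfold expo ee
  fun_prop

theorem tr_eq_expo (P : Matrix (Fin g) (Fin (2 * g)) ℂ) (α : Matrix (Fin (2 * g)) (Fin g) ℂ)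
    (β : (Fin (2 * g) → ℤ) → ℂ) (F : (Fin g → ℂ) → ℂ) (x : Fin (2 * g) → ℂ) (v : Fin g → ℂ) :
    tr P α β F x v = expo x ((P, α), (fun l => β (Pi.single l 1), v)) * F (v + P *ᵥ x) := by
  have h1 : ∀ k : Fin (2 * g), ic (Pi.single k 1 : Fin (2 * g) → ℤ) = Pi.single k 1 := by
    intro k
    funext l
    by_cases hl : l = k
    · subst hl; simp [ic]
    · simp [ic, hl]
  have h2 : ∀ l, Factor.ell P α β l = 2 * β (Pi.single l 1) - ∑ a, α l a * P a l := by
    intro l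
    have h3 : α *ᵥ (P *ᵥ (Pi.single l 1 : Fin (2 * g) → ℂ)) = fun b => ∑ a, α b a * P a l := by
      funext b
      rw [Matrix.mulVec_single_one]
      rfl
    rw [Factor.ell, h1, bil, h3, single_one_dotProduct]
  have h4 : Factor.ell P α β = fun l => 2 * β (Pi.single l 1) - ∑ a, α l a * P a l := funext h2
  rw [tr, expo, h4]
  rfl

theorem holo_tr (i : ι) {p : B} (hp : p ∈ Y.U i) (v : Fin g → ℂ) (x : Fin (2 * g) → ℂ) :
    MDifferentiableAt (𝓘(ℂ, Fin n → ℂ).prod 𝓘(ℂ, Fin g → ℂ)) 𝓘(ℂ)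
      (fun z : B × (Fin g → ℂ) =>
        tr (Y.P i z.1) (D.α i z.1) (D.β i z.1) (D.F i z.1) x z.2) (p, v) := by
  have hfst : MDifferentiableAt (𝓘(ℂ, Fin n → ℂ).prod 𝓘(ℂ, Fin g → ℂ)) 𝓘(ℂ, Fin n → ℂ)
      (fun z : B × (Fin g → ℂ) => z.1) (p, v) := mdifferentiableAt_fst
  have hsnd : MDifferentiableAt (𝓘(ℂ, Fin n → ℂ).prod 𝓘(ℂ, Fin g → ℂ)) 𝓘(ℂ, Fin g → ℂ)
      (fun z : B × (Fin g → ℂ) => z.2) (p, v) := mdifferentiableAt_snd
  have hU : Y.U i ∈ 𝓝 p := (TorusBundle.isOpen_U i).mem_nhds hp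
  have hP : MDifferentiableAt (𝓘(ℂ, Fin n → ℂ).prod 𝓘(ℂ, Fin g → ℂ))
      𝓘(ℂ, Fin g → Fin (2 * g) → ℂ)
      (fun (z : B × (Fin g → ℂ)) (a : Fin g) (l : Fin (2 * g)) => Y.P i z.1 a l) (p, v) :=
    mdifferentiableAt_pi' fun a => mdifferentiableAt_pi' fun l =>
      ((Y.holo_P i a l).mdifferentiableAt hU).comp (p, v) hfst
  have hα : MDifferentiableAt (𝓘(ℂ, Fin n → ℂ).prod 𝓘(ℂ, Fin g → ℂ))
      𝓘(ℂ, Fin (2 * g) → Fin g → ℂ)
      (fun (z : B × (Fin g → ℂ)) (a : Fin (2 * g)) (l : Fin g) => D.α i z.1 a l) (p, v) :=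
    mdifferentiableAt_pi' fun a => mdifferentiableAt_pi' fun l =>
      ((D.holo_α i a l).mdifferentiableAt hU).comp (p, v) hfst
  have hβ : MDifferentiableAt (𝓘(ℂ, Fin n → ℂ).prod 𝓘(ℂ, Fin g → ℂ))
      𝓘(ℂ, Fin (2 * g) → ℂ)
      (fun z : B × (Fin g → ℂ) => fun l => D.β i z.1 (Pi.single l 1)) (p, v) :=
    mdifferentiableAt_pi' fun l =>
      ((D.holo_β i (Pi.single l 1)).mdifferentiableAt hU).comp (p, v) hfst
  have hall := (hP.prodMk_space hα).prodMk_space (hβ.prodMk_space hsnd)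
  have h1 := ((expo_differentiable (g := g) x).mdifferentiable _).comp (p, v) hall
  have hv : MDifferentiableAt (𝓘(ℂ, Fin n → ℂ).prod 𝓘(ℂ, Fin g → ℂ)) 𝓘(ℂ, Fin g → ℂ)
      (fun z : B × (Fin g → ℂ) => z.2 + Y.P i z.1 *ᵥ x) (p, v) := by
    have h2 : Differentiable ℂ (fun z : (Fin g → Fin (2 * g) → ℂ) × (Fin g → ℂ) =>
        fun a => z.2 a + ∑ l, z.1 a l * x l) := by
      fun_prop
    have h3 := (h2.mdifferentiable _).comp (p, v) (hP.prodMk_space hsnd)
    exact h3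
  have h4 := (D.holo_F.at hp (v + Y.P i p *ᵥ x)).comp (p, v)
    (f := fun z : B × (Fin g → ℂ) => (z.1, z.2 + Y.P i z.1 *ᵥ x)) (hfst.prodMk hv)
  have h5 := h1.mul h4
  refine h5.congr_of_eventuallyEq (Eventually.of_forall fun z => ?_)
  exact tr_eq_expo _ _ _ _ _ _

theorem holo_psum (d : ℕ) [NeZero d] (K : ℕ) : Y.HoloTotal fun i p v =>
    psum (Y.P i p) (D.α i p) (D.β i p) (D.F i p) d K v := by
  rintro i ⟨p, v⟩ ⟨hp, -⟩
  refine MDifferentiableAt.mdifferentiableWithinAt ?_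
  have h1 : ∀ s : Finset (Fin (2 * g) → ZMod d),
      MDifferentiableAt (𝓘(ℂ, Fin n → ℂ).prod 𝓘(ℂ, Fin g → ℂ)) 𝓘(ℂ)
      (fun z : B × (Fin g → ℂ) => ∑ t ∈ s,
        T (Y.P i z.1) (D.α i z.1) (D.β i z.1) (D.F i z.1) d (rep t) z.2 ^ K) (p, v) := by
    classical
    intro s
    induction s using Finset.induction_on with
    | empty =>
      simp only [Finset.sum_empty]
      exact mdifferentiableAt_const
    | insert t s ht ih =>
      simp only [Finset.sum_insert ht]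
      refine MDifferentiableAt.add ?_ ih
      have h2 := ((D.holo_tr i hp v ((1 / d : ℂ) • ic (rep t))).pow (2 * d)).pow K
      exact h2
  exact h1 Finset.univ

/-- The power sums are sections. -/
theorem isSection_psum (d : ℕ) [NeZero d] (K : ℕ) : D.IsSection (2 * d * K) fun i p v =>
    psum (Y.P i p) (D.α i p) (D.β i p) (D.F i p) d K v where
  holo := D.holo_psum d K
  period i p hp m v := psum_add_period (D.factor hp) (D.period i p hp) K m v
  change i j p hp v := psum_change (Y.det_γ i j p hp) (D.chg hp) (D.factor hp.1) (D.factor hp.2)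
    (D.period i p hp.1) (D.change i j p hp) K v

/-- At each point there is a section of a power of `O(D)` which does not vanish. -/
theorem exists_isSection {i : ι} {p : B} (hp : p ∈ Y.U i) (v : Fin g → ℂ) :
    ∃ N, 1 ≤ N ∧ ∃ G, D.IsSection N G ∧ G i p v ≠ 0 := by
  obtain ⟨d, hd, t, ht⟩ := exists_translate (Y.lattice i p hp) (D.holo_F.continuous hp)
    (D.exists_ne_zero i p hp) v
  have : NeZero d := ⟨hd⟩
  have h1 : T (Y.P i p) (D.α i p) (D.β i p) (D.F i p) d t v ≠ 0 := by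
    rw [T, tr]
    exact pow_ne_zero _ (mul_ne_zero (ee_ne_zero _) ht)
  have h2 : T (Y.P i p) (D.α i p) (D.β i p) (D.F i p) d (rep fun k => (t k : ZMod d)) v ≠ 0 := by
    rwa [T_congr (D.factor hp) hd (D.period i p hp) (t' := t) (fun k => cast_rep _ _)]
  obtain ⟨K, hK, hne⟩ := exists_psum_ne_zero
    (fun t : Fin (2 * g) → ZMod d => T (Y.P i p) (D.α i p) (D.β i p) (D.F i p) d (rep t) v) ⟨_, h2⟩
  exact ⟨2 * d * K, Nat.mul_pos (Nat.mul_pos two_pos (Nat.pos_of_ne_zero hd)) hK, _,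
    D.isSection_psum d K, hne⟩

variable {D}

theorem IsSection.pow {N : ℕ} {G : ι → B → (Fin g → ℂ) → ℂ} (hG : D.IsSection N G) (j : ℕ) :
    D.IsSection (N * j) fun i p v => G i p v ^ j where
  holo i := by
    have := (hG.holo i).pow j
    exact this
  period i p hp m v := by rw [hG.period i p hp, mul_pow, pow_mul]
  change i j' p hp v := by rw [hG.change i j' p hp, mul_pow, pow_mul]

end TorusBundle.Divisor

end

end H18.TF
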