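import Pool.Agent.H18.TF.Defs

/-!
# Effective divisors on the total space of a family of complex tori
-/

set_option autoImplicit false

namespace H18.TF

open Matrix Topology
open scoped Manifold ContDiff

universe u v w x

/-- The function `z ↦ exp (2 π i z)`. -/
noncomputable def ee (z : ℂ) : ℂ := Complex.exp (2 * Real.pi * Complex.I * z)

/-- The complex vector with the given integral coordinates. -/
def ic {h : ℕ} (m : Fin h → ℤ) : Fin h → ℂ := fun l => (m l : ℂ)

/-- The bilinear form given by the matrix `α`. -/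
def bil {g h : ℕ} (α : Matrix (Fin h) (Fin g) ℂ) (x : Fin h → ℂ) (v : Fin g → ℂ) : ℂ :=
  x ⬝ᵥ (α *ᵥ v)

/-- A quadratic polynomial. -/
noncomputable def quad {g : ℕ} (S : Matrix (Fin g) (Fin g) ℂ) (r : Fin g → ℂ) (q : ℂ)
    (v : Fin g → ℂ) : ℂ :=
  (1 / 2) * (v ⬝ᵥ (S *ᵥ v)) + r ⬝ᵥ v + q

section

variable {n : ℕ} {B : Type u} [TopologicalSpace B] [ChartedSpace (Fin n → ℂ) B]
  {g : ℕ} {ι : Type v}

/-- The functions `F i p v` of the points `(p, v)` of `U i × ℂ^g` are holomorphic. -/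
def TorusBundle.HoloTotal (Y : TorusBundle n B g ι) (F : ι → B → (Fin g → ℂ) → ℂ) : Prop :=
  ∀ i, MDifferentiableOn (𝓘(ℂ, Fin n → ℂ).prod 𝓘(ℂ, Fin g → ℂ)) 𝓘(ℂ)
    (fun z : B × (Fin g → ℂ) => F i z.1 z.2) (Y.U i ×ˢ Set.univ)

/-- An effective divisor `D` on the total space `A` of the family `A → B` of complex tori which does not
contain a fibre: its inverse image in `U i × ℂ^g` is the divisor of zeros of the theta function `F i`.
The function `F i` is holomorphic, it does not vanish identically on a fibre `p × ℂ^g`, it is multiplied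
by `exp (2 π i (bil (α i p) m v + β i p m))` under the translation by the period `P i p m`, where
`bil (α i p) m v = m ⬝ α i p v` is linear in `v`, and over `U i ∩ U j` the functions `F i` and `F j`
differ by the factor `exp (2 π i quad v)`, where `quad v = (1 / 2) v ⬝ S v + r ⬝ v + q` is a quadratic
polynomial. (By the theorem of Appell and Humbert every effective divisor which does not contain a
fibre is of this form if the `U i` are small enough.) -/
structure TorusBundle.Divisor (Y : TorusBundle n B g ι) where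
  F : ι → B → (Fin g → ℂ) → ℂ
  α : ι → B → Matrix (Fin (2 * g)) (Fin g) ℂ
  β : ι → B → (Fin (2 * g) → ℤ) → ℂ
  S : ι → ι → B → Matrix (Fin g) (Fin g) ℂ
  r : ι → ι → B → Fin g → ℂ
  q : ι → ι → B → ℂ
  holo_F : Y.HoloTotal F
  holo_α : ∀ i l a, Holo (n := n) (Y.U i) fun p => α i p l a
  holo_β : ∀ i m, Holo (n := n) (Y.U i) fun p => β i p m
  symm : ∀ i j, ∀ p ∈ Y.U i ∩ Y.U j, (S i j p)ᵀ = S i j p
  exists_ne_zero : ∀ i, ∀ p ∈ Y.U i, ∃ v, F i p v ≠ 0
  period : ∀ i, ∀ p ∈ Y.U i, ∀ m v,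
    F i p (v + Y.P i p *ᵥ ic m) = ee (bil (α i p) (ic m) v + β i p m) * F i p v
  change : ∀ i j, ∀ p ∈ Y.U i ∩ Y.U j, ∀ v,
    F i p (Y.A i j p *ᵥ v + Y.c i j p) = ee (quad (S i j p) (r i j p) (q i j p) v) * F j p v

variable {Y : TorusBundle n B g ι}

/-- The functions `G i` define a global section of the line bundle `O(D) ^ N = O(N D)` on `A`: the
functions `G i / F i ^ N` on `U i × ℂ^g` are the inverse images of one meromorphic function on `A`. -/
structure TorusBundle.Divisor.IsSection (D : Y.Divisor) (N : ℕ)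
    (G : ι → B → (Fin g → ℂ) → ℂ) : Prop where
  holo : Y.HoloTotal G
  period : ∀ i, ∀ p ∈ Y.U i, ∀ m v,
    G i p (v + Y.P i p *ᵥ ic m) = ee (bil (D.α i p) (ic m) v + D.β i p m) ^ N * G i p v
  change : ∀ i j, ∀ p ∈ Y.U i ∩ Y.U j, ∀ v, G i p (Y.A i j p *ᵥ v + Y.c i j p) =
    ee (quad (D.S i j p) (D.r i j p) (D.q i j p) v) ^ N * G j p v

/-- The transition functions of the line bundle `O(D)` on `A`: the factor by which the value of the
theta function `F i` at the point `A i j p v + c i j p + P i p l` of `ℂ^g` and the value of the theta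
function `F j` at the corresponding point `v` differ. -/
noncomputable def TorusBundle.Divisor.trans (D : Y.Divisor) (i j : ι) (p : B)
    (l : Fin (2 * g) → ℤ) (v : Fin g → ℂ) : ℂ :=
  ee (bil (D.α i p) (ic l) (Y.A i j p *ᵥ v + Y.c i j p) + D.β i p l) *
    ee (quad (D.S i j p) (D.r i j p) (D.q i j p) v)

/-- The functions `s i` define a global section of the power `M ^ N` of the line bundle `M` on `B` which
is trivial over the open sets `U i` and has the transition functions `μ i j`. -/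
structure TorusBundle.IsSectionOf (Y : TorusBundle n B g ι) (μ : ι → ι → B → ℂ) (N : ℕ)
    (s : ι → B → ℂ) : Prop where
  holo : ∀ i, Holo (n := n) (Y.U i) (s i)
  eq : ∀ i j, ∀ p ∈ Y.U i ∩ Y.U j, s i p * μ i j p ^ N = s j p

/-- The transition functions of the line bundle `K_A ^ m`, which is the inverse image of the line bundle
`(K_B ⊗ π_* K_{A/B}) ^ m` on `B`: the `m`-canonical forms `(dz_i ∧ dv) ^ m` on `U i × ℂ^g` for different
`i`, where `z_i = chart i`, differ by these factors. -/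
noncomputable def TorusBundle.canonical (Y : TorusBundle n B g ι) (m : ℕ) (i j : ι) (p : B) : ℂ :=
  (jac (Y.chart i) (Y.chart j) p * (Y.A i j p).det) ^ m

/-- The functions `τ a ψ` define an isomorphism of the line bundles `h^* (M ⊗ O(D))` and `K_X ^ m` on
`X`, where `M` is the line bundle on `B` with the transition functions `μ i j`: it maps the local
generator of `h^* (M ⊗ O(D))` on `W a` to `τ a ψ (dψ_1 ∧ ... ∧ dψ_k) ^ m`, for all charts `ψ` of `X`. -/
structure TorusMap.IsAdjunction {k : ℕ} {X : Type w} [TopologicalSpace X]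
    [ChartedSpace (Fin k → ℂ) X] {κ : Type x} (h : TorusMap Y k X κ) (μ : ι → ι → B → ℂ)
    (D : Y.Divisor) (m : ℕ) (τ : κ → OpenPartialHomeomorph X (Fin k → ℂ) → X → ℂ) : Prop where
  holo : ∀ a, ∀ ψ ∈ atlas (Fin k → ℂ) X, Holo (n := k) (h.W a ∩ ψ.source) (τ a ψ)
  ne_zero : ∀ a, ∀ ψ ∈ atlas (Fin k → ℂ) X, ∀ p ∈ h.W a ∩ ψ.source, τ a ψ p ≠ 0
  chart : ∀ a, ∀ ψ ∈ atlas (Fin k → ℂ) X, ∀ ψ' ∈ atlas (Fin k → ℂ) X,
    ∀ p ∈ h.W a ∩ (ψ.source ∩ ψ'.source), τ a ψ p * jac ψ ψ' p ^ m = τ a ψ' p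
  trans : ∀ a a', ∀ ψ ∈ atlas (Fin k → ℂ) X, ∀ p ∈ h.W a ∩ h.W a' ∩ ψ.source,
    ∀ l : Fin (2 * g) → ℤ,
    h.v a p = Y.A (h.idx a) (h.idx a') (h.π p) *ᵥ h.v a' p + Y.c (h.idx a) (h.idx a') (h.π p) +
      Y.P (h.idx a) (h.π p) *ᵥ ic l →
    τ a ψ p * D.trans (h.idx a) (h.idx a') (h.π p) l (h.v a' p) =
      μ (h.idx a) (h.idx a') (h.π p) * τ a' ψ p

end

end H18.TF
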