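import Pool.Agent.H18.TF.Pair

/-!
# Eisenstein series over the isotropic sublattices
-/

set_option autoImplicit false

namespace H18.TF

open Matrix Set Filter Topology
open scoped ComplexOrder

variable {g h : ℕ}

/-- The multivectors of the isotropic sublattices of rank `g` of the lattice of the integral
vectors: the vectors of the minors of the integral `h × g` matrices `m` of rank `g` such that the
alternating form `Ω` vanishes on the columns of `m`. -/
def lag (g : ℕ) (Ω : Matrix (Fin h) (Fin h) ℝ) : Set ((Fin g → Fin h) → ℤ) :=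
  {P | P ≠ 0 ∧ ∃ m : Matrix (Fin h) (Fin g) ℤ,
    (m.map (Int.castRingHom ℝ))ᵀ * Ω * m.map (Int.castRingHom ℝ) = 0 ∧ P = minors m}

/-- The Eisenstein series of weight `k`. -/
noncomputable def eis (Ω : Matrix (Fin h) (Fin h) ℝ) (k : ℕ) (W : Fin g → Fin h → ℂ) : ℂ :=
  ∑' P : lag g Ω, (pair W P)⁻¹ ^ k

theorem exists_lower_bound_lag {W₀ : Fin g → Fin h → ℂ} {Ω : Matrix (Fin h) (Fin h) ℝ}
    (hW : IsPos W₀ Ω) : ∃ c : ℝ, 0 < c ∧ ∀ᶠ W in 𝓝 W₀, ∀ P ∈ lag g Ω,
      c * ‖P‖ ≤ ‖pair W P‖ := by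
  obtain ⟨c, hc, hcW⟩ := exists_lower_bound hW
  refine ⟨c, hc, hcW.mono fun W hWW P hP => ?_⟩
  obtain ⟨hP0, m, hm, rfl⟩ := hP
  have h1 : ∀ I, c * |((minors m I : ℤ) : ℝ)| ≤ ‖pair W (minors m)‖ := by
    intro I
    have := hWW (m.map (Int.castRingHom ℝ)) hm I
    rw [minors_map] at this
    have hmap : (m.map (Int.castRingHom ℝ)).map (algebraMap ℝ ℂ) = m.map (Int.castRingHom ℂ) := by
      ext a b
      simp
    rw [pair_minors, ← hmap]
    simpa using this
  have h2 : ‖minors m‖ ≤ ‖pair W (minors m)‖ / c := by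
    refine (pi_norm_le_iff_of_nonneg (by positivity)).2 fun I => ?_
    rw [le_div_iff₀ hc, mul_comm]
    exact h1 I
  rw [le_div_iff₀ hc, mul_comm] at h2
  exact h2

theorem norm_pos_of_mem_lag {Ω : Matrix (Fin h) (Fin h) ℝ} (P : lag g Ω) :
    0 < ‖(P : (Fin g → Fin h) → ℤ)‖ := norm_pos_iff.2 P.2.1

theorem summable_lag (Ω : Matrix (Fin h) (Fin h) ℝ) {k : ℕ}
    (hk : Fintype.card (Fin g → Fin h) < k) :
    Summable fun P : lag g Ω => ‖(P : (Fin g → Fin h) → ℤ)‖⁻¹ ^ k :=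
  (summable_int_vectors hk).comp_injective Subtype.val_injective

theorem differentiable_pair (P : (Fin g → Fin h) → ℤ) :
    Differentiable ℂ fun W : Fin g → Fin h → ℂ => pair W P := by
  unfold pair
  fun_prop

theorem bound_term {c : ℝ} (hc : 0 < c) {W : Fin g → Fin h → ℂ} {P : (Fin g → Fin h) → ℤ}
    (hP : 0 < ‖P‖) (h : c * ‖P‖ ≤ ‖pair W P‖) (k : ℕ) :
    ‖(pair W P)⁻¹ ^ k‖ ≤ c⁻¹ ^ k * ‖P‖⁻¹ ^ k := by
  rw [norm_pow, norm_inv, ← mul_pow, ← mul_inv]
  gcongr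

/-- The Eisenstein series is holomorphic. -/
theorem eis_differentiableAt {W₀ : Fin g → Fin h → ℂ} {Ω : Matrix (Fin h) (Fin h) ℝ}
    (hW : IsPos W₀ Ω) {k : ℕ} (hk : Fintype.card (Fin g → Fin h) < k) :
    ∀ᶠ W in 𝓝 W₀, DifferentiableAt ℂ (eis Ω k) W := by
  obtain ⟨c, hc, hcW⟩ := exists_lower_bound_lag hW
  obtain ⟨R, hR, hball⟩ := Metric.eventually_nhds_iff_ball.1 hcW
  have h1 : DifferentiableOn ℂ (eis Ω k) (Metric.ball W₀ (R / 2)) := by
    refine differentiableOn_tsum (u := fun P : lag g Ω =>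
      c⁻¹ ^ k * ‖(P : (Fin g → Fin h) → ℤ)‖⁻¹ ^ k) ((summable_lag Ω hk).mul_left _) ?_ ?_
    · intro P W hW
      have h2 : pair W P ≠ 0 := by
        have := hball W hW P P.2
        have h3 := mul_pos hc (norm_pos_of_mem_lag P)
        exact norm_pos_iff.1 (lt_of_lt_of_le h3 this)
      exact (((differentiable_pair (P : (Fin g → Fin h) → ℤ)) W).inv h2 |>.pow k).differentiableWithinAt
    · intro P W hW
      exact bound_term hc (norm_pos_of_mem_lag P) (hball W hW P P.2) k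
  filter_upwards [Metric.ball_mem_nhds W₀ (half_pos hR)] with W hW
  exact h1.differentiableAt (Metric.isOpen_ball.mem_nhds hW)

/-- The powers of finitely many complex numbers of modulus one return to one. -/
theorem exists_pow_near_one {ι : Type*} [Finite ι] (u : ι → ℂ) (hu : ∀ i, ‖u i‖ = 1) {ε : ℝ}
    (hε : 0 < ε) (K : ℕ) : ∃ k ≥ K, ∀ i, ‖u i ^ k - 1‖ < ε := by
  have := Fintype.ofFinite ι
  have hcomp : IsCompact (Metric.closedBall (0 : ι → ℂ) 1) := isCompact_closedBall _ _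
  have hmem : ∀ k : ℕ, (fun i => u i ^ k) ∈ Metric.closedBall (0 : ι → ℂ) 1 := by
    intro k
    rw [mem_closedBall_zero_iff, pi_norm_le_iff_of_nonneg zero_le_one]
    intro i
    simp [hu i]
  obtain ⟨L, -, φ, hφ, hlim⟩ := hcomp.tendsto_subseq hmem
  obtain ⟨n₀, hn₀⟩ := Metric.cauchySeq_iff.1 hlim.cauchySeq ε hε
  set n := n₀ + (φ n₀ + K) with hn
  have h1 : φ n₀ + K ≤ φ n := (by omega : φ n₀ + K ≤ n).trans (hφ.id_le n)
  refine ⟨φ n - φ n₀, by omega, fun i => ?_⟩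
  have h2 := hn₀ n (by omega) n₀ le_rfl
  have h3 : ‖u i ^ φ n - u i ^ φ n₀‖ < ε := by
    refine lt_of_le_of_lt ?_ h2
    rw [dist_eq_norm]
    exact norm_le_pi_norm ((fun i => u i ^ φ n) - fun i => u i ^ φ n₀) i
  have h4 : u i ^ φ n - u i ^ φ n₀ = u i ^ φ n₀ * (u i ^ (φ n - φ n₀) - 1) := by
    rw [mul_sub, ← pow_add, Nat.add_sub_cancel' (by omega), mul_one]
  rwa [h4, norm_mul, norm_pow, hu i, one_pow, one_mul] at h3

/-- Some Eisenstein series does not vanish at a given point. -/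
theorem exists_eis_ne_zero {W₀ : Fin g → Fin h → ℂ} {Ω : Matrix (Fin h) (Fin h) ℝ}
    (hW : IsPos W₀ Ω) (hne : (lag g Ω).Nonempty) (K : ℕ) : ∃ k ≥ K, eis Ω k W₀ ≠ 0 := by
  classical
  obtain ⟨c, hc, hcW⟩ := exists_lower_bound_lag hW
  have hlow : ∀ P : lag g Ω, c * ‖(P : (Fin g → Fin h) → ℤ)‖ ≤ ‖pair W₀ P‖ :=
    fun P => hcW.self_of_nhds P P.2
  have hpos : ∀ P : lag g Ω, 0 < ‖pair W₀ P‖ := fun P =>
    lt_of_lt_of_le (mul_pos hc (norm_pos_of_mem_lag P)) (hlow P)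
  set N := Fintype.card (Fin g → Fin h) + 1 with hN
  have hsum : Summable fun P : lag g Ω => ‖(pair W₀ P)⁻¹ ^ N‖ :=
    Summable.of_nonneg_of_le (fun _ => norm_nonneg _)
      (fun P => bound_term hc (norm_pos_of_mem_lag P) (hlow P) N)
      ((summable_lag Ω (Nat.lt_succ_self _)).mul_left _)
  -- the minimum of the moduli
  obtain ⟨Q, hQ⟩ : ∃ Q : lag g Ω, ∀ P : lag g Ω, ‖pair W₀ Q‖ ≤ ‖pair W₀ P‖ := by
    obtain ⟨P₁⟩ : Nonempty (lag g Ω) := hne.to_subtype
    have hfin : {P : lag g Ω | ‖pair W₀ P‖ ≤ ‖pair W₀ P₁‖}.Finite := by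
      have h1 := hsum.tendsto_cofinite_zero
      have h2 : ∀ᶠ P in cofinite, ‖(pair W₀ (P : lag g Ω))⁻¹ ^ N‖ < ‖(pair W₀ P₁)⁻¹ ^ N‖ := by
        refine h1.eventually (gt_mem_nhds ?_)
        rw [norm_pow, norm_inv]
        exact pow_pos (inv_pos.2 (hpos P₁)) N
      refine Set.Finite.subset h2 fun P hP => ?_
      rw [Set.mem_compl_iff]
      intro hlt
      have hlt' : ‖(pair W₀ P)⁻¹ ^ N‖ < ‖(pair W₀ P₁)⁻¹ ^ N‖ := hlt
      rw [norm_pow, norm_inv, norm_pow, norm_inv] at hlt'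
      have h3 : ‖pair W₀ P₁‖⁻¹ ≤ ‖pair W₀ P‖⁻¹ := inv_anti₀ (hpos P) hP
      exact absurd (pow_le_pow_left₀ (inv_nonneg.2 (norm_nonneg _)) h3 N) (not_le.2 hlt')
    obtain ⟨Q, hQ1, hQ2⟩ := hfin.exists_minimalFor (fun P : lag g Ω => ‖pair W₀ P‖) _
      ⟨P₁, le_refl ‖pair W₀ P₁‖⟩
    refine ⟨Q, fun P => ?_⟩
    by_cases hP : ‖pair W₀ P‖ ≤ ‖pair W₀ P₁‖
    · by_contra hlt
      exact hlt (hQ2 hP (not_le.1 hlt).le)
    · exact le_trans hQ1 (not_le.1 hP).le
  set r := ‖pair W₀ Q‖ with hr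
  have hr0 : 0 < r := hpos Q
  set u : lag g Ω → ℂ := fun P => (r : ℂ) * (pair W₀ P)⁻¹ with hu
  have hu1 : ∀ P, ‖u P‖ ≤ 1 := by
    intro P
    rw [hu]
    simp only [norm_mul, norm_inv, Complex.norm_real, Real.norm_eq_abs, abs_of_pos hr0]
    rw [← div_eq_mul_inv, div_le_one (hpos P)]
    exact hQ P
  have hsumN : Summable fun P => ‖u P ^ N‖ := by
    have : (fun P => ‖u P ^ N‖) = fun P => r ^ N * ‖(pair W₀ (P : lag g Ω))⁻¹ ^ N‖ := by
      funext P
      rw [hu]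
      simp only [mul_pow, norm_mul, norm_pow, Complex.norm_real, Real.norm_eq_abs, abs_of_pos hr0]
    rw [this]
    exact hsum.mul_left _
  set M : Set (lag g Ω) := {P | ‖u P‖ = 1} with hM
  have hMfin : M.Finite := by
    have h2 : ∀ᶠ P in cofinite, ‖u P ^ N‖ < 1 :=
      hsumN.tendsto_cofinite_zero.eventually (gt_mem_nhds one_pos)
    refine Set.Finite.subset h2 fun P hP => ?_
    rw [Set.mem_compl_iff]
    intro hlt
    have hlt' : ‖u P ^ N‖ < 1 := hlt
    rw [norm_pow, (show ‖u P‖ = 1 from hP), one_pow] at hlt'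
    exact lt_irrefl _ hlt'
  -- the part outside `M` is small
  have hsmall : Tendsto (fun k : ℕ => ∑' P : lag g Ω, if P ∈ M then (0 : ℂ) else u P ^ k) atTop
      (𝓝 0) := by
    have := tendsto_tsum_of_dominated_convergence (𝓕 := (atTop : Filter ℕ))
      (f := fun (k : ℕ) (P : lag g Ω) => if P ∈ M then (0 : ℂ) else u P ^ k)
      (g := fun _ => (0 : ℂ)) (bound := fun P => ‖u P ^ N‖) hsumN ?_ ?_
    · simpa using this
    · intro P
      by_cases hP : P ∈ M
      · simp only [hP, if_true]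
        exact tendsto_const_nhds
      · simp only [hP, if_false]
        exact tendsto_pow_atTop_nhds_zero_of_norm_lt_one (lt_of_le_of_ne (hu1 P) hP)
    · filter_upwards [eventually_ge_atTop N] with k hk P
      split_ifs
      · rw [norm_zero]; exact norm_nonneg _
      · rw [norm_pow, norm_pow]
        exact pow_le_pow_of_le_one (norm_nonneg _) (hu1 P) hk
  obtain ⟨K₁, hK₁⟩ := Filter.eventually_atTop.1
    (hsmall.eventually (Metric.ball_mem_nhds (0 : ℂ) (show (0 : ℝ) < 1 / 2 by norm_num)))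
  have : Finite M := hMfin
  obtain ⟨k, hk, hnear⟩ := exists_pow_near_one (fun P : M => u P) (fun P => P.2)
    (show (0 : ℝ) < 1 / 2 by norm_num) (max (max K N) K₁)
  have hkK : K ≤ k := le_trans (le_trans (le_max_left _ _) (le_max_left _ _)) hk
  have hkN : N ≤ k := le_trans (le_trans (le_max_right _ _) (le_max_left _ _)) hk
  have hkK₁ : K₁ ≤ k := le_trans (le_max_right _ _) hk
  refine ⟨k, hkK, fun h0 => ?_⟩
  have hsumk : Summable fun P => u P ^ k :=
    Summable.of_norm_bounded hsumN fun P => by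
      rw [norm_pow, norm_pow]
      exact pow_le_pow_of_le_one (norm_nonneg _) (hu1 P) hkN
  have h1 : ∑' P : lag g Ω, u P ^ k = 0 := by
    have : (fun P : lag g Ω => u P ^ k) = fun P : lag g Ω => (r : ℂ) ^ k * (pair W₀ P)⁻¹ ^ k := by
      funext P; rw [hu]; simp only [mul_pow]
    rw [this, tsum_mul_left]
    have h2 : ∑' P : lag g Ω, (pair W₀ P)⁻¹ ^ k = 0 := h0
    rw [h2, mul_zero]
  have hs1 : Summable fun P : lag g Ω => if P ∈ M then u P ^ k else 0 :=
    summable_of_hasFiniteSupport (hMfin.subset fun P hP => by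
      by_contra hPM
      simp [hPM] at hP)
  have hs2 : Summable fun P : lag g Ω => if P ∈ M then (0 : ℂ) else u P ^ k := by
    refine Summable.of_norm_bounded (g := fun P => ‖u P ^ N‖) hsumN fun P => ?_
    split_ifs
    · rw [norm_zero]; exact norm_nonneg _
    · rw [norm_pow, norm_pow]
      exact pow_le_pow_of_le_one (norm_nonneg _) (hu1 P) hkN
  have h2 : ∑' P : lag g Ω, u P ^ k = (∑' P : lag g Ω, if P ∈ M then u P ^ k else 0) +
      ∑' P : lag g Ω, if P ∈ M then (0 : ℂ) else u P ^ k := by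
    rw [← hs1.tsum_add hs2]
    congr 1
    funext P
    split_ifs <;> simp
  have h3 : ‖∑' P : lag g Ω, if P ∈ M then (0 : ℂ) else u P ^ k‖ < 1 / 2 := by
    have := hK₁ k hkK₁
    rwa [dist_zero_right] at this
  have h4 : (∑' P : lag g Ω, if P ∈ M then u P ^ k else 0) = ∑ P ∈ hMfin.toFinset, u P ^ k := by
    rw [tsum_eq_sum (s := hMfin.toFinset)]
    · refine Finset.sum_congr rfl fun P hP => ?_
      rw [if_pos (hMfin.mem_toFinset.1 hP)]
    · intro P hP
      rw [if_neg fun h => hP (hMfin.mem_toFinset.2 h)]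
  have h5 : (1 / 2 : ℝ) ≤ (∑ P ∈ hMfin.toFinset, u P ^ k).re := by
    rw [Complex.re_sum]
    have hQM : Q ∈ hMfin.toFinset := by
      rw [hMfin.mem_toFinset]
      show ‖u Q‖ = 1
      rw [hu]
      simp only [norm_mul, norm_inv, Complex.norm_real, Real.norm_eq_abs, abs_of_pos hr0]
      exact mul_inv_cancel₀ hr0.ne'
    have h6 : ∀ P ∈ hMfin.toFinset, (1 / 2 : ℝ) ≤ (u P ^ k).re := by
      intro P hP
      have h7 := hnear ⟨P, hMfin.mem_toFinset.1 hP⟩
      have h8 := (Complex.abs_re_le_norm (u P ^ k - 1)).trans_lt h7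
      rw [Complex.sub_re, Complex.one_re, abs_lt] at h8
      linarith [h8.1]
    calc (1 / 2 : ℝ) ≤ (u Q ^ k).re := h6 Q hQM
      _ ≤ _ := Finset.single_le_sum (f := fun P => (u P ^ k).re)
        (fun P hP => by linarith [h6 P hP]) hQM
  have h6 : (∑' P : lag g Ω, if P ∈ M then u P ^ k else 0) =
      -∑' P : lag g Ω, if P ∈ M then (0 : ℂ) else u P ^ k := by
    rw [h1] at h2
    exact eq_neg_of_add_eq_zero_left h2.symm
  have h7 : ‖∑ P ∈ hMfin.toFinset, u P ^ k‖ < 1 / 2 := by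
    rw [← h4, h6, norm_neg]
    exact h3
  have h8 := (Complex.re_le_norm (∑ P ∈ hMfin.toFinset, u P ^ k))
  linarith

end H18.TF
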