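import Pool.Agent.H18.TF.Eis

/-!
# Isotropic sublattices
-/

set_option autoImplicit false

namespace H18.TF

open Matrix Set Module

theorem exists_isotropic {g : ℕ} {Ω : Matrix (Fin (2 * g)) (Fin (2 * g)) ℚ} (hΩ : Ωᵀ = -Ω) (r : ℕ)
    (hr : r ≤ g) : ∃ v : Fin r → Fin (2 * g) → ℚ, LinearIndependent ℚ v ∧
      ∀ a b, v a ⬝ᵥ (Ω *ᵥ v b) = 0 := by
  have hskew : ∀ x y : Fin (2 * g) → ℚ, x ⬝ᵥ (Ω *ᵥ y) = -(y ⬝ᵥ (Ω *ᵥ x)) := by
    intro x y
    rw [Matrix.dotProduct_mulVec, ← Matrix.mulVec_transpose, hΩ, Matrix.neg_mulVec,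
      neg_dotProduct, dotProduct_comm]
  induction r with
  | zero =>
    exact ⟨fun a => a.elim0, linearIndependent_empty_type, fun a => a.elim0⟩
  | succ r ih =>
    obtain ⟨v, hv, hiso⟩ := ih (by omega)
    let f : (Fin (2 * g) → ℚ) →ₗ[ℚ] (Fin r → ℚ) :=
      { toFun := fun x a => v a ⬝ᵥ (Ω *ᵥ x)
        map_add' := by intro x y; funext a; simp [Matrix.mulVec_add, dotProduct_add]
        map_smul' := by intro c x; funext a; simp [Matrix.mulVec_smul, dotProduct_smul] }
    have h1 : finrank ℚ (LinearMap.ker f) + r ≥ 2 * g := by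
      have h2 := f.finrank_range_add_finrank_ker
      have h3 : finrank ℚ (LinearMap.range f) ≤ r := by
        have := Submodule.finrank_le (LinearMap.range f)
        simpa using this
      simp only [Module.finrank_fintype_fun_eq_card, Fintype.card_fin] at h2
      omega
    have h4 : finrank ℚ (Submodule.span ℚ (Set.range v)) = r := by
      rw [finrank_span_eq_card hv, Fintype.card_fin]
    have h5 : ¬ LinearMap.ker f ≤ Submodule.span ℚ (Set.range v) := by
      intro hle
      have := Submodule.finrank_mono hle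
      omega
    obtain ⟨x, hx, hx'⟩ := SetLike.not_le_iff_exists.1 h5
    have hx1 : ∀ a, v a ⬝ᵥ (Ω *ᵥ x) = 0 := fun a => congrFun hx a
    refine ⟨Fin.cons x v, linearIndependent_finCons.2 ⟨hv, hx'⟩, ?_⟩
    intro a b
    refine Fin.cases ?_ (fun a => ?_) a
    · refine Fin.cases ?_ (fun b => ?_) b
      · simp only [Fin.cons_zero]
        have := hskew x x
        linarith
      · simp only [Fin.cons_zero, Fin.cons_succ]
        rw [hskew, hx1, neg_zero]
    · refine Fin.cases ?_ (fun b => ?_) b
      · simp only [Fin.cons_zero, Fin.cons_succ]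
        exact hx1 a
      · simp only [Fin.cons_succ]
        exact hiso a b

theorem minors_ne_zero {g h : ℕ} {m : Matrix (Fin h) (Fin g) ℚ}
    (hm : ∀ c : Fin g → ℚ, m *ᵥ c = 0 → c = 0) : minors m ≠ 0 := by
  intro h0
  have hinj : LinearMap.ker m.mulVecLin = ⊥ := by
    rw [LinearMap.ker_eq_bot']
    intro c hc
    exact hm c hc
  obtain ⟨l, hl⟩ := LinearMap.exists_leftInverse_of_injective _ hinj
  have h1 : (LinearMap.toMatrix' l * m).det = 1 := by
    have : LinearMap.toMatrix' l * m = 1 := by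
      have h2 : LinearMap.toMatrix' (l ∘ₗ m.mulVecLin) = LinearMap.toMatrix' l * m := by
        rw [LinearMap.toMatrix'_comp]
        congr 1
        exact LinearMap.toMatrix'_toLin' m
      rw [← h2, hl, LinearMap.toMatrix'_id]
    rw [this, Matrix.det_one]
  rw [det_mul_expand] at h1
  simp [h0] at h1

/-- A rational alternating form has integral isotropic sublattices of the rank `g`. -/
theorem lag_nonempty {g : ℕ} {Ω : Matrix (Fin (2 * g)) (Fin (2 * g)) ℚ} (hΩ : Ωᵀ = -Ω) :
    (lag g (Ω.map (Rat.castHom ℝ))).Nonempty := by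
  obtain ⟨v, hv, hiso⟩ := exists_isotropic hΩ g le_rfl
  set D : ℕ := ∏ a, ∏ i, (v a i).den with hD
  have hD0 : D ≠ 0 := by
    rw [hD]
    exact Finset.prod_ne_zero_iff.2 fun a _ => Finset.prod_ne_zero_iff.2 fun i _ => (v a i).den_nz
  have hint : ∀ a i, ∃ z : ℤ, (z : ℚ) = D * v a i := by
    intro a i
    obtain ⟨D', hD'⟩ : (v a i).den ∣ D :=
      (Finset.dvd_prod_of_mem _ (Finset.mem_univ i)).trans (Finset.dvd_prod_of_mem
        (fun a => ∏ i, (v a i).den) (Finset.mem_univ a))
    refine ⟨D' * (v a i).num, ?_⟩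
    rw [hD']
    push_cast
    have := Rat.num_div_den (v a i)
    have hden : ((v a i).den : ℚ) ≠ 0 := by exact_mod_cast (v a i).den_nz
    rw [div_eq_iff hden] at this
    rw [this]
    ring
  choose z hz using hint
  set m : Matrix (Fin (2 * g)) (Fin g) ℤ := Matrix.of fun i a => z a i with hm
  have hmq : m.map (Int.castRingHom ℚ) = (D : ℚ) • (Matrix.of fun i a => v a i) := by
    ext i a
    simp [hm, hz]
  have hinj : minors (m.map (Int.castRingHom ℚ)) ≠ 0 := by
    refine minors_ne_zero fun c hc => ?_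
    rw [hmq, Matrix.smul_mulVec, smul_eq_zero] at hc
    have h1 : (Matrix.of fun i a => v a i) *ᵥ c = 0 := hc.resolve_left (by exact_mod_cast hD0)
    have h2 : ∑ a, c a • v a = 0 := by
      funext i
      have := congrFun h1 i
      simp only [Matrix.mulVec, dotProduct, Matrix.of_apply] at this
      simp only [Finset.sum_apply, Pi.smul_apply, smul_eq_mul]
      rw [← this]
      exact Finset.sum_congr rfl fun a _ => mul_comm _ _
    have := Fintype.linearIndependent_iff.1 hv c h2
    exact funext this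
  refine ⟨minors m, fun h0 => hinj ?_, m, ?_, rfl⟩
  · funext I
    rw [minors_map, h0]
    simp
  · have h1 : (m.map (Int.castRingHom ℚ))ᵀ * Ω * m.map (Int.castRingHom ℚ) = 0 := by
      rw [hmq]
      ext a b
      have := hiso a b
      rw [Matrix.mul_assoc, Matrix.transpose_smul, Matrix.smul_mul, Matrix.mul_smul,
        Matrix.mul_smul]
      simp only [Matrix.smul_apply, Matrix.zero_apply, smul_eq_mul]
      rw [show ((Matrix.of fun i a => v a i)ᵀ * (Ω * Matrix.of fun i a => v a i)) a b =
        v a ⬝ᵥ (Ω *ᵥ v b) from rfl, this]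
      simp
    have h2 : (m.map (Int.castRingHom ℚ)).map (Rat.castHom ℝ) = m.map (Int.castRingHom ℝ) := by
      ext a b
      simp
    have h3 := congrArg (fun M : Matrix (Fin g) (Fin g) ℚ => M.map (Rat.castHom ℝ)) h1
    simp only [Matrix.map_mul] at h3
    rw [← h2, ← Matrix.transpose_map, h3]
    ext a b
    simp

end H18.TF
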