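import Pool.Agent.H18.TF.Sum

/-!
# Minors of isotropic matrices and periods
-/

set_option autoImplicit false

namespace H18.TF

open Matrix Set Filter Topology
open scoped ComplexOrder

section minors

variable {R : Type*} [CommRing R] {g h : ℕ}

/-- The minors of a `h × g` matrix: the vector of the determinants of the matrices with the rows
`I 1, ..., I g`. -/
def minors (m : Matrix (Fin h) (Fin g) R) (I : Fin g → Fin h) : R := (m.submatrix I id).det

theorem det_mul_expand (W : Matrix (Fin g) (Fin h) R) (m : Matrix (Fin h) (Fin g) R) :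
    (W * m).det = ∑ I : Fin g → Fin h, (∏ a, W a (I a)) * minors m I := by
  have h1 : (W * m).det = Matrix.detRowAlternating (fun a => ∑ l, W a l • m l) := by
    show Matrix.detRowAlternating (W * m) = _
    congr 1
    funext a b
    simp [Matrix.mul_apply, Finset.sum_apply]
  rw [h1]
  have h2 := (Matrix.detRowAlternating (n := Fin g) (R := R)).toMultilinearMap.map_sum
    (fun a l => W a l • m l)
  simp only [AlternatingMap.coe_multilinearMap] at h2
  rw [h2]
  refine Finset.sum_congr rfl fun I _ => ?_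
  have h3 := (Matrix.detRowAlternating (n := Fin g) (R := R)).toMultilinearMap.map_smul_univ
    (fun a => W a (I a)) (fun a => m (I a))
  simp only [AlternatingMap.coe_multilinearMap] at h3
  rw [h3, smul_eq_mul]
  rfl

theorem minors_mul (γ : Matrix (Fin h) (Fin h) R) (m : Matrix (Fin h) (Fin g) R)
    (I : Fin g → Fin h) :
    minors (γ * m) I = ∑ J : Fin g → Fin h, (∏ a, γ (I a) (J a)) * minors m J := by
  have : (γ * m).submatrix I id = γ.submatrix I id * m := by
    ext a b
    simp [Matrix.mul_apply]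
  rw [minors, this, det_mul_expand]
  rfl

theorem minors_mul_right (m : Matrix (Fin h) (Fin g) R) (r : Matrix (Fin g) (Fin g) R)
    (I : Fin g → Fin h) : minors (m * r) I = minors m I * r.det := by
  have : (m * r).submatrix I id = m.submatrix I id * r := by
    ext a b
    simp [Matrix.mul_apply]
  rw [minors, this, Matrix.det_mul]
  rfl

theorem minors_map {S : Type*} [CommRing S] (f : R →+* S) (m : Matrix (Fin h) (Fin g) R)
    (I : Fin g → Fin h) : minors (m.map f) I = f (minors m I) := by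
  rw [minors, minors, RingHom.map_det]
  rfl

end minors

variable {g h : ℕ}

/-- The value of the multilinear form of the rows of `W` at the vector `P`. -/
noncomputable def pair (W : Fin g → Fin h → ℂ) (P : (Fin g → Fin h) → ℤ) : ℂ :=
  ∑ I : Fin g → Fin h, (∏ a, W a (I a)) * (P I : ℂ)

theorem pair_minors (W : Fin g → Fin h → ℂ) (m : Matrix (Fin h) (Fin g) ℤ) :
    pair W (minors m) = (Matrix.of W * m.map (Int.castRingHom ℂ)).det := by
  rw [det_mul_expand, pair]
  refine Finset.sum_congr rfl fun I _ => ?_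
  rw [minors_map]
  rfl

/-- The complex vector with the given real coordinates. -/
def cx (x : Fin h → ℝ) : Fin h → ℂ := fun i => (x i : ℂ)

/-- The columns of `W` are the periods of a complex torus with the real polarization `Ω`: they are
linearly independent over the real numbers, and `Ω` is the imaginary part of a positive definite
Hermitian form. -/
def IsPos (W : Fin g → Fin h → ℂ) (Ω : Matrix (Fin h) (Fin h) ℝ) : Prop :=
  (∀ x : Fin h → ℝ, Matrix.of W *ᵥ cx x = 0 → x = 0) ∧
    ∃ H : Matrix (Fin g) (Fin g) ℂ, H.PosDef ∧ ∀ x y : Fin h → ℝ,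
      (star (Matrix.of W *ᵥ cx x) ⬝ᵥ (H *ᵥ (Matrix.of W *ᵥ cx y))).im = x ⬝ᵥ (Ω *ᵥ y)

theorem map_mulVec_cx (m : Matrix (Fin h) (Fin g) ℝ) (a : Fin g → ℝ) :
    m.map (algebraMap ℝ ℂ) *ᵥ cx a = cx (m *ᵥ a) := by
  funext i
  simp [Matrix.mulVec, dotProduct, cx]

theorem det_ne_zero_of_isPos {W : Fin g → Fin h → ℂ} {Ω : Matrix (Fin h) (Fin h) ℝ}
    (hW : IsPos W Ω) {m : Matrix (Fin h) (Fin g) ℝ} (hm : mᵀ * Ω * m = 0)
    (hinj : ∀ c : Fin g → ℝ, m *ᵥ c = 0 → c = 0) :
    (Matrix.of W * m.map (algebraMap ℝ ℂ)).det ≠ 0 := by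
  intro hdet
  obtain ⟨c, hc, hc0⟩ := Matrix.exists_mulVec_eq_zero_iff.2 hdet
  obtain ⟨hW1, H, hH, hHim⟩ := hW
  set a : Fin g → ℝ := fun i => (c i).re with ha
  set b : Fin g → ℝ := fun i => (c i).im with hb
  have hcab : c = cx a + Complex.I • cx b := by
    funext i
    simp [cx, ha, hb, mul_comm Complex.I]
  set u := Matrix.of W *ᵥ cx (m *ᵥ a) with hu
  set v := Matrix.of W *ᵥ cx (m *ᵥ b) with hv
  have huv : u + Complex.I • v = 0 := by
    have : (Matrix.of W * m.map (algebraMap ℝ ℂ)) *ᵥ c = u + Complex.I • v := by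
      rw [hcab, Matrix.mulVec_add, Matrix.mulVec_smul, ← Matrix.mulVec_mulVec,
        ← Matrix.mulVec_mulVec, map_mulVec_cx, map_mulVec_cx]
    rw [← this, hc0]
  have hu' : u = -(Complex.I • v) := eq_neg_of_add_eq_zero_left huv
  have h1 : (star u ⬝ᵥ (H *ᵥ v)).im = 0 := by
    rw [hu, hv, hHim]
    have : (m *ᵥ a) ⬝ᵥ (Ω *ᵥ (m *ᵥ b)) = a ⬝ᵥ ((mᵀ * Ω * m) *ᵥ b) := by
      rw [← Matrix.mulVec_mulVec, ← Matrix.mulVec_mulVec, Matrix.dotProduct_mulVec a,
        Matrix.vecMul_transpose]
    rw [this, hm]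
    simp
  have h2 : star u ⬝ᵥ (H *ᵥ v) = Complex.I * (star v ⬝ᵥ (H *ᵥ v)) := by
    rw [hu', star_neg, star_smul, neg_dotProduct, smul_dotProduct]
    simp
  have h3 : v = 0 := by
    by_contra hne
    have := hH.dotProduct_mulVec_pos hne
    rw [h2] at h1
    have h4 : (star v ⬝ᵥ (H *ᵥ v)).re = 0 := by simpa using h1
    have h5 := (Complex.pos_iff.1 this).1
    linarith
  have h4 : u = 0 := by rw [hu', h3]; simp
  have hb0 : b = 0 := hinj _ (hW1 _ h3)
  have ha0 : a = 0 := hinj _ (hW1 _ h4)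
  apply hc
  rw [hcab, ha0, hb0]
  funext i
  simp [cx]

/-- The isotropic frames which are normalized at the rows `J`. -/
def frames (Ω : Matrix (Fin h) (Fin h) ℝ) (J : Fin g → Fin h) : Set (Fin h → Fin g → ℝ) :=
  {e | (∀ l b, e l b ∈ Set.Icc (-1 : ℝ) 1) ∧ (Matrix.of e)ᵀ * Ω * Matrix.of e = 0 ∧
    (Matrix.of e).submatrix J id = 1}

theorem isCompact_frames (Ω : Matrix (Fin h) (Fin h) ℝ) (J : Fin g → Fin h) :
    IsCompact (frames Ω J) := by
  have h1 : IsCompact (Set.univ.pi fun _ : Fin h => Set.univ.pi fun _ : Fin g =>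
      Set.Icc (-1 : ℝ) 1) :=
    isCompact_univ_pi fun _ => isCompact_univ_pi fun _ => isCompact_Icc
  refine h1.of_isClosed_subset ?_ ?_
  · have : frames Ω J = {e | ∀ l b, e l b ∈ Set.Icc (-1 : ℝ) 1} ∩
        {e | (Matrix.of e)ᵀ * Ω * Matrix.of e = 0} ∩ {e | (Matrix.of e).submatrix J id = 1} := by
      ext e
      simp only [frames, Set.mem_ofPred_eq, mem_inter_iff]
      tauto
    rw [this]
    have hc : Continuous fun e : Fin h → Fin g → ℝ => Matrix.of e := continuous_id
    refine (IsClosed.inter ?_ ?_).inter ?_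
    · simp only [Set.ofPred_forall]
      refine isClosed_iInter fun l => isClosed_iInter fun b => ?_
      exact isClosed_Icc.preimage (f := fun e : Fin h → Fin g → ℝ => e l b) (by fun_prop)
    · exact isClosed_singleton.preimage
        (((hc.matrix_transpose).matrix_mul continuous_const).matrix_mul hc)
    · exact isClosed_singleton.preimage (hc.matrix_submatrix J id)
  · intro e he
    exact fun l _ b _ => he.1 l b

theorem exists_frame {Ω : Matrix (Fin h) (Fin h) ℝ} {m : Matrix (Fin h) (Fin g) ℝ}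
    (hm : mᵀ * Ω * m = 0) {J : Fin g → Fin h} (hJ : minors m J ≠ 0)
    (hmax : ∀ I, |minors m I| ≤ |minors m J|) :
    ∃ e ∈ frames Ω J, m = Matrix.of e * m.submatrix J id := by
  set r := m.submatrix J id with hr
  have hdet : IsUnit r.det := isUnit_iff_ne_zero.2 hJ
  set e : Matrix (Fin h) (Fin g) ℝ := m * r⁻¹ with he
  have hme : m = e * r := by
    rw [he, Matrix.mul_assoc, Matrix.nonsing_inv_mul _ hdet, Matrix.mul_one]
  have heJ : e.submatrix J id = 1 := by
    have : e.submatrix J id = m.submatrix J id * r⁻¹ := by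
      ext a b
      simp [he, Matrix.mul_apply]
    rw [this, ← hr, Matrix.mul_nonsing_inv _ hdet]
  have hiso : eᵀ * Ω * e = 0 := by
    have : eᵀ * Ω * e = (r⁻¹)ᵀ * (mᵀ * Ω * m) * r⁻¹ := by
      rw [he, Matrix.transpose_mul]
      simp only [Matrix.mul_assoc]
    rw [this, hm]
    simp
  refine ⟨e, ⟨fun l b => ?_, hiso, heJ⟩, hme⟩
  have h1 : e l b = minors e (Function.update J b l) := by
    have h2 : e.submatrix (Function.update J b l) id = (1 : Matrix (Fin g) (Fin g) ℝ).updateRow b (e l) := by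
      ext a c
      by_cases hab : a = b
      · subst hab
        simp
      · rw [Matrix.updateRow_ne hab, Matrix.submatrix_apply, Function.update_of_ne hab, id, ← heJ]
        rfl
    rw [minors, h2, ← Matrix.cramer_transpose_apply, Matrix.transpose_one, Matrix.cramer_one]
    rfl
  have h3 : |e l b| ≤ 1 := by
    have h4 : minors m (Function.update J b l) = e l b * minors m J := by
      rw [h1]
      conv_lhs => rw [hme, minors_mul_right]
      rfl
    have h5 := hmax (Function.update J b l)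
    rw [h4, abs_mul] at h5
    have h6 : 0 < |minors m J| := abs_pos.2 hJ
    nlinarith
  exact abs_le.1 h3

/-- The lower bound for the determinants of the periods of the isotropic sublattices. -/
theorem exists_lower_bound {W₀ : Fin g → Fin h → ℂ} {Ω : Matrix (Fin h) (Fin h) ℝ}
    (hW : IsPos W₀ Ω) : ∃ c : ℝ, 0 < c ∧ ∀ᶠ W in 𝓝 W₀, ∀ m : Matrix (Fin h) (Fin g) ℝ,
      mᵀ * Ω * m = 0 → ∀ I, c * |minors m I| ≤ ‖(Matrix.of W * m.map (algebraMap ℝ ℂ)).det‖ := by
  have hcont : Continuous fun z : (Fin g → Fin h → ℂ) × (Fin h → Fin g → ℝ) =>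
      ‖(Matrix.of z.1 * (Matrix.of z.2).map (algebraMap ℝ ℂ)).det‖ := by
    refine (Continuous.matrix_det ?_).norm
    refine Continuous.matrix_mul continuous_fst ?_
    exact Continuous.matrix_map continuous_snd Complex.continuous_ofReal
  have key : ∀ J : Fin g → Fin h, ∃ c : ℝ, 0 < c ∧ ∀ᶠ W in 𝓝 W₀, ∀ e ∈ frames Ω J,
      c ≤ ‖(Matrix.of W * (Matrix.of e).map (algebraMap ℝ ℂ)).det‖ := by
    intro J
    have hpos : ∀ e ∈ frames Ω J, 0 < ‖(Matrix.of W₀ * (Matrix.of e).map (algebraMap ℝ ℂ)).det‖ := by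
      intro e he
      refine norm_pos_iff.2 (det_ne_zero_of_isPos hW he.2.1 fun c hc => ?_)
      have : ((Matrix.of e).submatrix J id) *ᵥ c = 0 := by
        funext a
        exact congrFun hc (J a)
      rw [he.2.2, Matrix.one_mulVec] at this
      exact this
    rcases (frames Ω J).eq_empty_or_nonempty with hempty | hne
    · refine ⟨1, one_pos, Filter.Eventually.of_forall fun W e he => ?_⟩
      rw [hempty] at he
      exact absurd he (Set.notMem_empty _)
    obtain ⟨e₀, he₀, hmin⟩ := (isCompact_frames Ω J).exists_isMinOn hne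
      (f := fun e => ‖(Matrix.of W₀ * (Matrix.of e).map (algebraMap ℝ ℂ)).det‖)
      (hcont.comp (Continuous.prodMk continuous_const continuous_id)).continuousOn
    refine ⟨‖(Matrix.of W₀ * (Matrix.of e₀).map (algebraMap ℝ ℂ)).det‖ / 2, half_pos (hpos _ he₀), ?_⟩
    refine (isCompact_frames Ω J).eventually_forall_of_forall_eventually fun e he => ?_
    have h1 : ‖(Matrix.of W₀ * (Matrix.of e₀).map (algebraMap ℝ ℂ)).det‖ / 2 <
        ‖(Matrix.of W₀ * (Matrix.of e).map (algebraMap ℝ ℂ)).det‖ :=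
      lt_of_lt_of_le (half_lt_self (hpos _ he₀)) (hmin he)
    exact ((hcont.tendsto (W₀, e)).eventually (lt_mem_nhds h1)).mono fun z hz => hz.le
  choose c hc hcW using key
  rcases isEmpty_or_nonempty (Fin g → Fin h) with hI | hI
  · exact ⟨1, one_pos, Filter.Eventually.of_forall fun W m _ I => (hI.false I).elim⟩
  obtain ⟨J₀, hJ₀⟩ := Finite.exists_min c
  refine ⟨c J₀, hc J₀, ?_⟩
  have hall : ∀ᶠ W in 𝓝 W₀, ∀ J, ∀ e ∈ frames Ω J,
      c J ≤ ‖(Matrix.of W * (Matrix.of e).map (algebraMap ℝ ℂ)).det‖ :=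
    Filter.eventually_all.2 hcW
  refine hall.mono fun W hWW m hm I => ?_
  obtain ⟨J, hJ⟩ := Finite.exists_max fun I => |minors m I|
  by_cases h0 : minors m J = 0
  · have : |minors m I| ≤ 0 := by
      have := hJ I
      rwa [h0, abs_zero] at this
    nlinarith [abs_nonneg (minors m I), norm_nonneg (Matrix.of W * m.map (algebraMap ℝ ℂ)).det,
      hc J₀]
  obtain ⟨e, he, hme⟩ := exists_frame hm h0 hJ
  have h1 : (Matrix.of W * m.map (algebraMap ℝ ℂ)).det =
      (Matrix.of W * (Matrix.of e).map (algebraMap ℝ ℂ)).det * ((minors m J : ℝ) : ℂ) := by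
    have h2 : m.map (algebraMap ℝ ℂ) = (Matrix.of e).map (algebraMap ℝ ℂ) *
        (m.submatrix J id).map (algebraMap ℝ ℂ) := by
      conv_lhs => rw [hme]
      exact Matrix.map_mul
    rw [h2, ← Matrix.mul_assoc, Matrix.det_mul]
    congr 1
    rw [minors]
    exact (RingHom.map_det (algebraMap ℝ ℂ) (m.submatrix J id)).symm
  rw [h1, norm_mul, Complex.norm_real, Real.norm_eq_abs]
  calc c J₀ * |minors m I| ≤ c J * |minors m J| :=
        mul_le_mul (hJ₀ J) (hJ I) (abs_nonneg _) (hc J).le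
    _ ≤ _ := mul_le_mul_of_nonneg_right (hWW J e he) (abs_nonneg _)

end H18.TF
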