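import Mathlib

/-!
# Sums of holomorphic functions of several variables
-/

set_option autoImplicit false

namespace H18.TF

open Metric Set Filter Topology

section

variable {E F : Type*} [NormedAddCommGroup E] [NormedSpace ℂ E]
  [NormedAddCommGroup F] [NormedSpace ℂ F]

omit [NormedSpace ℂ E] in
theorem ball_half_subset {c w : E} {R : ℝ} (hw : w ∈ ball c (R / 2)) :
    ball w (R / 2) ⊆ ball c R := by
  intro x hx
  rw [mem_ball] at *
  calc dist x c ≤ dist x w + dist w c := dist_triangle _ _ _
    _ < R := by linarith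

theorem norm_fderiv_le_half {f : E → F} {c : E} {R M : ℝ}
    (hd : DifferentiableOn ℂ f (ball c R)) (hM : ∀ z ∈ ball c R, ‖f z‖ ≤ M) {w : E}
    (hw : w ∈ ball c (R / 2)) :
    ‖fderiv ℂ f w‖ ≤ 4 * M / R := by
  have hsub := ball_half_subset hw
  have hR : 0 < R / 2 := (dist_nonneg).trans_lt (mem_ball.1 hw)
  have hmaps : MapsTo f (ball w (R / 2)) (closedBall (f w) (2 * M)) := by
    intro x hx
    rw [mem_closedBall, dist_eq_norm]
    calc ‖f x - f w‖ ≤ ‖f x‖ + ‖f w‖ := norm_sub_le _ _
      _ ≤ 2 * M := by linarith [hM x (hsub hx), hM w (hsub (mem_ball_self hR))]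
  have := Complex.norm_fderiv_le_div_of_mapsTo_ball (hd.mono hsub) hmaps hR
  calc _ ≤ _ := this
    _ = _ := by
      have : R ≠ 0 := by linarith
      field_simp; ring

/-- A series of holomorphic functions with a summable bound is holomorphic. -/
theorem differentiableOn_tsum [CompleteSpace F] {α : Type*} {u : α → ℝ} (hu : Summable u)
    {f : α → E → F} {c : E} {R : ℝ}
    (hd : ∀ n, DifferentiableOn ℂ (f n) (ball c R)) (hb : ∀ n, ∀ z ∈ ball c R, ‖f n z‖ ≤ u n) :
    DifferentiableOn ℂ (fun z => ∑' n, f n z) (ball c (R / 2)) := by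
  rcases le_or_gt R 0 with hR | hR
  · have : ball c (R / 2) = ∅ := ball_eq_empty.2 (by linarith)
    rw [this]
    exact differentiableOn_empty
  intro z hz
  have hsub : ball c (R / 2) ⊆ ball c R := ball_subset_ball (by linarith)
  refine (hasFDerivAt_tsum_of_isPreconnected (𝕜 := ℂ) (u := fun n => 4 * u n / R) (f' := fun n x => fderiv ℂ (f n) x)
    (x₀ := c) ?_ isOpen_ball (convex_ball c (R / 2)).isPreconnected ?_ ?_ ?_ ?_
    hz).differentiableAt.differentiableWithinAt
  · exact (hu.mul_left 4).div_const R
  · intro n x hx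
    exact ((hd n).differentiableAt (isOpen_ball.mem_nhds (hsub hx))).hasFDerivAt
  · intro n x hx
    exact norm_fderiv_le_half (hd n) (hb n) hx
  · exact mem_ball_self (by linarith)
  · exact Summable.of_norm_bounded hu fun n => hb n c (mem_ball_self hR)

end

/-- The sum of the negative powers of the norms of the nonzero integral vectors. -/
theorem summable_int_vectors {D : Type*} [Fintype D] {k : ℕ} (hk : Fintype.card D < k) :
    Summable fun P : D → ℤ => ‖P‖⁻¹ ^ k := by
  classical
  set L : Submodule ℤ (D → ℝ) := Submodule.span ℤ (Set.range (Pi.basisFun ℝ D)) with hL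
  have hrank : Module.finrank ℤ L = Fintype.card D := by
    rw [ZLattice.rank ℝ L, Module.finrank_fintype_fun_eq_card]
  have hmem : ∀ P : D → ℤ, (fun i => (P i : ℝ)) ∈ L := by
    intro P
    rw [hL, Module.Basis.mem_span_iff_repr_mem]
    intro i
    exact ⟨P i, by simp⟩
  have h1 := ZLattice.summable_norm_pow_inv (L := L) k (by rw [hrank]; exact hk)
  have h2 := h1.comp_injective (i := fun P : D → ℤ => (⟨_, hmem P⟩ : L)) (by
    intro P Q h
    have := congrArg Subtype.val h
    funext i
    have h3 : (P i : ℝ) = (Q i : ℝ) := congrFun this i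
    exact_mod_cast h3)
  refine h2.congr fun P => ?_
  have : ‖(⟨_, hmem P⟩ : L)‖ = ‖P‖ := by
    rw [Submodule.coe_norm]
    simp only [Pi.norm_def]
    congr 1
  simp only [Function.comp]
  rw [this]

end H18.TF
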