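import Pool.Agent.H18.TF.Final
import Pool.Agent.H18.TF.DivDefs

/-!
# Translates of theta functions by torsion points
-/

set_option autoImplicit false

namespace H18.TF

open Matrix Set Filter Topology

theorem ee_add (z w : ℂ) : ee (z + w) = ee z * ee w := by
  rw [ee, ee, ee, ← Complex.exp_add]; ring_nf

theorem ee_zero : ee 0 = 1 := by simp [ee]

theorem ee_int (k : ℤ) : ee k = 1 := by
  rw [ee, mul_comm]
  exact Complex.exp_int_mul_two_pi_mul_I k

theorem ee_ne_zero (z : ℂ) : ee z ≠ 0 := Complex.exp_ne_zero _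

theorem ee_nat_mul (N : ℕ) (z : ℂ) : ee (N * z) = ee z ^ N := by
  rw [ee, ee, ← Complex.exp_nat_mul]; ring_nf

/-- Being an integer. -/
def IsInt (z : ℂ) : Prop := ∃ k : ℤ, z = k

theorem IsInt.add {z w : ℂ} (hz : IsInt z) (hw : IsInt w) : IsInt (z + w) := by
  obtain ⟨a, rfl⟩ := hz; obtain ⟨b, rfl⟩ := hw; exact ⟨a + b, by push_cast; rfl⟩

theorem IsInt.neg {z : ℂ} (hz : IsInt z) : IsInt (-z) := by
  obtain ⟨a, rfl⟩ := hz; exact ⟨-a, by push_cast; rfl⟩

theorem IsInt.sub {z w : ℂ} (hz : IsInt z) (hw : IsInt w) : IsInt (z - w) := by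
  rw [sub_eq_add_neg]; exact hz.add hw.neg

theorem IsInt.int_mul {z : ℂ} (hz : IsInt z) (k : ℤ) : IsInt (k * z) := by
  obtain ⟨a, rfl⟩ := hz; exact ⟨k * a, by push_cast; rfl⟩

theorem isInt_int (k : ℤ) : IsInt (k : ℂ) := ⟨k, rfl⟩

theorem isInt_zero : IsInt 0 := ⟨0, by simp⟩

theorem isInt_sum {ι : Type*} (s : Finset ι) {f : ι → ℂ} (hf : ∀ i ∈ s, IsInt (f i)) :
    IsInt (∑ i ∈ s, f i) :=
  Finset.sum_induction f IsInt (fun _ _ => IsInt.add) isInt_zero hf

theorem IsInt.ee {z : ℂ} (hz : IsInt z) : ee z = 1 := by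
  obtain ⟨k, rfl⟩ := hz; exact ee_int k

theorem ic_add {h : ℕ} (m m' : Fin h → ℤ) : ic (m + m') = ic m + ic m' := by
  funext l; simp [ic]

theorem ic_mulVec {h : ℕ} (γ : Matrix (Fin h) (Fin h) ℤ) (m : Fin h → ℤ) :
    ic (γ *ᵥ m) = γ.map (Int.castRingHom ℂ) *ᵥ ic m := by
  funext l
  simp [ic, Matrix.mulVec, dotProduct]

variable {g h : ℕ}

theorem bil_add_left (α : Matrix (Fin h) (Fin g) ℂ) (x y : Fin h → ℂ) (v : Fin g → ℂ) :
    bil α (x + y) v = bil α x v + bil α y v := by rw [bil, bil, bil, add_dotProduct]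

theorem bil_add_right (α : Matrix (Fin h) (Fin g) ℂ) (x : Fin h → ℂ) (v w : Fin g → ℂ) :
    bil α x (v + w) = bil α x v + bil α x w := by
  rw [bil, bil, bil, Matrix.mulVec_add, dotProduct_add]

theorem bil_smul_left (α : Matrix (Fin h) (Fin g) ℂ) (c : ℂ) (x : Fin h → ℂ) (v : Fin g → ℂ) :
    bil α (c • x) v = c * bil α x v := by rw [bil, bil, smul_dotProduct, smul_eq_mul]

theorem bil_smul_right (α : Matrix (Fin h) (Fin g) ℂ) (c : ℂ) (x : Fin h → ℂ) (v : Fin g → ℂ) :
    bil α x (c • v) = c * bil α x v := by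
  rw [bil, bil, Matrix.mulVec_smul, dotProduct_smul, smul_eq_mul]

/-- The data of a line bundle on a complex torus: the periods `P`, and factors of automorphy
`exp (2 π i (α_m (v) + β_m))`. -/
structure Factor (P : Matrix (Fin g) (Fin h) ℂ) (α : Matrix (Fin h) (Fin g) ℂ)
    (β : (Fin h → ℤ) → ℂ) : Prop where
  cocycle : ∀ m m', IsInt (β (m + m') - β m - β m' - bil α (ic m) (P *ᵥ ic m'))

namespace Factor

variable {P : Matrix (Fin g) (Fin h) ℂ} {α : Matrix (Fin h) (Fin g) ℂ} {β : (Fin h → ℤ) → ℂ}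

theorem isInt_E (hf : Factor P α β) (m m' : Fin h → ℤ) :
    IsInt (bil α (ic m) (P *ᵥ ic m') - bil α (ic m') (P *ᵥ ic m)) := by
  have h1 := hf.cocycle m m'
  have h2 := hf.cocycle m' m
  rw [add_comm m' m] at h2
  have h3 := h2.sub h1
  convert h3 using 1
  ring

/-- The linear form which makes `2 β` linear. -/
noncomputable def ell (P : Matrix (Fin g) (Fin h) ℂ) (α : Matrix (Fin h) (Fin g) ℂ)
    (β : (Fin h → ℤ) → ℂ) (k : Fin h) : ℂ :=
  2 * β (Pi.single k 1) - bil α (ic (Pi.single k 1)) (P *ᵥ ic (Pi.single k 1))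

theorem isInt_ell (hf : Factor P α β) (m : Fin h → ℤ) :
    IsInt (2 * β m - bil α (ic m) (P *ᵥ ic m) - ic m ⬝ᵥ ell P α β) := by
  set Z : AddSubgroup (Fin h → ℤ) :=
    { carrier := {m | IsInt (2 * β m - bil α (ic m) (P *ᵥ ic m) - ic m ⬝ᵥ ell P α β)}
      add_mem' := by
        intro a b ha hb
        have h1 := (hf.cocycle a b).int_mul 2
        have h2 := hf.isInt_E a b
        have h3 := ((IsInt.add ha hb).add h1).add h2
        show IsInt _
        convert h3 using 1
        simp only [ic_add, Matrix.mulVec_add, bil_add_left, bil_add_right, add_dotProduct]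
        push_cast
        ring
      zero_mem' := by
        have h1 := hf.cocycle 0 0
        rw [add_zero] at h1
        have h0 : ic (0 : Fin h → ℤ) = 0 := by funext l; simp [ic]
        have h3 := (h1.int_mul 2).neg
        show IsInt _
        convert h3 using 1
        rw [h0]
        simp only [bil, Matrix.mulVec_zero, dotProduct_zero, zero_dotProduct]
        push_cast
        ring
      neg_mem' := by
        intro a ha
        have h1 := (hf.cocycle a (-a)).int_mul 2
        have h2 := hf.isInt_E a (-a)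
        have h00 := hf.cocycle 0 0
        rw [add_zero] at h00
        rw [add_neg_cancel] at h1
        have h0 : ic (0 : Fin h → ℤ) = 0 := by funext l; simp [ic]
        have hneg : ic (-a) = -ic a := by funext l; simp [ic]
        have h4 := (((IsInt.add ha h1).add h2).add (h00.int_mul 2)).neg
        show IsInt _
        convert h4 using 1
        simp only [hneg, h0, bil, Matrix.mulVec_zero, Matrix.mulVec_neg, dotProduct_zero,
          zero_dotProduct, neg_dotProduct, dotProduct_neg]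
        push_cast
        ring } with hZ
  have hbasis : ∀ k, (Pi.single k 1 : Fin h → ℤ) ∈ Z := by
    intro k
    show IsInt _
    have : ic (Pi.single k 1 : Fin h → ℤ) ⬝ᵥ ell P α β = ell P α β k := by
      have h1 : ic (Pi.single k 1 : Fin h → ℤ) = Pi.single k 1 := by
        funext l
        by_cases hl : l = k
        · subst hl; simp [ic]
        · simp [ic, hl]
      rw [h1, single_one_dotProduct]
    rw [this, ell, sub_self]
    exact isInt_zero
  have hmem : m ∈ Z := by
    have h1 : m = ∑ k, m k • (Pi.single k 1 : Fin h → ℤ) := by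
      funext l
      simp [Finset.sum_apply, Pi.single_apply]
    rw [h1]
    exact Z.sum_mem fun k _ => Z.zsmul_mem (hbasis k) _
  exact hmem

end Factor

/-- The translate of the theta function `F` by the point `P x`, normalized. -/
noncomputable def tr (P : Matrix (Fin g) (Fin h) ℂ) (α : Matrix (Fin h) (Fin g) ℂ)
    (β : (Fin h → ℤ) → ℂ) (F : (Fin g → ℂ) → ℂ) (x : Fin h → ℂ) (v : Fin g → ℂ) : ℂ :=
  ee (-(1 / 2) * bil α x (P *ᵥ x) - (1 / 2) * (x ⬝ᵥ Factor.ell P α β) - bil α x v) * F (v + P *ᵥ x)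

variable {P : Matrix (Fin g) (Fin h) ℂ} {α : Matrix (Fin h) (Fin g) ℂ} {β : (Fin h → ℤ) → ℂ}
  {F : (Fin g → ℂ) → ℂ}

theorem tr_add_period (hF : ∀ m v, F (v + P *ᵥ ic m) = ee (bil α (ic m) v + β m) * F v)
    (x : Fin h → ℂ) (m : Fin h → ℤ) (v : Fin g → ℂ) :
    tr P α β F x (v + P *ᵥ ic m) = ee (bil α (ic m) v + β m) *
      ee (bil α (ic m) (P *ᵥ x) - bil α x (P *ᵥ ic m)) * tr P α β F x v := by
  rw [tr, tr, add_right_comm, hF, bil_add_right, bil_add_right]
  rw [← mul_assoc, ← mul_assoc, ← ee_add, ← ee_add, ← ee_add]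
  congr 2
  ring

theorem tr_add (hF : ∀ m v, F (v + P *ᵥ ic m) = ee (bil α (ic m) v + β m) * F v)
    (x : Fin h → ℂ) (m : Fin h → ℤ) (v : Fin g → ℂ) :
    tr P α β F (x + ic m) v =
      ee ((1 / 2) * (bil α (ic m) (P *ᵥ x) - bil α x (P *ᵥ ic m)) +
        (1 / 2) * (2 * β m - bil α (ic m) (P *ᵥ ic m) - ic m ⬝ᵥ Factor.ell P α β)) *
        tr P α β F x v := by
  rw [tr, tr, Matrix.mulVec_add, ← add_assoc, hF, ← mul_assoc, ← mul_assoc, ← ee_add, ← ee_add]
  congr 2
  simp only [bil_add_left, bil_add_right, add_dotProduct]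
  ring

end H18.TF
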