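import Pool.Agent.H18.TF.Theta

/-!
# The power sums of the torsion translates
-/

set_option autoImplicit false

namespace H18.TF

open Matrix Set Filter Topology

variable {g h : ℕ}

theorem quad_add {S : Matrix (Fin g) (Fin g) ℂ} (hS : Sᵀ = S) (r : Fin g → ℂ) (q : ℂ)
    (v w : Fin g → ℂ) :
    quad S r q (v + w) = quad S r q v + v ⬝ᵥ (S *ᵥ w) + (1 / 2) * (w ⬝ᵥ (S *ᵥ w)) + r ⬝ᵥ w := by
  have h1 : w ⬝ᵥ (S *ᵥ v) = v ⬝ᵥ (S *ᵥ w) := by
    rw [Matrix.dotProduct_mulVec, ← Matrix.mulVec_transpose, hS, dotProduct_comm]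
  simp only [quad, Matrix.mulVec_add, dotProduct_add, add_dotProduct, h1]
  ring

/-- The compatibility of the data of a line bundle for a change of coordinates `v ↦ A v + c`. -/
structure Change (P P' : Matrix (Fin g) (Fin h) ℂ) (α α' : Matrix (Fin h) (Fin g) ℂ)
    (β β' : (Fin h → ℤ) → ℂ) (A : Matrix (Fin g) (Fin g) ℂ) (c : Fin g → ℂ)
    (γ : Matrix (Fin h) (Fin h) ℤ) (S : Matrix (Fin g) (Fin g) ℂ) (r : Fin g → ℂ) (q : ℂ) :
    Prop where
  lattice : A * P' = P * γ.map (Int.castRingHom ℂ)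
  symm : Sᵀ = S
  compat : ∀ m, ∃ z : ℤ, ∀ v, quad S r q (v + P' *ᵥ ic m) + (bil α' (ic m) v + β' m) =
    bil α (ic (γ *ᵥ m)) (A *ᵥ v + c) + β (γ *ᵥ m) + quad S r q v + z

namespace Change

variable {P P' : Matrix (Fin g) (Fin h) ℂ} {α α' : Matrix (Fin h) (Fin g) ℂ}
  {β β' : (Fin h → ℤ) → ℂ} {A : Matrix (Fin g) (Fin g) ℂ} {c : Fin g → ℂ}
  {γ : Matrix (Fin h) (Fin h) ℤ} {S : Matrix (Fin g) (Fin g) ℂ} {r : Fin g → ℂ} {q : ℂ}

theorem linear_int (hC : Change P P' α α' β β' A c γ S r q) (m : Fin h → ℤ) (v : Fin g → ℂ) :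
    v ⬝ᵥ (S *ᵥ (P' *ᵥ ic m)) + bil α' (ic m) v = bil α (ic (γ *ᵥ m)) (A *ᵥ v) := by
  obtain ⟨z, hz⟩ := hC.compat m
  have h1 := hz v
  have h0 := hz 0
  rw [quad_add hC.symm, bil_add_right] at h1 h0
  have h2 : bil α' (ic m) 0 = 0 := by simp [bil]
  have h3 : bil α (ic (γ *ᵥ m)) (A *ᵥ 0) = 0 := by simp [bil]
  rw [h2, h3, zero_dotProduct] at h0
  linear_combination h1 - h0

theorem const_int (hC : Change P P' α α' β β' A c γ S r q) (m : Fin h → ℤ) :
    IsInt ((1 / 2) * ((P' *ᵥ ic m) ⬝ᵥ (S *ᵥ (P' *ᵥ ic m))) + r ⬝ᵥ (P' *ᵥ ic m) + β' m -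
      bil α (ic (γ *ᵥ m)) c - β (γ *ᵥ m)) := by
  obtain ⟨z, hz⟩ := hC.compat m
  have h0 := hz 0
  rw [quad_add hC.symm, bil_add_right] at h0
  have h2 : bil α' (ic m) 0 = 0 := by simp [bil]
  have h3 : bil α (ic (γ *ᵥ m)) (A *ᵥ 0) = 0 := by simp [bil]
  rw [h2, h3, zero_dotProduct] at h0
  refine ⟨z, ?_⟩
  linear_combination h0

theorem linear (hC : Change P P' α α' β β' A c γ S r q) (x : Fin h → ℂ) (v : Fin g → ℂ) :
    v ⬝ᵥ (S *ᵥ (P' *ᵥ x)) + bil α' x v = bil α (γ.map (Int.castRingHom ℂ) *ᵥ x) (A *ᵥ v) := by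
  have h1 : ∀ k, v ⬝ᵥ (S *ᵥ (P' *ᵥ Pi.single k 1)) + bil α' (Pi.single k 1) v =
      bil α (γ.map (Int.castRingHom ℂ) *ᵥ Pi.single k 1) (A *ᵥ v) := by
    intro k
    have h2 := hC.linear_int (Pi.single k 1) v
    have h3 : ic (Pi.single k 1 : Fin h → ℤ) = Pi.single k 1 := by
      funext l
      by_cases hl : l = k
      · subst hl; simp [ic]
      · simp [ic, hl]
    rwa [ic_mulVec, h3] at h2
  have h4 : x = ∑ k, x k • (Pi.single k 1 : Fin h → ℂ) := by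
    funext l
    simp [Finset.sum_apply, Pi.single_apply]
  have h5 : ∀ (s : Finset (Fin h)), v ⬝ᵥ (S *ᵥ (P' *ᵥ ∑ k ∈ s, x k • (Pi.single k 1 : Fin h → ℂ))) +
      bil α' (∑ k ∈ s, x k • (Pi.single k 1 : Fin h → ℂ)) v =
      bil α (γ.map (Int.castRingHom ℂ) *ᵥ ∑ k ∈ s, x k • (Pi.single k 1 : Fin h → ℂ)) (A *ᵥ v) := by
    classical
    intro s
    induction s using Finset.induction_on with
    | empty => simp [bil]
    | insert k s hk ih =>
      rw [Finset.sum_insert hk]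
      simp only [Matrix.mulVec_add, Matrix.mulVec_smul, dotProduct_add, dotProduct_smul,
        bil_add_left, bil_smul_left, smul_eq_mul] at ih ⊢
      linear_combination ih + x k * h1 k
  rw [h4]
  exact h5 Finset.univ

/-- The character by which the translates change. -/
noncomputable def chi (P P' : Matrix (Fin g) (Fin h) ℂ) (α α' : Matrix (Fin h) (Fin g) ℂ)
    (β β' : (Fin h → ℤ) → ℂ) (c : Fin g → ℂ) (γ : Matrix (Fin h) (Fin h) ℤ) (r : Fin g → ℂ)
    (x : Fin h → ℂ) : ℂ :=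
  r ⬝ᵥ (P' *ᵥ x) - bil α (γ.map (Int.castRingHom ℂ) *ᵥ x) c -
    (1 / 2) * ((γ.map (Int.castRingHom ℂ) *ᵥ x) ⬝ᵥ Factor.ell P α β) +
    (1 / 2) * (x ⬝ᵥ Factor.ell P' α' β')

theorem isInt_chi (hC : Change P P' α α' β β' A c γ S r q) (hf : Factor P α β)
    (hf' : Factor P' α' β') (m : Fin h → ℤ) :
    IsInt (2 * chi P P' α α' β β' c γ r (ic m)) := by
  have h1 := (hC.const_int m).int_mul 2
  have h2 := hf.isInt_ell (γ *ᵥ m)
  have h3 := hf'.isInt_ell m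
  have h4 := hC.linear_int m (P' *ᵥ ic m)
  have h5 : A *ᵥ (P' *ᵥ ic m) = P *ᵥ ic (γ *ᵥ m) := by
    rw [Matrix.mulVec_mulVec, hC.lattice, ic_mulVec, Matrix.mulVec_mulVec]
  rw [h5] at h4
  have h6 := (h1.add h2).sub h3
  convert h6 using 1
  rw [chi, ← ic_mulVec]
  push_cast
  linear_combination -h4

theorem chi_smul (y : ℂ) (x : Fin h → ℂ) : chi P P' α α' β β' c γ r (y • x) =
    y * chi P P' α α' β β' c γ r x := by
  simp only [chi, Matrix.mulVec_smul, bil_smul_left, smul_dotProduct, dotProduct_smul, smul_eq_mul]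
  ring

variable {F F' : (Fin g → ℂ) → ℂ}

theorem tr_change (hC : Change P P' α α' β β' A c γ S r q)
    (hF : ∀ v, F (A *ᵥ v + c) = ee (quad S r q v) * F' v) (x : Fin h → ℂ) (v : Fin g → ℂ) :
    tr P α β F (γ.map (Int.castRingHom ℂ) *ᵥ x) (A *ᵥ v + c) =
      ee (quad S r q v) * ee (chi P P' α α' β β' c γ r x) * tr P' α' β' F' x v := by
  have h1 : P *ᵥ (γ.map (Int.castRingHom ℂ) *ᵥ x) = A *ᵥ (P' *ᵥ x) := by
    rw [Matrix.mulVec_mulVec, Matrix.mulVec_mulVec, hC.lattice]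
  have h2 : A *ᵥ v + c + A *ᵥ (P' *ᵥ x) = A *ᵥ (v + P' *ᵥ x) + c := by
    rw [Matrix.mulVec_add]; abel
  have h3 := hC.linear x v
  have h4 := hC.linear x (P' *ᵥ x)
  rw [tr, tr, h1, h2, hF, ← mul_assoc, ← mul_assoc, ← ee_add, ← ee_add, ← ee_add]
  congr 2
  rw [quad_add hC.symm, bil_add_right, chi]
  linear_combination h3 + (1 / 2) * h4

end Change

/-- The power of a torsion translate. -/
noncomputable def T (P : Matrix (Fin g) (Fin h) ℂ) (α : Matrix (Fin h) (Fin g) ℂ)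
    (β : (Fin h → ℤ) → ℂ) (F : (Fin g → ℂ) → ℂ) (d : ℕ) (t : Fin h → ℤ) (v : Fin g → ℂ) : ℂ :=
  tr P α β F ((1 / d : ℂ) • ic t) v ^ (2 * d)

section T

variable {P : Matrix (Fin g) (Fin h) ℂ} {α : Matrix (Fin h) (Fin g) ℂ} {β : (Fin h → ℤ) → ℂ}
  {F : (Fin g → ℂ) → ℂ} {d : ℕ}

theorem T_add_period (hf : Factor P α β) (hd : d ≠ 0)
    (hF : ∀ m v, F (v + P *ᵥ ic m) = ee (bil α (ic m) v + β m) * F v)
    (t m : Fin h → ℤ) (v : Fin g → ℂ) :
    T P α β F d t (v + P *ᵥ ic m) = ee (bil α (ic m) v + β m) ^ (2 * d) * T P α β F d t v := by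
  have hd' : (d : ℂ) ≠ 0 := by exact_mod_cast hd
  rw [T, tr_add_period hF, mul_pow, mul_pow, ← ee_nat_mul (2 * d) (bil α (ic m) (P *ᵥ _) - _)]
  have h1 : IsInt (((2 * d : ℕ) : ℂ) * (bil α (ic m) (P *ᵥ ((1 / d : ℂ) • ic t)) -
      bil α ((1 / d : ℂ) • ic t) (P *ᵥ ic m))) := by
    have := (hf.isInt_E m t).int_mul 2
    convert this using 1
    rw [Matrix.mulVec_smul, bil_smul_right, bil_smul_left]
    push_cast
    field_simp
  rw [h1.ee, mul_one]
  rfl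

theorem T_add (hf : Factor P α β) (hd : d ≠ 0)
    (hF : ∀ m v, F (v + P *ᵥ ic m) = ee (bil α (ic m) v + β m) * F v)
    (t m : Fin h → ℤ) (v : Fin g → ℂ) :
    T P α β F d (t + (d : ℤ) • m) v = T P α β F d t v := by
  have hd' : (d : ℂ) ≠ 0 := by exact_mod_cast hd
  have h0 : (1 / d : ℂ) • ic (t + (d : ℤ) • m) = (1 / d : ℂ) • ic t + ic m := by
    funext l
    simp only [ic, Pi.smul_apply, Pi.add_apply, smul_eq_mul]
    push_cast
    field_simp
  rw [T, h0, tr_add hF, mul_pow, ← ee_nat_mul]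
  have h1 : IsInt (((2 * d : ℕ) : ℂ) * ((1 / 2) * (bil α (ic m) (P *ᵥ ((1 / d : ℂ) • ic t)) -
      bil α ((1 / d : ℂ) • ic t) (P *ᵥ ic m)) +
        (1 / 2) * (2 * β m - bil α (ic m) (P *ᵥ ic m) - ic m ⬝ᵥ Factor.ell P α β))) := by
    have := (hf.isInt_E m t).add ((hf.isInt_ell m).int_mul d)
    convert this using 1
    rw [Matrix.mulVec_smul, bil_smul_right, bil_smul_left]
    push_cast
    field_simp
  rw [h1.ee, one_mul]
  rfl

theorem T_congr (hf : Factor P α β) (hd : d ≠ 0)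
    (hF : ∀ m v, F (v + P *ᵥ ic m) = ee (bil α (ic m) v + β m) * F v)
    {t t' : Fin h → ℤ} (htt : ∀ k, (t k : ZMod d) = t' k) (v : Fin g → ℂ) :
    T P α β F d t v = T P α β F d t' v := by
  have h1 : ∀ k, ∃ z : ℤ, t k = t' k + d * z := by
    intro k
    have h2 := (ZMod.intCast_eq_intCast_iff_dvd_sub (t' k) (t k) d).1 (htt k).symm
    obtain ⟨z, hz⟩ := h2
    exact ⟨z, by linarith⟩
  choose z hz using h1
  have h3 : t = t' + (d : ℤ) • z := by
    funext k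
    simp [hz k]
  rw [h3, T_add hf hd hF]

/-- The integral vector which represents a vector modulo `d`. -/
def rep {d : ℕ} (t : Fin h → ZMod d) : Fin h → ℤ := fun k => ((t k).val : ℤ)

theorem cast_rep [NeZero d] (t : Fin h → ZMod d) (k : Fin h) : ((rep t k : ℤ) : ZMod d) = t k := by
  simp [rep]

/-- The power sum of the torsion translates. -/
noncomputable def psum (P : Matrix (Fin g) (Fin h) ℂ) (α : Matrix (Fin h) (Fin g) ℂ)
    (β : (Fin h → ℤ) → ℂ) (F : (Fin g → ℂ) → ℂ) (d : ℕ) [NeZero d] (K : ℕ) (v : Fin g → ℂ) : ℂ :=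
  ∑ t : Fin h → ZMod d, T P α β F d (rep t) v ^ K

theorem psum_add_period [NeZero d] (hf : Factor P α β)
    (hF : ∀ m v, F (v + P *ᵥ ic m) = ee (bil α (ic m) v + β m) * F v) (K : ℕ)
    (m : Fin h → ℤ) (v : Fin g → ℂ) :
    psum P α β F d K (v + P *ᵥ ic m) =
      ee (bil α (ic m) v + β m) ^ (2 * d * K) * psum P α β F d K v := by
  rw [psum, psum, Finset.mul_sum]
  refine Finset.sum_congr rfl fun t _ => ?_
  rw [T_add_period hf (NeZero.ne d) hF, mul_pow, ← pow_mul]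

theorem psum_change [NeZero d] {P' : Matrix (Fin g) (Fin h) ℂ} {α' : Matrix (Fin h) (Fin g) ℂ}
    {β' : (Fin h → ℤ) → ℂ} {F' : (Fin g → ℂ) → ℂ} {A : Matrix (Fin g) (Fin g) ℂ} {c : Fin g → ℂ}
    {γ : Matrix (Fin h) (Fin h) ℤ} {S : Matrix (Fin g) (Fin g) ℂ} {r : Fin g → ℂ} {q : ℂ}
    (hγ : IsUnit γ.det) (hC : Change P P' α α' β β' A c γ S r q) (hf : Factor P α β)
    (hf' : Factor P' α' β')
    (hFP : ∀ m v, F (v + P *ᵥ ic m) = ee (bil α (ic m) v + β m) * F v)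
    (hF : ∀ v, F (A *ᵥ v + c) = ee (quad S r q v) * F' v) (K : ℕ) (v : Fin g → ℂ) :
    psum P α β F d K (A *ᵥ v + c) =
      ee (quad S r q v) ^ (2 * d * K) * psum P' α' β' F' d K v := by
  have hd' : (d : ℂ) ≠ 0 := by exact_mod_cast NeZero.ne d
  set γd : Matrix (Fin h) (Fin h) (ZMod d) := γ.map (Int.castRingHom (ZMod d)) with hγd
  have hu : IsUnit γd.det := by
    rw [hγd, ← RingHom.mapMatrix_apply, ← RingHom.map_det]
    exact hγ.map _
  let e : (Fin h → ZMod d) ≃ (Fin h → ZMod d) :=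
    { toFun := fun t => γd *ᵥ t
      invFun := fun t => γd⁻¹ *ᵥ t
      left_inv := fun t => by
        show γd⁻¹ *ᵥ (γd *ᵥ t) = t
        rw [Matrix.mulVec_mulVec, Matrix.nonsing_inv_mul _ hu, Matrix.one_mulVec]
      right_inv := fun t => by
        show γd *ᵥ (γd⁻¹ *ᵥ t) = t
        rw [Matrix.mulVec_mulVec, Matrix.mul_nonsing_inv _ hu, Matrix.one_mulVec] }
  rw [psum, psum, ← e.sum_comp, Finset.mul_sum]
  refine Finset.sum_congr rfl fun t _ => ?_
  have h1 : T P α β F d (rep (e t)) (A *ᵥ v + c) = T P α β F d (γ *ᵥ rep t) (A *ᵥ v + c) := by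
    refine T_congr hf (NeZero.ne d) hFP (fun k => ?_) _
    rw [cast_rep]
    show (γd *ᵥ t) k = _
    simp only [Matrix.mulVec, dotProduct, hγd, Matrix.map_apply, eq_intCast]
    push_cast
    refine Finset.sum_congr rfl fun l _ => ?_
    rw [cast_rep]
  have h2 : IsInt (((2 * d : ℕ) : ℂ) *
      Change.chi P P' α α' β β' c γ r ((1 / d : ℂ) • ic (rep t))) := by
    have := hC.isInt_chi hf hf' (rep t)
    rw [Change.chi_smul]
    convert this using 1
    push_cast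
    field_simp
  have h3 : ee (Change.chi P P' α α' β β' c γ r ((1 / d : ℂ) • ic (rep t))) ^ (2 * d) = 1 := by
    rw [← ee_nat_mul]; exact h2.ee
  rw [h1, T, T, ic_mulVec, ← Matrix.mulVec_smul, hC.tr_change hF, mul_pow (_ * _) _ (2 * d),
    mul_pow (ee _) (ee _) (2 * d), h3, mul_one, mul_pow, ← pow_mul]

end T

/-- A power sum of finitely many complex numbers, not all zero, is not zero. -/
theorem exists_psum_ne_zero {ι : Type*} [Fintype ι] (z : ι → ℂ) (hz : ∃ i, z i ≠ 0) :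
    ∃ K, 1 ≤ K ∧ ∑ i, z i ^ K ≠ 0 := by
  classical
  obtain ⟨i₀, hi₀⟩ := hz
  have : Nonempty ι := ⟨i₀⟩
  obtain ⟨j, hj⟩ := Finite.exists_max fun i => ‖z i‖
  set M := ‖z j‖ with hM
  have hM0 : 0 < M := lt_of_lt_of_le (norm_pos_iff.2 hi₀) (hj i₀)
  set u : ι → ℂ := fun i => z i / M with hu
  have hu1 : ∀ i, ‖u i‖ ≤ 1 := by
    intro i
    rw [hu]
    simp only [norm_div, Complex.norm_real, Real.norm_eq_abs, abs_of_pos hM0]
    exact (div_le_one hM0).2 (hj i)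
  have huj : ‖u j‖ = 1 := by
    rw [hu]
    simp only [norm_div, Complex.norm_real, Real.norm_eq_abs, abs_of_pos hM0]
    exact div_self hM0.ne'
  have hsmall : Tendsto (fun k : ℕ => ∑ i, if ‖u i‖ = 1 then (0 : ℂ) else u i ^ k) atTop (𝓝 0) := by
    have h0 : ∀ i ∈ (Finset.univ : Finset ι), Tendsto
        (fun k : ℕ => if ‖u i‖ = 1 then (0 : ℂ) else u i ^ k) atTop (𝓝 ((fun _ => (0 : ℂ)) i)) := by
      intro i _
      by_cases hi : ‖u i‖ = 1
      · simp only [hi, if_true]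
        exact tendsto_const_nhds
      · simp only [hi, if_false]
        exact tendsto_pow_atTop_nhds_zero_of_norm_lt_one (lt_of_le_of_ne (hu1 i) hi)
    have h00 := tendsto_finsetSum Finset.univ h0
    rwa [Finset.sum_const_zero] at h00
  obtain ⟨K₁, hK₁⟩ := Filter.eventually_atTop.1
    (hsmall.eventually (Metric.ball_mem_nhds (0 : ℂ) (show (0 : ℝ) < 1 / 2 by norm_num)))
  obtain ⟨k, hk, hnear⟩ := exists_pow_near_one (fun i : {i // ‖u i‖ = 1} => u i) (fun i => i.2)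
    (show (0 : ℝ) < 1 / 2 by norm_num) (max K₁ 1)
  refine ⟨k, le_trans (le_max_right _ _) hk, fun h0 => ?_⟩
  have h1 : ∑ i, u i ^ k = 0 := by
    have : (fun i => u i ^ k) = fun i => z i ^ k / (M : ℂ) ^ k := by
      funext i; rw [hu]; simp only [div_pow]
    rw [this, ← Finset.sum_div, h0, zero_div]
  have h2 : ∑ i, u i ^ k = (∑ i, if ‖u i‖ = 1 then u i ^ k else 0) +
      ∑ i, if ‖u i‖ = 1 then (0 : ℂ) else u i ^ k := by
    rw [← Finset.sum_add_distrib]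
    refine Finset.sum_congr rfl fun i _ => ?_
    split_ifs <;> simp
  have h3 : ‖∑ i, if ‖u i‖ = 1 then (0 : ℂ) else u i ^ k‖ < 1 / 2 := by
    have := hK₁ k (le_trans (le_max_left _ _) hk)
    rwa [dist_zero_right] at this
  have h5 : (1 / 2 : ℝ) ≤ (∑ i, if ‖u i‖ = 1 then u i ^ k else 0).re := by
    rw [Complex.re_sum]
    have h6 : ∀ i, 0 ≤ (if ‖u i‖ = 1 then u i ^ k else 0 : ℂ).re := by
      intro i
      split_ifs with hi
      · have h7 := hnear ⟨i, hi⟩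
        have h8 := (Complex.abs_re_le_norm (u i ^ k - 1)).trans_lt h7
        rw [Complex.sub_re, Complex.one_re, abs_lt] at h8
        linarith [h8.1]
      · simp
    have h9 : (1 / 2 : ℝ) ≤ (if ‖u j‖ = 1 then u j ^ k else 0 : ℂ).re := by
      rw [if_pos huj]
      have h7 := hnear ⟨j, huj⟩
      have h8 := (Complex.abs_re_le_norm (u j ^ k - 1)).trans_lt h7
      rw [Complex.sub_re, Complex.one_re, abs_lt] at h8
      linarith [h8.1]
    exact h9.trans (Finset.single_le_sum (f := fun i => (if ‖u i‖ = 1 then u i ^ k else 0 : ℂ).re)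
      (fun i _ => h6 i) (Finset.mem_univ j))
  rw [h1] at h2
  have h6 : (∑ i, if ‖u i‖ = 1 then u i ^ k else 0) =
      -∑ i, if ‖u i‖ = 1 then (0 : ℂ) else u i ^ k := eq_neg_of_add_eq_zero_left h2.symm
  have h7 : ‖∑ i, if ‖u i‖ = 1 then u i ^ k else 0‖ < 1 / 2 := by
    rw [h6, norm_neg]; exact h3
  have h8 := Complex.re_le_norm (∑ i, if ‖u i‖ = 1 then u i ^ k else 0)
  linarith

end H18.TF
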