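import Pool.Agent.H18.TF.Twist

/-!
# Twisting the periods by the square root of the quotient of two polarizations
-/

set_option autoImplicit false

namespace H18.TF

open Matrix Set Filter Topology Module Polynomial
open scoped ComplexOrder

variable {h g : ℕ}

theorem semiconj_aeval {γ A B : Matrix (Fin h) (Fin h) ℝ} (hs : γ * B = A * γ) (q : ℝ[X]) :
    γ * aeval B q = aeval A q * γ := by
  induction q using Polynomial.induction_on' with
  | add p q hp hq => rw [map_add, map_add, mul_add, add_mul, hp, hq]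
  | monomial n c =>
    rw [aeval_monomial, aeval_monomial]
    have h1 : γ * B ^ n = A ^ n * γ := by
      induction n with
      | zero => simp
      | succ n ih => rw [pow_succ, ← mul_assoc, ih, mul_assoc, hs, ← mul_assoc, pow_succ]
    rw [← Algebra.smul_def, ← Algebra.smul_def, mul_smul_comm, h1, smul_mul_assoc]

theorem aeval_transpose (A : Matrix (Fin h) (Fin h) ℝ) (q : ℝ[X]) :
    aeval Aᵀ q = (aeval A q)ᵀ := by
  induction q using Polynomial.induction_on' with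
  | add p q hp hq => rw [map_add, map_add, Matrix.transpose_add, hp, hq]
  | monomial n c =>
    rw [aeval_monomial, aeval_monomial, ← Algebra.smul_def, ← Algebra.smul_def,
      Matrix.transpose_smul, Matrix.transpose_pow]

/-- The rational form `φ ∘ Ω`. -/
noncomputable def rat (φ : ℝ →ₗ[ℚ] ℚ) (Ω : Matrix (Fin h) (Fin h) ℝ) : Matrix (Fin h) (Fin h) ℝ :=
  (Ω.map φ).map (Rat.castHom ℝ)

/-- The twist. -/
noncomputable def twist (φ : ℝ →ₗ[ℚ] ℚ) (q : ℝ[X]) (Ω : Matrix (Fin h) (Fin h) ℝ) :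
    Matrix (Fin h) (Fin h) ℝ := aeval (Ω⁻¹ * rat φ Ω) q

/-- The real matrix with the given integral entries. -/
def rl (γ : Matrix (Fin h) (Fin h) ℤ) : Matrix (Fin h) (Fin h) ℝ := γ.map (Int.castRingHom ℝ)

theorem rat_conj (φ : ℝ →ₗ[ℚ] ℚ) (Ω : Matrix (Fin h) (Fin h) ℝ) (γ : Matrix (Fin h) (Fin h) ℤ) :
    rat φ ((rl γ)ᵀ * Ω * rl γ) = (rl γ)ᵀ * rat φ Ω * rl γ := by
  ext a b
  simp only [rat, rl, Matrix.map_apply, Matrix.mul_apply, Matrix.transpose_apply,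
    Finset.sum_mul]
  rw [map_sum, map_sum]
  refine Finset.sum_congr rfl fun c _ => ?_
  rw [map_sum, map_sum]
  refine Finset.sum_congr rfl fun d _ => ?_
  have h1 : (Int.castRingHom ℝ) (γ d a) * Ω d c * (Int.castRingHom ℝ) (γ c b) =
      (γ d a * γ c b) • Ω d c := by
    simp only [zsmul_eq_mul, eq_intCast]
    push_cast
    ring
  rw [h1, map_zsmul]
  simp only [zsmul_eq_mul, eq_intCast]
  push_cast
  simp only [map_mul, map_intCast]
  ring

theorem isUnit_rl {γ : Matrix (Fin h) (Fin h) ℤ} (hγ : IsUnit γ.det) : IsUnit (rl γ).det := by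
  rw [rl, ← RingHom.mapMatrix_apply, ← RingHom.map_det]
  exact hγ.map _

theorem mul_rat_conj {φ : ℝ →ₗ[ℚ] ℚ} {Ω : Matrix (Fin h) (Fin h) ℝ}
    {γ : Matrix (Fin h) (Fin h) ℤ} (hγ : IsUnit γ.det) :
    rl γ * (((rl γ)ᵀ * Ω * rl γ)⁻¹ * rat φ ((rl γ)ᵀ * Ω * rl γ)) = (Ω⁻¹ * rat φ Ω) * rl γ := by
  have hu := isUnit_rl hγ
  have hut : IsUnit (rl γ)ᵀ.det := by rwa [Matrix.det_transpose]
  rw [rat_conj, Matrix.mul_inv_rev, Matrix.mul_inv_rev]
  calc rl γ * ((rl γ)⁻¹ * (Ω⁻¹ * ((rl γ)ᵀ)⁻¹) * ((rl γ)ᵀ * rat φ Ω * rl γ)) =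
      (rl γ * (rl γ)⁻¹) * Ω⁻¹ * (((rl γ)ᵀ)⁻¹ * (rl γ)ᵀ) * rat φ Ω * rl γ := by
        simp only [Matrix.mul_assoc]
    _ = _ := by
        rw [Matrix.mul_nonsing_inv _ hu, Matrix.nonsing_inv_mul _ hut, Matrix.one_mul,
          Matrix.mul_one]

theorem twist_conj {φ : ℝ →ₗ[ℚ] ℚ} {q : ℝ[X]} {Ω : Matrix (Fin h) (Fin h) ℝ}
    {γ : Matrix (Fin h) (Fin h) ℤ} (hγ : IsUnit γ.det) :
    rl γ * twist φ q ((rl γ)ᵀ * Ω * rl γ) = twist φ q Ω * rl γ :=
  semiconj_aeval (mul_rat_conj hγ) q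

/-- The properties of a good approximation. -/
def Good (φ : ℝ →ₗ[ℚ] ℚ) (q : ℝ[X]) (Ω : Matrix (Fin h) (Fin h) ℝ) : Prop :=
  twist φ q Ω * twist φ q Ω = Ω⁻¹ * rat φ Ω ∧ IsUnit (Ω⁻¹ * rat φ Ω).det

theorem Good.conj {φ : ℝ →ₗ[ℚ] ℚ} {q : ℝ[X]} {Ω : Matrix (Fin h) (Fin h) ℝ}
    (hg : Good φ q Ω) {γ : Matrix (Fin h) (Fin h) ℤ} (hγ : IsUnit γ.det) :
    Good φ q ((rl γ)ᵀ * Ω * rl γ) := by
  have hu := isUnit_rl hγ
  have hu' := (Matrix.isUnit_iff_isUnit_det _).2 hu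
  constructor
  · refine hu'.mul_left_cancel ?_
    rw [mul_rat_conj hγ, ← mul_assoc, twist_conj hγ, mul_assoc, twist_conj hγ, ← mul_assoc, hg.1]
  · have h1 := congrArg Matrix.det (mul_rat_conj (φ := φ) (Ω := Ω) hγ)
    rw [Matrix.det_mul, Matrix.det_mul _ (rl γ), mul_comm (rl γ).det] at h1
    have h2 := hu.mul_right_cancel h1
    rw [h2]
    exact hg.2

theorem rat_transpose {φ : ℝ →ₗ[ℚ] ℚ} {Ω : Matrix (Fin h) (Fin h) ℝ} (hΩ : Ωᵀ = -Ω) :
    (rat φ Ω)ᵀ = -rat φ Ω := by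
  ext a b
  have h1 : Ω b a = -Ω a b := congrFun (congrFun hΩ a) b
  simp only [rat, Matrix.transpose_apply, Matrix.map_apply, Matrix.neg_apply]
  rw [h1, map_neg, map_neg]

theorem Good.spec {φ : ℝ →ₗ[ℚ] ℚ} {q : ℝ[X]} {Ω : Matrix (Fin h) (Fin h) ℝ}
    (hg : Good φ q Ω) (hΩ : Ωᵀ = -Ω) (hu : IsUnit Ω.det) :
    (twist φ q Ω)ᵀ * Ω * twist φ q Ω = rat φ Ω ∧ IsUnit (twist φ q Ω).det := by
  constructor
  · have h1 : Ω * (Ω⁻¹ * rat φ Ω) = (Ω⁻¹ * rat φ Ω)ᵀ * Ω := by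
      rw [Matrix.transpose_mul, rat_transpose hΩ, Matrix.transpose_nonsing_inv, hΩ,
        ← Matrix.mul_assoc, Matrix.mul_nonsing_inv _ hu, Matrix.one_mul]
      have h2 : (-Ω)⁻¹ * Ω = -1 := by
        have h3 : IsUnit (-Ω).det := by
          rw [Matrix.det_neg]
          exact (IsUnit.pow _ isUnit_one.neg).mul hu
        have h4 := Matrix.nonsing_inv_mul _ h3
        rw [Matrix.mul_neg] at h4
        rw [← h4, neg_neg]
      rw [Matrix.mul_assoc, h2]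
      simp
    have h2 := semiconj_aeval h1 q
    rw [aeval_transpose] at h2
    have h3 : (twist φ q Ω)ᵀ * Ω = Ω * twist φ q Ω := h2.symm
    rw [h3, Matrix.mul_assoc, hg.1, ← Matrix.mul_assoc, Matrix.mul_nonsing_inv _ hu,
      Matrix.one_mul]
  · have h1 := congrArg Matrix.det hg.1
    rw [Matrix.det_mul] at h1
    have h2 : IsUnit ((twist φ q Ω).det * (twist φ q Ω).det) := by
      rw [h1]
      exact hg.2
    exact isUnit_of_mul_isUnit_left h2

/-- There are good approximations. -/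
theorem exists_good {Ω : Matrix (Fin h) (Fin h) ℝ} (hu : IsUnit Ω.det) :
    ∃ (φ : ℝ →ₗ[ℚ] ℚ) (q : ℝ[X]), Good φ q Ω := by
  set C : ℝ := 1 + ∑ i, ∑ j, |Ω⁻¹ i j| with hC
  have hC0 : 0 < C := by positivity
  obtain ⟨φ, hφ⟩ := exists_rat_linear (fun z : Fin h × Fin h => Ω z.1 z.2)
    (show 0 < 1 / (4 * ((h : ℝ) + 1)) / C by positivity)
  have h1 : ∀ i j, |(Ω⁻¹ * rat φ Ω) i j - (1 : Matrix (Fin h) (Fin h) ℝ) i j| ≤
      1 / (4 * (h + 1)) := by
    intro i j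
    have h2 : (Ω⁻¹ * rat φ Ω) i j - (1 : Matrix (Fin h) (Fin h) ℝ) i j =
        ∑ l, Ω⁻¹ i l * ((φ (Ω l j) : ℝ) - Ω l j) := by
      rw [← Matrix.nonsing_inv_mul _ hu, Matrix.mul_apply, Matrix.mul_apply,
        ← Finset.sum_sub_distrib]
      refine Finset.sum_congr rfl fun l _ => ?_
      rw [rat]
      simp only [Matrix.map_apply]
      rw [mul_sub]
      rfl
    rw [h2]
    calc _ ≤ ∑ l, |Ω⁻¹ i l * ((φ (Ω l j) : ℝ) - Ω l j)| := Finset.abs_sum_le_sum_abs _ _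
      _ ≤ ∑ l, |Ω⁻¹ i l| * (1 / (4 * ((h : ℝ) + 1)) / C) := by
          refine Finset.sum_le_sum fun l _ => ?_
          rw [abs_mul]
          exact mul_le_mul_of_nonneg_left (hφ (l, j)) (abs_nonneg _)
      _ = (∑ l, |Ω⁻¹ i l|) * (1 / (4 * ((h : ℝ) + 1)) / C) := by rw [Finset.sum_mul]
      _ ≤ C * (1 / (4 * ((h : ℝ) + 1)) / C) := by
          refine mul_le_mul_of_nonneg_right ?_ (by positivity)
          have := Finset.single_le_sum (f := fun i => ∑ l, |Ω⁻¹ i l|)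
            (fun i _ => Finset.sum_nonneg fun l _ => abs_nonneg _) (Finset.mem_univ i)
          linarith
      _ = _ := by field_simp
  obtain ⟨⟨q, hq⟩, hunit⟩ := exists_sqrt h1
  exact ⟨φ, q, hq, hunit⟩

/-- The twisted periods. -/
noncomputable def mulR (W : Fin g → Fin h → ℂ) (S : Matrix (Fin h) (Fin h) ℝ) :
    Fin g → Fin h → ℂ := fun a l => (Matrix.of W * S.map (algebraMap ℝ ℂ)) a l

theorem map_mulVec_cx' (S : Matrix (Fin h) (Fin h) ℝ) (a : Fin h → ℝ) :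
    S.map (algebraMap ℝ ℂ) *ᵥ cx a = cx (S *ᵥ a) := by
  funext i
  simp [Matrix.mulVec, dotProduct, cx]

theorem mulR_mulVec (W : Fin g → Fin h → ℂ) (S : Matrix (Fin h) (Fin h) ℝ) (x : Fin h → ℝ) :
    Matrix.of (mulR W S) *ᵥ cx x = Matrix.of W *ᵥ cx (S *ᵥ x) := by
  have : Matrix.of (mulR W S) = Matrix.of W * S.map (algebraMap ℝ ℂ) := rfl
  rw [this, ← Matrix.mulVec_mulVec, map_mulVec_cx']

theorem IsPos.twist {W : Fin g → Fin h → ℂ} {Ω Ω' S : Matrix (Fin h) (Fin h) ℝ}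
    (hW : IsPos W Ω) (hS : Sᵀ * Ω * S = Ω') (hu : IsUnit S.det) : IsPos (mulR W S) Ω' := by
  obtain ⟨h1, H, hH, h2⟩ := hW
  refine ⟨fun x hx => ?_, H, hH, fun x y => ?_⟩
  · rw [mulR_mulVec] at hx
    have h3 := h1 _ hx
    have h4 : S⁻¹ *ᵥ (S *ᵥ x) = x := by
      rw [Matrix.mulVec_mulVec, Matrix.nonsing_inv_mul _ hu, Matrix.one_mulVec]
    rw [← h4, h3, Matrix.mulVec_zero]
  · rw [mulR_mulVec, mulR_mulVec, h2, ← hS, ← Matrix.mulVec_mulVec, ← Matrix.mulVec_mulVec,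
      Matrix.dotProduct_mulVec x, Matrix.vecMul_transpose]

theorem IsPos.skew {W : Fin g → Fin h → ℂ} {Ω : Matrix (Fin h) (Fin h) ℝ} (hW : IsPos W Ω) :
    Ωᵀ = -Ω := by
  obtain ⟨-, H, hH, h2⟩ := hW
  have h3 : ∀ u v : Fin g → ℂ, (star u ⬝ᵥ (H *ᵥ v)).im = -(star v ⬝ᵥ (H *ᵥ u)).im := by
    intro u v
    have h4 : star (star u ⬝ᵥ (H *ᵥ v)) = star v ⬝ᵥ (H *ᵥ u) := by
      rw [← Matrix.star_dotProduct, Matrix.star_mulVec, hH.1.eq, ← Matrix.dotProduct_mulVec]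
    rw [← h4]
    simp
  ext a b
  have h5 := h2 (Pi.single b 1) (Pi.single a 1)
  have h6 := h2 (Pi.single a 1) (Pi.single b 1)
  rw [h3] at h5
  rw [h6] at h5
  simpa using h5.symm

theorem IsPos.isUnit {W : Fin g → Fin (2 * g) → ℂ} {Ω : Matrix (Fin (2 * g)) (Fin (2 * g)) ℝ}
    (hW : IsPos W Ω) : IsUnit Ω.det := by
  obtain ⟨h1, H, hH, h2⟩ := hW
  rw [isUnit_iff_ne_zero]
  intro hdet
  obtain ⟨y, hy, hy0⟩ := Matrix.exists_mulVec_eq_zero_iff.2 hdet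
  -- the real linear map given by `W` is surjective
  let f : (Fin (2 * g) → ℝ) →ₗ[ℝ] (Fin g → ℂ) :=
    { toFun := fun x => Matrix.of W *ᵥ cx x
      map_add' := by
        intro x y
        rw [← Matrix.mulVec_add]
        congr 1
        funext i
        simp [cx]
      map_smul' := by
        intro c x
        have : cx (c • x) = (c : ℂ) • cx x := by
          funext i
          simp [cx]
        rw [this, Matrix.mulVec_smul]
        funext i
        simp }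
  have hinj : Function.Injective f := by
    rw [← LinearMap.ker_eq_bot, LinearMap.ker_eq_bot']
    exact fun x hx => h1 x hx
  have hfr : finrank ℝ (Fin (2 * g) → ℝ) = finrank ℝ (Fin g → ℂ) := by
    rw [Module.finrank_fintype_fun_eq_card, Fintype.card_fin, Module.finrank_pi_fintype]
    simp [Complex.finrank_real_complex, mul_comm]
  have hsurj : Function.Surjective f :=
    (LinearMap.injective_iff_surjective_of_finrank_eq_finrank hfr).1 hinj
  obtain ⟨x, hx⟩ := hsurj (Complex.I • f y)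
  have h3 := h2 x y
  rw [hy0, dotProduct_zero] at h3
  have h4 : Matrix.of W *ᵥ cx x = Complex.I • (Matrix.of W *ᵥ cx y) := hx
  rw [h4, star_smul, smul_dotProduct] at h3
  have h5 : (star (Matrix.of W *ᵥ cx y) ⬝ᵥ (H *ᵥ (Matrix.of W *ᵥ cx y))).re = 0 := by
    simpa using h3
  have h6 : Matrix.of W *ᵥ cx y ≠ 0 := fun h => hy (h1 y h)
  have h7 := (Complex.pos_iff.1 (hH.dotProduct_mulVec_pos h6)).1
  linarith

end H18.TF
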